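import Pool.Agent.Helper94.CXT.UT2

/-!
Far cells of tail classes, row UUT: corners of boxes, the derived parameters.
-/

set_option autoImplicit false
set_option exponentiation.threshold 4000
noncomputable section
namespace Pool.Agent.Helper94.CXT

open Pool.Agent.Helper86.CX renaming Hm → Hm, ev → hev
open Pool.Agent.Helper94.CXF (M9)
open Pool.Agent.Helper94.CXF
open Pool.Agent.Helper94.CXF.SD
open Pool.Agent.Helper94.CXF.SD.UUX
open Pool.Agent.Helper48.CXT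
open Complex ComplexConjugate

/-! ### corners -/

theorem lev_sound {a b : ℕ} {f : ℕ → ℕ → Bool} {i : ℕ} (h : KT.lev a b f i = true) (c : Bool) :
    ∃ j, f (sl a b c) j = true := by
  unfold KT.lev at h
  by_cases hab : a = b
  · have hb : Nat.beq a b = true := by rw [Nat.beq_eq]; exact hab
    rw [hb] at h
    subst hab
    cases c
    · exact ⟨i, h⟩
    · exact ⟨i, h⟩
  · have hb : Nat.beq a b = false := by
      cases hh : Nat.beq a b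
      · rfl
      · rw [Nat.beq_eq] at hh
        exact absurd hh hab
    rw [hb] at h
    have h' : KN.andB (f a (Nat.add i i)) (f b (Nat.succ (Nat.add i i))) = true := h
    rw [andB_iff] at h'
    cases c
    · exact ⟨_, h'.1⟩
    · exact ⟨_, h'.2⟩

theorem cor_sound {b : KT.Bx} {f : ℕ → ℕ → ℕ → ℕ → Bool} (h : KT.cor b f = true)
    (c1 c2 c3 : Bool) : ∃ i, f (sl b.a1 b.b1 c1) (sl b.a2 b.b2 c2) (sl b.a3 b.b3 c3) i = true := by
  obtain ⟨i1, h1⟩ := lev_sound h c1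
  obtain ⟨i2, h2⟩ := lev_sound h1 c2
  exact lev_sound h2 c3

/-! ### the ends of an interval -/

structure Ends (r : ℝ) (a b : ℕ) (v v0 v1 t : ℝ) : Prop where
  I : I01 t
  e : v = (1 - t) * v0 + t * v1
  n0 : |(a : ℝ) - 2 ^ 48 * v0| ≤ r
  n1 : |(b : ℝ) - 2 ^ 48 * v1| ≤ r
  d : 2 ^ 48 * (v1 - v0) = (b : ℝ) - a
  x : (v0 = v ∧ v1 = v ∧ a = b) ∨ (2 ^ 48 * v0 = a ∧ 2 ^ 48 * v1 = b ∧ a < b)

theorem ends_of {r : ℝ} {a b : ℕ} {v : ℝ} (r0 : 0 ≤ r)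
    (h : (a = b ∧ |(a : ℝ) - 2 ^ 48 * v| ≤ r) ∨ ((a : ℝ) ≤ 2 ^ 48 * v ∧ 2 ^ 48 * v ≤ b)) :
    ∃ v0 v1 t, Ends r a b v v0 v1 t := by
  have hd : (a = b ∧ |(a : ℝ) - 2 ^ 48 * v| ≤ r) ∨ (a < b ∧ (a : ℝ) ≤ 2 ^ 48 * v ∧ 2 ^ 48 * v ≤ b) := by
    rcases h with h | ⟨h1, h2⟩
    · exact Or.inl h
    · have hab : a ≤ b := by
        have : (a : ℝ) ≤ b := h1.trans h2
        exact_mod_cast this
      rcases hab.eq_or_lt with he | hl
      · left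
        refine ⟨he, ?_⟩
        subst he
        have : (a : ℝ) - 2 ^ 48 * v = 0 := by linarith
        rw [this, abs_zero]
        exact r0
      · exact Or.inr ⟨hl, h1, h2⟩
  rcases hd with ⟨he, hn⟩ | ⟨hl, h1, h2⟩
  · refine ⟨v, v, 0, ⟨⟨le_rfl, zero_le_one⟩, by ring, hn, by rw [← he]; exact hn, ?_,
      Or.inl ⟨rfl, rfl, he⟩⟩⟩
    rw [he]; ring
  · have hl' : (a : ℝ) < b := by exact_mod_cast hl
    obtain ⟨t, t0, t1, ht⟩ := exists_t h1 h2 hl'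
    have e0 : (2 : ℝ) ^ 48 * ((a : ℝ) / 2 ^ 48) = a := by field_simp
    have e1 : (2 : ℝ) ^ 48 * ((b : ℝ) / 2 ^ 48) = b := by field_simp
    refine ⟨(a : ℝ) / 2 ^ 48, (b : ℝ) / 2 ^ 48, t, ⟨⟨t0, t1⟩, ?_, ?_, ?_, ?_, Or.inr ⟨e0, e1, hl⟩⟩⟩
    · have : (2 : ℝ) ^ 48 * v = 2 ^ 48 * ((1 - t) * ((a : ℝ) / 2 ^ 48) + t * ((b : ℝ) / 2 ^ 48)) := by
        rw [ht]; field_simp
      exact mul_left_cancel₀ (by positivity) this
    · rw [e0, sub_self, abs_zero]; exact r0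
    · rw [e1, sub_self, abs_zero]; exact r0
    · rw [mul_sub, e0, e1]

theorem Ends.lo {r : ℝ} {a b : ℕ} {v v0 v1 t c : ℝ} (h : Ends r a b v v0 v1 t) (h1 : c ≤ v)
    (h2 : c * 2 ^ 48 ≤ a) : c ≤ v0 ∧ c ≤ v1 := by
  rcases h.x with ⟨e0, e1, _⟩ | ⟨e0, e1, hl⟩
  · rw [e0, e1]; exact ⟨h1, h1⟩
  · have hl' : (a : ℝ) < b := by exact_mod_cast hl
    constructor
    · refine le_of_mul_le_mul_left ?_ (show (0 : ℝ) < 2 ^ 48 by positivity)
      rw [e0]; linarith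
    · refine le_of_mul_le_mul_left ?_ (show (0 : ℝ) < 2 ^ 48 by positivity)
      rw [e1]; linarith

theorem Ends.hi {r : ℝ} {a b : ℕ} {v v0 v1 t c : ℝ} (h : Ends r a b v v0 v1 t) (h1 : v ≤ c)
    (h2 : (b : ℝ) ≤ c * 2 ^ 48) : v0 ≤ c ∧ v1 ≤ c := by
  rcases h.x with ⟨e0, e1, _⟩ | ⟨e0, e1, hl⟩
  · rw [e0, e1]; exact ⟨h1, h1⟩
  · have hl' : (a : ℝ) < b := by exact_mod_cast hl
    constructor
    · refine le_of_mul_le_mul_left ?_ (show (0 : ℝ) < 2 ^ 48 by positivity)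
      rw [e0]; linarith
    · refine le_of_mul_le_mul_left ?_ (show (0 : ℝ) < 2 ^ 48 by positivity)
      rw [e1]; linarith

theorem Ends.le {r : ℝ} {a b : ℕ} {v v0 v1 t : ℝ} (h : Ends r a b v v0 v1 t) : v0 ≤ v1 := by
  rcases h.x with ⟨e0, e1, _⟩ | ⟨e0, e1, hl⟩
  · rw [e0, e1]
  · have hl' : (a : ℝ) < b := by exact_mod_cast hl
    refine le_of_mul_le_mul_left ?_ (show (0 : ℝ) < 2 ^ 48 by positivity)
    rw [e0, e1]; exact hl'.le

/-- the value at a corner -/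
theorem Ends.ap {r : ℝ} {a b : ℕ} {v v0 v1 t C : ℝ} (h : Ends r a b v v0 v1 t) (h0 : 0 ≤ v)
    (h1 : v ≤ C) (h2 : (b : ℝ) ≤ C * 2 ^ 48) (c : Bool) :
    Ap r C (if c then v1 else v0) (sl a b c) := by
  obtain ⟨p0, p1⟩ := h.lo (c := 0) h0 (by rw [zero_mul]; exact Nat.cast_nonneg _)
  obtain ⟨q0, q1⟩ := h.hi h1 h2
  cases c
  · exact ⟨p0, q0, h.n0⟩
  · exact ⟨p1, q1, h.n1⟩

/-! ### products -/

theorem mu_eq (a b : ℕ) : KN.mu a b = a * b / 2 ^ 48 := by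
  change (a * b) >>> 48 = _
  rw [Nat.shiftRight_eq_div_pow]

theorem mu_le_real (a b : ℕ) : ((KN.mu a b : ℕ) : ℝ) * 2 ^ 48 ≤ (a : ℝ) * b := by
  rw [mu_eq]
  have : a * b / 2 ^ 48 * 2 ^ 48 ≤ a * b := Nat.div_mul_le_self _ _
  exact_mod_cast this

theorem le_mu_real (a b : ℕ) : (a : ℝ) * b ≤ (((KN.mu a b : ℕ) : ℝ) + 1) * 2 ^ 48 := by
  rw [mu_eq]
  have : a * b < (a * b / 2 ^ 48 + 1) * 2 ^ 48 := by
    have := Nat.lt_div_mul_add (a := a * b) (b := 2 ^ 48) (by positivity)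
    linarith
  have h3 : ((a * b : ℕ) : ℝ) < (((a * b / 2 ^ 48 + 1) * 2 ^ 48 : ℕ) : ℝ) := by
    exact_mod_cast this
  push_cast at h3 ⊢
  linarith

theorem div_le_real (n d : ℕ) (hd : 0 < d) : ((n / d : ℕ) : ℝ) * d ≤ n := by
  have : n / d * d ≤ n := Nat.div_mul_le_self _ _
  exact_mod_cast this

theorem le_div_real (n d : ℕ) (hd : 0 < d) : (n : ℝ) ≤ (((n / d : ℕ) : ℝ) + 1) * d := by
  have h1 : n < (n / d + 1) * d := by
    have := Nat.lt_div_mul_add (a := n) (b := d) hd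
    linarith
  have h3 : (n : ℝ) < (((n / d + 1) * d : ℕ) : ℝ) := by
    exact_mod_cast h1
  push_cast at h3 ⊢
  linarith

/-- a label: real number in `[1, 2]` -/
structure Lb (a b : ℕ) (v : ℝ) : Prop where
  iv : InV a b v
  lo : 1 ≤ v
  hi : v ≤ 2
  a1 : 2 ^ 48 ≤ a
  b1 : b ≤ 2 ^ 49
  ab : a ≤ b

theorem Lb.lo' {a b : ℕ} {v : ℝ} (h : Lb a b v) : (a : ℝ) ≤ 2 ^ 48 * v + 1 := by
  rcases h.iv with ⟨_, h2⟩ | ⟨h1, _⟩
  · have := (abs_le.1 h2).2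
    linarith
  · linarith
theorem Lb.hi' {a b : ℕ} {v : ℝ} (h : Lb a b v) : 2 ^ 48 * v ≤ b + 1 := by
  rcases h.iv with ⟨h1, h2⟩ | ⟨_, h2⟩
  · have := (abs_le.1 h2).1
    rw [← h1]
    linarith
  · linarith

/-- the square of a label, in the derived box -/
theorem Lb.sq {a b : ℕ} {v : ℝ} (h : Lb a b v) {b' : ℕ}
    (hb' : b' = Bool.rec (motive := fun _ => Nat) (Nat.succ (KN.mu b b)) (KN.mu a a)
      (Nat.beq a b)) :
    (KN.mu a a = b' ∧ |((KN.mu a a : ℕ) : ℝ) - 2 ^ 48 * v ^ 2| ≤ 8) ∨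
      (((KN.mu a a : ℕ) : ℝ) ≤ 2 ^ 48 * v ^ 2 ∧ 2 ^ 48 * v ^ 2 ≤ b') := by
  by_cases hab : a = b
  · left
    have hb : Nat.beq a b = true := by rw [Nat.beq_eq]; exact hab
    rw [hb] at hb'
    refine ⟨hb'.symm, ?_⟩
    have A : Ap 1 2 v a := by
      refine ⟨by linarith [h.lo], h.hi, ?_⟩
      have h1 := h.lo'
      have h2 := h.hi'
      rw [← hab] at h2
      exact abs_le.2 ⟨by linarith, by linarith⟩
    have B := (A.mul A (by norm_num)).er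
    rw [← pow_two] at B
    exact B.trans (by norm_num)
  · right
    have hb : Nat.beq a b = false := by
      cases hh : Nat.beq a b
      · rfl
      · rw [Nat.beq_eq] at hh
        exact absurd hh hab
    rw [hb] at hb'
    have hp : (a : ℝ) ≤ 2 ^ 48 * v ∧ 2 ^ 48 * v ≤ b := by
      rcases h.iv with ⟨h1, _⟩ | h1
      · exact absurd h1 hab
      · exact h1
    have a0 : (0 : ℝ) ≤ a := Nat.cast_nonneg _
    have b0 : (0 : ℝ) ≤ b := Nat.cast_nonneg _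
    have v0 : 0 ≤ 2 ^ 48 * v := a0.trans hp.1
    have s1 : (a : ℝ) * a ≤ (2 ^ 48 * v) * (2 ^ 48 * v) := mul_le_mul hp.1 hp.1 a0 v0
    have s2 : (2 ^ 48 * v) * (2 ^ 48 * v) ≤ (b : ℝ) * b := mul_le_mul hp.2 hp.2 v0 b0
    have m1 := mu_le_real a a
    have m2 := le_mu_real b b
    constructor
    · refine le_of_mul_le_mul_right ?_ (show (0 : ℝ) < 2 ^ 48 by positivity)
      nlinarith
    · have e : ((b' : ℕ) : ℝ) = ((KN.mu b b : ℕ) : ℝ) + 1 := by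
        rw [hb']; change (((KN.mu b b) + 1 : ℕ) : ℝ) = _
        push_cast; rfl
      rw [e]
      refine le_of_mul_le_mul_right ?_ (show (0 : ℝ) < 2 ^ 48 by positivity)
      nlinarith

theorem mu_ge {a : ℕ} (h : 2 ^ 48 ≤ a) : 2 ^ 48 ≤ KN.mu a a := by
  rw [mu_eq, Nat.le_div_iff_mul_le (by positivity)]
  exact Nat.mul_le_mul h h

theorem mu_le_nat {a : ℕ} (h : a ≤ 2 ^ 49) : KN.mu a a ≤ 2 ^ 50 := by
  rw [mu_eq]
  have h1 : a * a ≤ 2 ^ 49 * 2 ^ 49 := Nat.mul_le_mul h h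
  have h2 := Nat.div_le_div_right (c := 2 ^ 48) h1
  exact h2.trans (by norm_num)

theorem su_real {x : ℕ} (h : 2 ^ 48 ≤ x) : ((KT.su x : ℕ) : ℝ) = (x : ℝ) - 2 ^ 48 := by
  have e : KT.su x = x - 2 ^ 48 := rfl
  rw [e, Nat.cast_sub h]
  norm_num

end Pool.Agent.Helper94.CXT
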