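import Pool.Agent.Helper94.CXF.S8

/-!
Far cells of tail classes: change of `x0`.
-/

set_option autoImplicit false
set_option exponentiation.threshold 4000
noncomputable section
namespace Pool.Agent.Helper94.CXT

open Pool.Agent.Helper94.CXF
open Pool.Agent.Helper94.CXF.SD
open Complex ComplexConjugate

/-- the point of the curve of `xc` at the same `s` -/
theorem cv_near {x0 xc s : ℝ} {u : ℂ} (h : Cv x0 s u) (h0 : |x0| ≤ 2) (hc : |xc| ≤ 2) :
    ∃ v, Cv xc s v ∧ ‖u - v‖ ≤ 104 / 100 * s * |x0 - xc| := by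
  have s0 := h.s0
  have s1 := h.s1
  have hs : 0 < 1 + s ^ 2 := by positivity
  have a0 := abs_le.1 h0
  have ac := abs_le.1 hc
  set r : ℝ := xc * s / (1 + s ^ 2) with hr
  have er : r * (1 + s ^ 2) = xc * s := by rw [hr]; field_simp
  have r1 : r ≤ 1 / 4 := by
    rw [hr, div_le_iff₀ hs]; nlinarith
  have r2 : -(1 / 4) ≤ r := by
    rw [hr, le_div_iff₀ hs]; nlinarith
  have q1 : u.re ≤ 1 / 4 := by
    have : u.re * (1 + s ^ 2) ≤ 1 / 4 * (1 + s ^ 2) := by rw [h.re]; nlinarith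
    exact le_of_mul_le_mul_right this hs
  have q2 : -(1 / 4) ≤ u.re := by
    have : -(1 / 4) * (1 + s ^ 2) ≤ u.re * (1 + s ^ 2) := by rw [h.re]; nlinarith
    exact le_of_mul_le_mul_right this hs
  have r3 : r ^ 2 ≤ 1 / 16 := by nlinarith
  have q3 : u.re ^ 2 ≤ 1 / 16 := by nlinarith
  set m : ℝ := Real.sqrt (1 - r ^ 2) with hm
  have m2 : m ^ 2 = 1 - r ^ 2 := Real.sq_sqrt (by linarith)
  have m0 : 0 ≤ m := Real.sqrt_nonneg _
  have m1 : 96 / 100 ≤ m := by
    by_contra hlt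
    have hlt := not_le.1 hlt
    nlinarith
  have un : u.re ^ 2 + u.im ^ 2 = 1 := by
    have := h.nm
    rw [normSq_apply] at this
    linarith
  have im := h.im
  have i1 : u.im ≤ -(96 / 100) := by
    by_contra hlt
    have hlt := not_le.1 hlt
    nlinarith
  refine ⟨⟨r, -m⟩, ⟨s0, s1, er, by simpa using m0, ?_⟩, ?_⟩
  · rw [normSq_apply]
    simp only
    nlinarith
  · set a : ℝ := u.re - r with ha
    have e1 : a * (1 + s ^ 2) = (x0 - xc) * s := by
      rw [ha, sub_mul, h.re, er]; ring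
    have e2 : |a| ≤ s * |x0 - xc| := by
      have h1 : |a| * (1 + s ^ 2) = s * |x0 - xc| := by
        rw [← abs_of_pos hs, ← abs_mul, e1, abs_mul, abs_of_nonneg s0, mul_comm]
      nlinarith [abs_nonneg a, sq_nonneg s]
    set b : ℝ := u.im + m with hb
    have e3 : b * (u.im - m) = -(a * (u.re + r)) := by
      rw [hb, ha]; nlinarith
    have e4 : |b| * (192 / 100) ≤ |a| * (1 / 2) := by
      have h1 : |b| * |u.im - m| = |a| * |u.re + r| := by
        rw [← abs_mul, e3, abs_neg, abs_mul]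
      have h2 : 192 / 100 ≤ |u.im - m| := by
        rw [abs_of_nonpos (by linarith)]; linarith
      have h3 : |u.re + r| ≤ 1 / 2 := abs_le.2 ⟨by linarith, by linarith⟩
      calc |b| * (192 / 100) ≤ |b| * |u.im - m| := mul_le_mul_of_nonneg_left h2 (abs_nonneg _)
        _ = |a| * |u.re + r| := h1
        _ ≤ |a| * (1 / 2) := mul_le_mul_of_nonneg_left h3 (abs_nonneg _)
    have e5 : ‖u - ⟨r, -m⟩‖ ^ 2 = a ^ 2 + b ^ 2 := by
      rw [← normSq_eq_norm_sq, normSq_apply]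
      simp only [sub_re, sub_im]
      rw [ha, hb]; ring
    have e6 : ‖u - ⟨r, -m⟩‖ ≤ 104 / 100 * |a| := by
      have h1 : ‖u - ⟨r, -m⟩‖ ^ 2 ≤ (104 / 100 * |a|) ^ 2 := by
        rw [e5, ← sq_abs a, ← sq_abs b]
        nlinarith [abs_nonneg a, abs_nonneg b]
      exact (abs_le_of_sq_le_sq' h1 (by positivity)).2
    refine e6.trans ?_
    rw [mul_assoc]
    exact mul_le_mul_of_nonneg_left e2 (by norm_num)

/-- the value at a point of another curve -/
theorem Vv_shift {x0 s : ℝ} {u v : ℂ} (hu : Cv x0 s u) {ρ : ℝ} (h : ‖u - v‖ ≤ ρ)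
    {c1 cs c2 c3 : ℝ} {qu qe qg : ℂ} {nu ne ng : ℝ} (gu : 2 * ‖qu‖ ≤ nu) (ge : 2 * ‖qe‖ ≤ ne)
    (gg : 2 * ‖qg‖ ≤ ng) :
    Vv s v c1 cs c2 c3 qu qe qg - (ρ * nu + s * ρ * ne + s * s * ρ * ng) ≤
      Vv s u c1 cs c2 c3 qu qe qg := by
  have s0 := hu.s0
  have r0 : 0 ≤ ρ := (norm_nonneg _).trans h
  have key : ∀ (q : ℂ) (n : ℝ), 2 * ‖q‖ ≤ n → 2 * (v * q).re - ρ * n ≤ 2 * (u * q).re := by
    intro q n hq
    have e : 2 * (v * q).re - 2 * (u * q).re = -(2 * ((u - v) * q).re) := by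
      rw [sub_mul, sub_re]; ring
    have h1 : -(2 * ((u - v) * q).re) ≤ 2 * ‖(u - v) * q‖ := by
      have := (abs_le.1 (abs_re_le_norm ((u - v) * q))).1
      linarith
    have h2 : 2 * ‖(u - v) * q‖ ≤ ρ * n := by
      rw [norm_mul]
      calc 2 * (‖u - v‖ * ‖q‖) = ‖u - v‖ * (2 * ‖q‖) := by ring
        _ ≤ ρ * n := mul_le_mul h hq (by positivity) r0
    linarith
  have k1 := key qu nu gu
  have k2 := mul_le_mul_of_nonneg_left (key qe ne ge) s0
  have k3 := mul_le_mul_of_nonneg_left (key qg ng gg) (mul_nonneg s0 s0)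
  have e1 : ∀ (w q : ℂ), (((s : ℂ) * w) * q).re = s * (w * q).re := by
    intro w q; rw [mul_assoc, re_ofReal_mul]
  simp only [Vv, e1]
  linarith

end Pool.Agent.Helper94.CXT
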