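import Pool.Agent.Helper94.CXT.FIN1
import Pool.Agent.Helper48.CXT.SS

/-!
Far cells of tail classes, FIN: the slits in the shape of `FF`; ALL FACTS at a point of a piece.
-/

set_option autoImplicit false
set_option exponentiation.threshold 4000
noncomputable section
namespace Pool.Agent.Helper94.CXT

open Pool.Agent.Helper6.MONO hiding fP
open Pool.Agent.Helper6.MONO.QTR (V0 e0)
open Pool.Agent.Helper21.SUP (GS DG DG_nx)
open Pool.Agent.Helper21.SUP renaming nx → nxs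
open Pool.Agent.Helper86.CX renaming Hm → Hm, ev → hev
open Pool.Agent.Helper39.SLT (ML ML_nx)
open Pool.Agent.Helper94.CXF (M9)
open Pool.Agent.Helper94.CXF hiding cmb
open Pool.Agent.Helper94.CXF.SD
open Pool.Agent.Helper48.CXT
open Pool.Agent.Helper48.CXT.KC (okI bLo bHi sbx setR SDT PT nthD nthT pX cHT)
open Pool.Agent.Helper60.CXT (Cls Hyp LbO LbS xcT SDTs K0T KFN KFT KBT P1T P2T AllN NegT l4S ntS
  tS_un l4S_iff ntS_iff KFN_tl KFN_ex contAll)

section
variable {p q r P Q R : ℕ} {b : KT.Bx} {Pc : PT} {x0 σ : ℝ} {u : ℂ}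

theorem kkpos (C : Cls p q r P Q R b) {i j : Fin 3} (h : i ≠ j) : 0 < kk P Q R i j := by
  linarith [(kk12 C h).1]

/-- the slit of the first run -/
theorem lG_sound (H : Hyp p q r P Q R b Pc x0 σ u) {s : GS} (hs : DG s) {K : ℕ}
    {t : KT.Tr (List KT.Sg)}
    (h : KC.lG (pX Pc) (oriZ s) K (mm p q r s.1 s.2.1) s.1 s.2.1 t (sbx b s.1 s.2.1 s.2.2) = true) :
    Sl (rH (decz K)) (TRs P Q R false s 0) (dS P Q R s (σ * u)) (σ * u) := by
  have C := H.cl
  have hk := kkpos C hs.1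
  have hg := kkpos C (Ne.symm hs.2.2)
  have ho : KN.orN s.1 s.2.1 = oriZ (nxs s 3) := by
    have := tg_or hs 0
    rw [selB_iff] at this
    exact this
  unfold KC.lG at h
  rw [selB_iff] at h
  by_cases hM : mm p q r s.1 s.2.1 = 0
  · have hb : Nat.beq (mm p q r s.1 s.2.1) 0 = true := by rw [Nat.beq_eq]; exact hM
    rw [if_pos hb, ho] at h
    rw [Pool.Agent.Helper60.CXT.TRs_three]
    have F := contAll.t3 (oriZ s) false (oriZ (nxs s 3))
    have c1 : cLL (oriZ s) false 34 3 = 3 := by simp [cLL]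
    have c3 : cLL (oriZ s) false 7 0 = 0 := by simp [cLL]
    rw [c1, c3] at F
    exact lS_sound H.bp H.cx H.ix F (C.rg hs) (C.inb hs) hk hg h
  · have hb : ¬ Nat.beq (mm p q r s.1 s.2.1) 0 = true := by rw [Nat.beq_eq]; exact hM
    rw [if_neg hb] at h
    have S := (C.st hs.1).s
    obtain ⟨hMe, hM9⟩ := S.ex hM
    have hM3 := S.m3
    rw [hMe] at hM9 hM3
    have F : FamP KC.idB (fun _ h g => TRr (oriZ s) false (oriZ (nxs s (0 + 3))) h g
        (uC (Kp (mm p q r s.1 s.2.1)) (0 + 3)) (uC (Kp (mm p q r s.1 s.2.1)) (0 + 2))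
        (uC (Kp (mm p q r s.1 s.2.1)) (0 + 1)) (eC (Kp (mm p q r s.1 s.2.1)) (0 + 2))
        (eC (Kp (mm p q r s.1 s.2.1)) (0 + 1)) (eC (Kp (mm p q r s.1 s.2.1)) 0))
        (fun _ h g => KN.TR (oriZ s) false (KN.orN s.1 s.2.1) h g (mm p q r s.1 s.2.1) 0) 0 0 0 := by
      rw [ho]
      have F := contAll.ex (oriZ s) false (oriZ (nxs s (0 + 3))) _ _ _ _ _ _ _ _ _ _ _ _
        (ap_u hM3 hM9 (j := 0 + 3) (by omega)) (ap_u hM3 hM9 (j := 0 + 2) (by omega))
        (ap_u hM3 hM9 (j := 0 + 1) (by omega)) (ap_e hM3 hM9 (j := 0 + 2) (by omega))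
        (ap_e hM3 hM9 (j := 0 + 1) (by omega)) (ap_e hM3 hM9 (j := 0) (by omega))
      have c3 : ∀ x, cLL (oriZ s) false x 0 = 0 := fun x => by simp [cLL]
      rw [c3] at F
      exact F
    have eT : TRs P Q R false s 0 = TRr (oriZ s) false (oriZ (nxs s (0 + 3))) (kk P Q R s.2.1 s.2.2)
        (kk P Q R s.1 s.2.2) (uC (Kp (mm p q r s.1 s.2.1)) (0 + 3))
        (uC (Kp (mm p q r s.1 s.2.1)) (0 + 2)) (uC (Kp (mm p q r s.1 s.2.1)) (0 + 1))
        (eC (Kp (mm p q r s.1 s.2.1)) (0 + 2)) (eC (Kp (mm p q r s.1 s.2.1)) (0 + 1))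
        (eC (Kp (mm p q r s.1 s.2.1)) 0) := by
      rw [TRs, kk, kk, kk, hMe]
    rw [eT]
    exact lS_sound H.bp H.cx H.ix F (C.rg hs) (C.inb hs) hk hg h

/-- the slits of a state, in the shape of `FF` -/
theorem tG_sound (H : Hyp p q r P Q R b Pc x0 σ u) {s : GS} (hs : DG s)
    (h : KC.tG (pX Pc) (l4S p q r s) (oriZ s) (SDTs Pc s) (sbx b s.1 s.2.1 s.2.2)
      (mm p q r s.1 s.2.1) s.1 s.2.1 = true) :
    (4 ≤ ML P Q R s → Sl (K0T Pc s) (TRs P Q R false s 0) (dS P Q R s (σ * u)) (σ * u)) ∧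
    (ML P Q R s = 3 → Sl (KFT p q r Pc s) (TRs P Q R false s 0) (dS P Q R s (σ * u)) (σ * u)) ∧
    Sl (KBT Pc s) (TUs P Q R s) (dS P Q R s (σ * u)) (σ * u) := by
  have C := H.cl
  have hk := kkpos C hs.1
  have hh := kkpos C hs.2.1
  have hg := kkpos C (Ne.symm hs.2.2)
  unfold KC.tG at h
  simp only [andB_iff] at h
  obtain ⟨h1, h2⟩ := h
  rw [selB_iff] at h1 h2
  refine ⟨fun h4 => ?_, fun h3 => ?_, ?_⟩
  · rw [if_pos (C.l4 hs h4)] at h1
    exact lG_sound H hs h1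
  · have h3' := C.l4' hs h3
    have hlab := (C.ML_lab hs).1 h3
    rw [if_neg (by rw [h3']; decide)] at h1
    rw [KFT, KFN_ex (by omega)]
    exact lG_sound H hs h1
  · cases ho : oriZ s
    · rw [if_neg (by rw [ho]; decide), ho] at h2
      rw [TUs, if_neg (by rw [ho]; decide), dS, ho]
      exact lS_sound H.bp H.cx H.ix contAll.pp (C.rg hs) (C.inb hs) hk hg h2
    · rw [if_pos ho, ho] at h2
      rw [TUs, if_pos ho, dS, ho]
      have S := lS_sound H.bp H.cx H.ix contAll.um (C.rg hs) (C.inb hs) hk hg h2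
      refine sl_cmb (w := 1 / (kk P Q R s.1 s.2.1 * kk P Q R s.2.1 s.2.2 * kk P Q R s.1 s.2.2))
        (by positivity) ?_
      exact S

/-- ALL FACTS at a point of a piece -/
theorem ff_ofT (H : Hyp p q r P Q R b Pc x0 σ u)
    (hS : ∀ s, DG s → KC.cST p q r b Pc s.1 s.2.1 s.2.2 = true) {C : ℝ}
    (hC : BdT p q r P Q R Pc C) :
    FF P Q R V0 e0 (σ * u) C (K0T Pc) (KFT p q r Pc) (KBT Pc) (P1T Pc σ) (P2T Pc σ) := by
  have hA := Pool.Agent.Helper60.CXT.allN_of hS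
  have hR := allR_of hS
  have ten : ∀ s, DG s → _ := fun s hs => tS_un hs (hS s hs)
  unfold KC.tS2 at ten
  simp only [andB_iff] at ten
  have rn := fun s hs => Pool.Agent.Helper60.CXT.tR_sound H hA hs (ten s hs).2.1
  have vv := fun s hs => Pool.Agent.Helper60.CXT.tV_sound H hA hs (ten s hs).2.2.2.2.2.2.1
  have sl := fun s hs => tG_sound H hs (ten s hs).2.2.2.2.2.2.2
  exact
    { n0 := fun s hs h4 => Pool.Agent.Helper60.CXT.neg0 H.cl hA hs h4
      nF := fun s hs => Pool.Agent.Helper60.CXT.negF hA hs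
      nB := fun s hs => Pool.Agent.Helper60.CXT.negB hA hs
      n1 := fun s hs ho => Pool.Agent.Helper60.CXT.neg1 hA hs ho
      n2 := fun s hs ho => Pool.Agent.Helper60.CXT.neg2 hA hs ho
      run0 := fun s hs h4 i hi => (rn s hs).1 h4 i hi
      runF := fun s hs i hi => (rn s hs).2.1 i hi
      runB := fun s hs i hi => (rn s hs).2.2 i hi
      a1t := fun s hs h4 ho => a1t_sound H hR hs (ten s hs).2.2.1 h4 ho
      a1f := fun s hs h4 ho => Pool.Agent.Helper60.CXT.a1f_sound H hA hs (ten s hs).2.2.1 h4 ho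
      a2t := fun s hs h4 ho x hx hK => a2t_sound H hA hR hs (ten s hs).2.2.2.1 h4 ho x hx hK
      a2f := fun s hs h4 ho => Pool.Agent.Helper60.CXT.a2f_sound H hA hs (ten s hs).2.2.2.1 h4 ho
      u1t := fun s hs ho x hx hK =>
        (ut_sound H hA hs (ten s hs).2.2.2.2.2.1 ho x hx).1 hK
      u2t := fun s hs ho x hx hK =>
        (ut_sound H hA hs (ten s hs).2.2.2.2.2.1 ho x hx).2 hK
      uf := fun s hs ho => Pool.Agent.Helper60.CXT.uf_sound H hA hs (ten s hs).2.2.2.2.2.1 ho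
      i1 := fun s hs ho => (Pool.Agent.Helper60.CXT.tI_sound H (ten s hs).2.2.2.2.1 ho).1
      i2 := fun s hs ho => (Pool.Agent.Helper60.CXT.tI_sound H (ten s hs).2.2.2.2.1 ho).2
      rL := fun s hs h3 => (vv s hs).1 h3
      rY := fun s hs h4 => (vv s hs).2.1 h4
      rF := fun s hs => (vv s hs).2.2.1
      st := fun s hs h4 i => (vv s hs).2.2.2 h4 i
      sl0 := fun s hs h4 => (sl s hs).1 h4
      slF := fun s hs h3 => (sl s hs).2.1 h3
      slB := fun s hs => (sl s hs).2.2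
      b0 := fun s hs h4 => (hC s hs).1 h4
      bF := fun s hs => (hC s hs).2.1
      bB := fun s hs => (hC s hs).2.2 }

end

end Pool.Agent.Helper94.CXT
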