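import Pool.Agent.Helper94.CXT.UT9

/-!
Far cells of tail classes, row UUT: SOUNDNESS OF `t2T`.
-/

set_option autoImplicit false
set_option exponentiation.threshold 4000
noncomputable section
namespace Pool.Agent.Helper94.CXT

open Pool.Agent.Helper86.CX renaming Hm → Hm, ev → hev
open Pool.Agent.Helper94.CXF (M9)
open Pool.Agent.Helper94.CXF
open Pool.Agent.Helper94.CXF.SD
open Pool.Agent.Helper94.CXF.SD.UUX
open Pool.Agent.Helper48.CXT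
open Complex ComplexConjugate

theorem p96_eq' : KN.p96 = 2 ^ 96 := by decide +kernel

theorem dvT_2 (b : KT.Bx) : (KU.dvT b).a2 = 2 ^ 96 / b.b2 ∧
    (KU.dvT b).b2 = Bool.rec (motive := fun _ => Nat) (2 ^ 96 / b.a2 + 1) (2 ^ 96 / b.b2)
      (Nat.beq b.a2 b.b2) := by
  rw [← p96_eq']
  exact ⟨rfl, rfl⟩

theorem inv_lo {N : ℕ} {h : ℝ} (hN : 2 ^ 48 ≤ N) (h1 : 1 ≤ h) (hle : 2 ^ 48 * h ≤ N) :
    ((2 ^ 96 / N : ℕ) : ℝ) ≤ 2 ^ 48 * h⁻¹ := by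
  have Np : 0 < N := lt_of_lt_of_le (by positivity) hN
  have d := div_le_real (2 ^ 96) N Np
  have hp : 0 < h := by linarith
  have q0 : (0 : ℝ) ≤ ((2 ^ 96 / N : ℕ) : ℝ) := Nat.cast_nonneg _
  have e : ((2 ^ 96 : ℕ) : ℝ) = 2 ^ 96 := by norm_num
  rw [e] at d
  generalize ((2 ^ 96 / N : ℕ) : ℝ) = q at *
  have h2 := mul_le_mul_of_nonneg_left hle q0
  refine le_of_mul_le_mul_right ?_ (show 0 < 2 ^ 48 * h by positivity)
  have e2 : 2 ^ 48 * h⁻¹ * (2 ^ 48 * h) = 2 ^ 96 := by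
    field_simp
  rw [e2]
  linarith

theorem inv_hi {N : ℕ} {h : ℝ} (hN : 2 ^ 48 ≤ N) (h1 : 1 ≤ h) (hle : (N : ℝ) ≤ 2 ^ 48 * h) :
    2 ^ 48 * h⁻¹ ≤ ((2 ^ 96 / N : ℕ) : ℝ) + 1 := by
  have Np : 0 < N := lt_of_lt_of_le (by positivity) hN
  have d := le_div_real (2 ^ 96) N Np
  have hp : 0 < h := by linarith
  have q0 : (0 : ℝ) ≤ ((2 ^ 96 / N : ℕ) : ℝ) + 1 := by positivity
  have e : ((2 ^ 96 : ℕ) : ℝ) = 2 ^ 96 := by norm_num
  rw [e] at d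
  generalize ((2 ^ 96 / N : ℕ) : ℝ) + 1 = q at *
  have h2 := mul_le_mul_of_nonneg_left hle q0
  refine le_of_mul_le_mul_right ?_ (show 0 < 2 ^ 48 * h by positivity)
  have e2 : 2 ^ 48 * h⁻¹ * (2 ^ 48 * h) = 2 ^ 96 := by
    field_simp
  rw [e2]
  linarith

theorem inv_ap {N : ℕ} {h : ℝ} (hN : 2 ^ 48 ≤ N) (h1 : 1 ≤ h) (hle : |(N : ℝ) - 2 ^ 48 * h| ≤ 1) :
    |((2 ^ 96 / N : ℕ) : ℝ) - 2 ^ 48 * h⁻¹| ≤ 2 := by
  have Np : 0 < N := lt_of_lt_of_le (by positivity) hN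
  have Nr : (2 : ℝ) ^ 48 ≤ N := by exact_mod_cast hN
  have Nr0 : (0 : ℝ) < N := lt_of_lt_of_le (by norm_num) Nr
  have d1 := div_le_real (2 ^ 96) N Np
  have d2 := le_div_real (2 ^ 96) N Np
  have hp : 0 < h := by linarith
  have e : ((2 ^ 96 : ℕ) : ℝ) = 2 ^ 96 := by norm_num
  rw [e] at d1 d2
  generalize ((2 ^ 96 / N : ℕ) : ℝ) = q at *
  have hle1 := (abs_le.1 hle).1
  have hle2 := (abs_le.1 hle).2
  have hi0 : 0 < h⁻¹ := inv_pos.2 hp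
  have hi1 : h⁻¹ ≤ 1 := inv_le_one_of_one_le₀ h1
  have e2 : 2 ^ 48 * h⁻¹ * (2 ^ 48 * h) = 2 ^ 96 := by
    field_simp
  generalize h⁻¹ = w at *
  have w0 : 0 ≤ 2 ^ 48 * w := mul_nonneg (by norm_num) hi0.le
  have a1 := mul_le_mul_of_nonneg_left (show 2 ^ 48 * h ≤ N + 1 by linarith) w0
  have a2 := mul_le_mul_of_nonneg_left (show (N : ℝ) ≤ 2 ^ 48 * h + 1 by linarith) w0
  have a3 : 2 ^ 48 * w ≤ 2 ^ 48 * 1 := mul_le_mul_of_nonneg_left hi1 (by norm_num)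
  rw [abs_le]
  constructor
  · refine le_of_mul_le_mul_right ?_ Nr0
    linarith
  · refine le_of_mul_le_mul_right ?_ Nr0
    linarith

theorem E_eta {b : KT.Bx} {h : ℝ} (hh : Lb b.a2 b.b2 h) :
    ∃ v0 v1 t, Ends 2 (KU.dvT b).a2 (KU.dvT b).b2 h⁻¹ v0 v1 t := by
  obtain ⟨ea, eb⟩ := dvT_2 b
  rw [ea, eb]
  refine ends_of (by norm_num) ?_
  have b2 : 2 ^ 48 ≤ b.b2 := hh.a1.trans hh.ab
  rcases beq_cases b.a2 b.b2 with ⟨hab, hb⟩ | ⟨hab, hb⟩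
  · rw [hb]
    left
    refine ⟨rfl, inv_ap b2 hh.lo ?_⟩
    rw [← hab]
    have h1 := hh.lo'
    have h2 := hh.hi'
    rw [← hab] at h2
    exact abs_le.2 ⟨by linarith, by linarith⟩
  · rw [hb]
    right
    have hp : (b.a2 : ℝ) ≤ 2 ^ 48 * h ∧ 2 ^ 48 * h ≤ b.b2 := by
      rcases hh.iv with ⟨h1, _⟩ | h1
      · exact absurd h1 hab
      · exact h1
    refine ⟨inv_lo b2 hh.lo hp.2, ?_⟩
    have e : (((2 ^ 96 / b.a2 + 1 : ℕ)) : ℝ) = ((2 ^ 96 / b.a2 : ℕ) : ℝ) + 1 := by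
      rw [Nat.cast_add, Nat.cast_one]
    change _ ≤ (((2 ^ 96 / b.a2 + 1 : ℕ)) : ℝ)
    rw [e]
    exact inv_hi hh.a1 hh.lo hp.1

theorem dvT_hi {b : KT.Bx} (h1 : 2 ^ 48 ≤ b.a2) (h2 : b.a2 ≤ b.b2) :
    (KU.dvT b).b2 ≤ 2 ^ 48 + 1 := by
  obtain ⟨_, eb⟩ := dvT_2 b
  rw [eb]
  have e : 2 ^ 96 / 2 ^ 48 = 2 ^ 48 := by norm_num
  have q1 : 2 ^ 96 / b.a2 ≤ 2 ^ 48 := by
    rw [← e]; exact Nat.div_le_div_left h1 (by positivity)
  have q2 : 2 ^ 96 / b.b2 ≤ 2 ^ 48 := by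
    rw [← e]; exact Nat.div_le_div_left (h1.trans h2) (by positivity)
  rcases beq_cases b.a2 b.b2 with ⟨_, hb⟩ | ⟨_, hb⟩
  · rw [hb]; exact q2.trans (Nat.le_succ _)
  · rw [hb]; exact Nat.succ_le_succ q1

theorem dT2_eq (b : KT.Bx) : KU.dT2 b = 1025 + (12 * (b.b2 * ((b.b1 - b.a1) * (b.b1 - b.a1)))) /
    2 ^ 101 := by
  have : KU.dT2 b = 1025 + (12 * (b.b2 * ((b.b1 - b.a1) * (b.b1 - b.a1)))) >>> 101 := rfl
  rw [this, Nat.shiftRight_eq_div_pow]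

theorem dT2_le {b : KT.Bx} (h1 : b.b1 ≤ 2 ^ 49) (h2 : b.b2 ≤ 2 ^ 49) : KU.dT2 b ≤ 2 ^ 54 := by
  rw [dT2_eq]
  have a1 : b.b1 - b.a1 ≤ 2 ^ 49 := (Nat.sub_le _ _).trans h1
  have m := Nat.mul_le_mul_left 12 (Nat.mul_le_mul h2 (Nat.mul_le_mul a1 a1))
  have m2 := Nat.div_le_div_right (c := 2 ^ 101) m
  exact (Nat.add_le_add_left m2 _).trans (by norm_num)

theorem dT2_real {b : KT.Bx} (h1 : 2 ^ 48 ≤ b.a1) (h2 : b.b1 ≤ 2 ^ 49) (h3 : b.a1 ≤ b.b1)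
    {k0 k1 η : ℝ} (e1 : 2 ^ 48 * (k1 - k0) = (b.b1 : ℝ) - b.a1) (hη : 2 ^ 48 * η ≤ b.b2 + 2)
    (η0 : 0 ≤ η) : 768 + 2 ^ 48 * (3 / 8 * (k1 - k0) ^ 2 * η) ≤ KU.dT2 b := by
  have c1 : ((b.b1 - b.a1 : ℕ) : ℝ) = (b.b1 : ℝ) - b.a1 := Nat.cast_sub h3
  have hd := le_div_real (12 * (b.b2 * ((b.b1 - b.a1) * (b.b1 - b.a1)))) (2 ^ 101) (by positivity)
  have ce : ((KU.dT2 b : ℕ) : ℝ) = 1024 +
      ((((12 * (b.b2 * ((b.b1 - b.a1) * (b.b1 - b.a1)))) / 2 ^ 101 : ℕ) : ℝ) + 1) := by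
    rw [dT2_eq, Nat.cast_add]
    norm_num
    ring
  rw [ce]
  generalize ((((12 * (b.b2 * ((b.b1 - b.a1) * (b.b1 - b.a1)))) / 2 ^ 101 : ℕ) : ℝ) + 1) = q at *
  rw [Nat.cast_mul, Nat.cast_mul, Nat.cast_mul, c1, ← e1, Nat.cast_pow] at hd
  have D1 : 2 ^ 48 * (k1 - k0) ≤ 2 ^ 48 := by
    rw [e1]
    have a1 : (2 : ℝ) ^ 48 ≤ b.a1 := by exact_mod_cast h1
    have a2 : (b.b1 : ℝ) ≤ 2 ^ 49 := by exact_mod_cast h2
    have : (2 : ℝ) ^ 49 = 2 ^ 48 + 2 ^ 48 := by norm_num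
    linarith
  have D0 : 0 ≤ 2 ^ 48 * (k1 - k0) := by
    rw [e1]
    have : (b.a1 : ℝ) ≤ b.b1 := by exact_mod_cast h3
    linarith
  have e : (2 : ℝ) ^ 48 * (3 / 8 * (k1 - k0) ^ 2 * η) =
      12 * ((2 ^ 48 * η) * ((2 ^ 48 * (k1 - k0)) * (2 ^ 48 * (k1 - k0)))) / 2 ^ 101 := by ring
  rw [e]
  generalize 2 ^ 48 * (k1 - k0) = D at *
  have DD0 : 0 ≤ D * D := mul_nonneg D0 D0
  have DD : D * D ≤ 2 ^ 48 * 2 ^ 48 := mul_le_mul D1 D1 D0 (by norm_num)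
  have m1 := mul_le_mul_of_nonneg_right hη DD0
  generalize 2 ^ 48 * η = H at *
  have h4 : 12 * (H * (D * D)) / 2 ^ 101 ≤ q + 1 := by
    rw [div_le_iff₀ (by positivity)]
    push_cast at hd
    have : (24 : ℝ) * (2 ^ 48 * 2 ^ 48) ≤ 2 ^ 101 := by norm_num
    linarith
  linarith

/-- the true matrices are close to the interpolated ones -/
theorem T3_near {b : KT.Bx} {k h g k0 k1 η0 η1 g0 g1 t1 t2 t3 : ℝ} (hk : Lb b.a1 b.b1 k)
    (hh : Lb b.a2 b.b2 h) (hg : Lb b.a3 b.b3 g)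
    (h19 : b.a1 = b.b1 ∨ (19 / 10 : ℝ) * 2 ^ 48 ≤ b.a1) (E1 : Ends 1 b.a1 b.b1 k k0 k1 t1)
    (E2 : Ends 2 (KU.dvT b).a2 (KU.dvT b).b2 h⁻¹ η0 η1 t2) (E3' : Ends 1 b.a3 b.b3 g g0 g1 t3)
    {W : Bool → Bool → Bool → Fin 3 → ℂ} {x : Fin 3 → ℂ}
    (hW : ∀ a b c, nr (ap1 (smM (2 ^ 48) (T3 (if a then k1 else k0)
        (if a then k1 else k0)⁻¹ ((if a then k1 else k0) ^ 2 - 1) (if b then η1 else η0)
        (if c then g1 else g0))) x - W a b c) ≤ 768 ^ 2 * nr x) :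
    nr (ap1 (smM (2 ^ 48) (T3 k k⁻¹ (k ^ 2 - 1) h⁻¹ g)) x - ln3 t1 t2 t3 W) ≤
      (KU.dT2 (KU.dvT b) : ℝ) ^ 2 * nr x := by
  have n0 := nr_nonneg x
  have kp : 0 < h := by linarith [hh.lo]
  have η0' : 0 ≤ h⁻¹ := (inv_pos.2 kp).le
  have L := T3_ln3 (k0 := k0) (k1 := k1) (i0 := k0⁻¹) (i1 := k1⁻¹) (c0 := k0 ^ 2 - 1)
    (c1 := k1 ^ 2 - 1) (η0 := η0) (η1 := η1) (g0 := g0) (g1 := g1) t1 t2 t3 x
  rw [← E1.e, ← E2.e, ← E3'.e] at L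
  have Q := T3_err k k⁻¹ ((1 - t1) * k0⁻¹ + t1 * k1⁻¹) (k ^ 2 - 1)
    ((1 - t1) * (k0 ^ 2 - 1) + t1 * (k1 ^ 2 - 1)) h⁻¹ g x
  rw [Q, L]
  have eS : ∀ a b c : Fin 3 → ℂ, a + b - c = (a - c) + b := by
    intro a b c
    abel
  rw [eS, ln3_sub]
  have N1 : nr (ln3 t1 t2 t3 fun a b c => ap1 (smM (2 ^ 48) (T3 (if a then k1 else k0)
        (if a then k1⁻¹ else k0⁻¹) (if a then k1 ^ 2 - 1 else k0 ^ 2 - 1)
        (if b then η1 else η0) (if c then g1 else g0))) x - W a b c) ≤ 768 ^ 2 * nr x := by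
    refine ln3_le E1.I E2.I E3'.I fun a b c => ?_
    have := hW a b c
    cases a
    · simpa using this
    · simpa using this
  have N2 : nr (ap1 (smM (2 ^ 48) (E3 (((1 - t1) * (k0 ^ 2 - 1) + t1 * (k1 ^ 2 - 1)) -
      (k ^ 2 - 1)) (((1 - t1) * k0⁻¹ + t1 * k1⁻¹) - k⁻¹) h⁻¹ g)) x) ≤
      (2 ^ 48 * (3 / 8 * (k1 - k0) ^ 2 * h⁻¹)) ^ 2 * nr x := by
    rcases E1.x with ⟨e0, e1, _⟩ | ⟨e0, e1, hl⟩
    · have z : nr (ap1 (smM (2 ^ 48) (E3 (((1 - t1) * (k0 ^ 2 - 1) + t1 * (k1 ^ 2 - 1)) -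
          (k ^ 2 - 1)) (((1 - t1) * k0⁻¹ + t1 * k1⁻¹) - k⁻¹) h⁻¹ g)) x) = 0 := by
        have z1 : ((1 - t1) * (k0 ^ 2 - 1) + t1 * (k1 ^ 2 - 1)) - (k ^ 2 - 1) = 0 := by
          rw [e0, e1]; ring
        have z2 : ((1 - t1) * k0⁻¹ + t1 * k1⁻¹) - k⁻¹ = 0 := by
          rw [e0, e1]; ring
        rw [z1, z2]
        have : ap1 (smM (2 ^ 48) (E3 0 0 h⁻¹ g)) x = 0 := by
          funext j
          fin_cases j
          · change ap1 _ x 0 = 0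
            rw [ap1_0]; simp [smM, E3]
          · change ap1 _ x 1 = 0
            rw [ap1_1]; simp [smM, E3]
          · change ap1 _ x 2 = 0
            rw [ap1_2]; simp [smM, E3]
        rw [this]
        simp [nr]
      rw [z]
      exact mul_nonneg (sq_nonneg _) n0
    · have ha : (19 / 10 : ℝ) * 2 ^ 48 ≤ b.a1 := by
        rcases h19 with h | h
        · omega
        · exact h
      have hl' : (b.a1 : ℝ) < b.b1 := by exact_mod_cast hl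
      have k0a : 19 / 10 ≤ k0 := by
        refine le_of_mul_le_mul_right ?_ (show (0 : ℝ) < 2 ^ 48 by positivity)
        linarith
      have k1a : 19 / 10 ≤ k1 := by
        refine le_of_mul_le_mul_right ?_ (show (0 : ℝ) < 2 ^ 48 by positivity)
        linarith
      exact E3_nr E1.I E1.e k0a k1a (by linarith [hg.lo]) hg.hi x
  have hη : 2 ^ 48 * h⁻¹ ≤ ((KU.dvT b).b2 : ℝ) + 2 := by
    have h1 := E2.n1
    have h2 := (abs_le.1 h1).1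
    have h3 : h⁻¹ ≤ η1 := by
      have := E2.le
      have := mul_le_mul_of_nonneg_left this (sub_nonneg.2 E2.I.2)
      rw [E2.e]
      linarith
    have := mul_le_mul_of_nonneg_left h3 (show (0 : ℝ) ≤ 2 ^ 48 by positivity)
    linarith
  have dR := dT2_real (b := KU.dvT b) hk.a1 hk.b1 hk.ab E1.d hη η0'
  have S := nr_add_le (by norm_num) (by
    refine mul_nonneg (by norm_num) (mul_nonneg (mul_nonneg (by norm_num) (sq_nonneg _)) η0'))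
    n0 N1 N2
  refine S.trans (mul_le_mul_of_nonneg_right ?_ n0)
  refine pow_le_pow_left₀ ?_ dR 2
  exact add_nonneg (by norm_num) (mul_nonneg (by norm_num)
    (mul_nonneg (mul_nonneg (by norm_num) (sq_nonneg _)) η0'))

theorem nrM_nr {A B : M9 ℝ} (h : NrM 256 A B) (x : Fin 3 → ℂ) :
    nr (ap1 B x - ap1 A x) ≤ 768 ^ 2 * nr x := by
  have e1 : ap1 B x - ap1 A x = ap1 ⟨B.a - A.a, B.b - A.b, B.c - A.c, B.d - A.d, B.e - A.e,
      B.f - A.f, B.g - A.g, B.h - A.h, B.i - A.i⟩ x := by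
    funext j
    fin_cases j
    · change ap1 B x 0 - ap1 A x 0 = ap1 _ x 0
      rw [ap1_0, ap1_0, ap1_0]; push_cast; ring
    · change ap1 B x 1 - ap1 A x 1 = ap1 _ x 1
      rw [ap1_1, ap1_1, ap1_1]; push_cast; ring
    · change ap1 B x 2 - ap1 A x 2 = ap1 _ x 2
      rw [ap1_2, ap1_2, ap1_2]; push_cast; ring
  rw [e1]
  refine (nr_ap1 _ x).trans (mul_le_mul_of_nonneg_right ?_ (nr_nonneg x))
  simp only [GR.sqM]
  have q : ∀ {a b : ℝ}, |a - b| ≤ 256 → (b - a) * (b - a) ≤ 256 * 256 := by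
    intro a b h
    have := sqd h
    have e : (b - a) * (b - a) = (a - b) * (a - b) := by ring
    rw [e]; exact this
  linarith [q h.a, q h.b, q h.c, q h.d, q h.e, q h.f, q h.g, q h.h, q h.i]

theorem ap_TTm (k h g : ℝ) (hk : k ≠ 0) (hh : h ≠ 0) (e : ℂ) (x : Fin 3 → ℂ) :
    ap1 (rM e00z) x + e • ap1 (smM (2 ^ 48) (T3 k k⁻¹ (k ^ 2 - 1) h⁻¹ g)) x =
      ((2 ^ 48 / (k * h) : ℝ) : ℂ) • ap (TTm k h g) e x := by
  have k' : (k : ℂ) ≠ 0 := by exact_mod_cast hk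
  have h' : (h : ℂ) ≠ 0 := by exact_mod_cast hh
  rw [ap_eq]
  funext j
  fin_cases j
  · change ap1 _ x 0 + e * ap1 _ x 0 = ((2 ^ 48 / (k * h) : ℝ) : ℂ) * (ap1 _ x 0 + e * ap1 _ x 0)
    simp only [ap1_0, rM, GR.mpM, cI_apply, e00z, smM, T3, TTm]
    push_cast
    field_simp
    ring
  · change ap1 _ x 1 + e * ap1 _ x 1 = ((2 ^ 48 / (k * h) : ℝ) : ℂ) * (ap1 _ x 1 + e * ap1 _ x 1)
    simp only [ap1_1, rM, GR.mpM, cI_apply, e00z, smM, T3, TTm]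
    push_cast
    field_simp
    ring
  · change ap1 _ x 2 + e * ap1 _ x 2 = ((2 ^ 48 / (k * h) : ℝ) : ℂ) * (ap1 _ x 2 + e * ap1 _ x 2)
    simp only [ap1_2, rM, GR.mpM, cI_apply, e00z, smM, T3, TTm]
    push_cast
    field_simp
    ring

/-- ROW UUT, second half -/
theorem t2T_sound {xc x0 s : ℝ} {u : ℂ} {X : KT.Cx} (hX : CxOk xc X) (hI : InX xc X x0 s u)
    {A B K : ℕ} {b : KT.Bx} {t : KU.L2T} {k h g : ℝ} (hk : Lb b.a1 b.b1 k)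
    (hh : Lb b.a2 b.b2 h) (hg : Lb b.a3 b.b3 g)
    (h19 : b.a1 = b.b1 ∨ (19 / 10 : ℝ) * 2 ^ 48 ≤ b.a1) (oA : OkA (decz A)) (oB : OkB (decz B))
    (hn : NegS (rH (decz A))) (hL : KT.okL A B = true)
    (H : KU.t2T X A B (KT.srcN K) b t = true) (x : Fin 3 → ℂ) (hx : x 0 ≠ 0)
    (hs : 0 ≤ hev (rH (decz K)) x) :
    0 ≤ hev (lpf A B s) (ap (TTm k h g) (s * u) x) ∧ ap (TTm k h g) (s * u) x 0 ≠ 0 := by
  have s0 := hI.cv.s0
  have s8 := hI.cv.s1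
  have k0 : 0 < k := by linarith [hk.lo]
  have h0 : 0 < h := by linarith [hh.lo]
  obtain ⟨hla, hka, hfr⟩ := okL_sound hL
  obtain ⟨fr, la⟩ := hfr s s0 s8
  unfold KU.t2T at H
  simp only [andB_iff] at H
  obtain ⟨tb, hdif, hcor⟩ := H
  have ht := bn7_sound tb
  have hx' : x ≠ 0 := fun h0 => hx (by rw [h0]; rfl)
  have n0 := nr_pos hx'
  -- the parameters
  obtain ⟨ka, kb, t1, E1⟩ := ends_of (r := 1) zero_le_one hk.iv
  obtain ⟨ga, gb, t3, E3'⟩ := ends_of (r := 1) zero_le_one hg.iv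
  obtain ⟨ηa, ηb, t2, E2⟩ := E_eta hh
  obtain ⟨ka1, kb1⟩ := E1.lo hk.lo (by rw [one_mul]; exact_mod_cast hk.a1)
  have apK := E1.ap (by linarith) hk.hi (by
    have : (b.b1 : ℝ) ≤ 2 ^ 49 := by exact_mod_cast hk.b1
    refine this.trans ?_
    norm_num)
  have apG := E3'.ap (by linarith [hg.lo]) hg.hi (by
    have : (b.b3 : ℝ) ≤ 2 ^ 49 := by exact_mod_cast hg.b1
    refine this.trans ?_
    norm_num)
  have b2le := dvT_hi hh.a1 hh.ab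
  have ηp : 0 < h⁻¹ := inv_pos.2 h0
  have η1 : h⁻¹ ≤ 2 := (inv_le_one_of_one_le₀ hh.lo).trans (by norm_num)
  have apE := E2.ap ηp.le η1 (by
    have : ((KU.dvT b).b2 : ℝ) ≤ 2 ^ 48 + 1 := by exact_mod_cast b2le
    refine this.trans ?_
    norm_num)
  have dle : KU.dT2 (KU.dvT b) ≤ 2 ^ 54 := dT2_le hk.b1 (b2le.trans (by norm_num))
  -- the corners
  have ex : ∀ c1 c2 c3 : Bool, ∃ Z, OkT (T3 (if c1 then kb else ka) (if c1 then kb else ka)⁻¹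
      ((if c1 then kb else ka) ^ 2 - 1) (if c2 then ηb else ηa) (if c3 then gb else ga))
      (KU.FT (sl b.a1 b.b1 c1) (sl (KU.dvT b).a2 (KU.dvT b).b2 c2) (sl b.a3 b.b3 c3)).2 Z := by
    intro c1 c2 c3
    have k1c : 1 ≤ (if c1 then kb else ka) := by
      cases c1
      · exact ka1
      · exact kb1
    have kN1 : 2 ^ 48 ≤ sl b.a1 b.b1 c1 := by
      cases c1
      · exact hk.a1
      · exact hk.a1.trans hk.ab
    exact ok_T3 (apK c1) (apE c2) (apG c3) k1c kN1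
  choose Z hZ using ex
  have CT : ∀ c1 c2 c3 : Bool, CorT A B (decz K) (KT.lam A) (KT.lam B) (KU.dT2 (KU.dvT b)) t e00z
      (Z c1 c2 c3) s u := by
    intro c1 c2 c3
    obtain ⟨i, hi⟩ := cor_sound hcor c1 c2 c3
    exact corner_t hX hI (srcN_rep K) (dec_bd K) (e00_rep _ _ _) (hZ c1 c2 c3).rep e00_bd
      (hZ c1 c2 c3).bd ht hla hka dle hi
  set e : ℂ := (s : ℂ) * u with he
  have ne8 : ‖e‖ ≤ 1 / 8 := by
    rw [he, norm_mul, Complex.norm_real, Real.norm_eq_abs, abs_of_nonneg s0, hI.cv.norm, mul_one]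
    exact s8
  have nes : ‖e‖ = s := by
    rw [he, norm_mul, Complex.norm_real, Real.norm_eq_abs, abs_of_nonneg s0, hI.cv.norm, mul_one]
  have ns : normSq e = s ^ 2 := by rw [normSq_eq_norm_sq, nes]
  have hz0 : hev (rH (decz A)) (ap1 (rM e00z) x) = 0 := by
    have h1 : ap1 (rM e00z) x 1 = 0 := by
      rw [ap1_1]; simp [rM, GR.mpM, e00z, cI_apply]
    have h2 : ap1 (rM e00z) x 2 = 0 := by
      rw [ap1_2]; simp [rM, GR.mpM, e00z, cI_apply]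
    simp only [hev, rH, GR.mpH, oA.a, h1, h2, map_zero]
    simp
  -- differences
  unfold KU.dif2 at hdif
  simp only [andB_iff] at hdif
  obtain ⟨hd1, hd2, hd3⟩ := hdif
  have D1 : ∀ j k, nr (ap1 (rM (Z true j k)) x - ap1 (rM (Z false j k)) x) ≤
      (t.d1 : ℝ) ^ 2 * nr x := by
    intro j k
    obtain ⟨_, q1⟩ := lev_sound hd1 j
    obtain ⟨_, q2⟩ := lev_sound q1 k
    exact f2_sound (hZ true j k).rep (hZ false j k).rep (hZ true j k).bd (hZ false j k).bd q2 x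
  have D2 : ∀ i k, nr (ap1 (rM (Z i true k)) x - ap1 (rM (Z i false k)) x) ≤
      (t.d2 : ℝ) ^ 2 * nr x := by
    intro i k
    obtain ⟨_, q1⟩ := lev_sound hd2 i
    obtain ⟨_, q2⟩ := lev_sound q1 k
    exact f2_sound (hZ i true k).rep (hZ i false k).rep (hZ i true k).bd (hZ i false k).bd q2 x
  have D3 : ∀ i j, nr (ap1 (rM (Z i j true)) x - ap1 (rM (Z i j false)) x) ≤
      (t.d3 : ℝ) ^ 2 * nr x := by
    intro i j
    obtain ⟨_, q1⟩ := lev_sound hd3 i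
    obtain ⟨_, q2⟩ := lev_sound q1 j
    exact f2_sound (hZ i j true).rep (hZ i j false).rep (hZ i j true).bd (hZ i j false).bd q2 x
  -- interpolation
  have G := G_tri (K := lpf A B s) (m := s * (PTr (KT.lam A) (KT.lam B) (KU.dT2 (KU.dvT b)) t s /
      2 ^ 62 * nr x)) E1.I E2.I E3'.I (Nat.cast_nonneg (KT.lam A)) la (c := ap1 (rM e00z) x)
    (e := e) ns (W := fun i j k => ap1 (rM (Z i j k)) x) D1 D2 D3 (by
      intro i j k
      have v := (CT i j k).v x hs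
      rw [VZ_eq hI.cv x hz0]
      refine mul_le_mul_of_nonneg_left ?_ s0
      rw [div_mul_eq_mul_div, div_le_iff₀ (by positivity)]
      linarith)
  have Y : nr (ap1 (rM e00z) x + e • ln3 t1 t2 t3 fun i j k => ap1 (rM (Z i j k)) x) ≤
      (t.y : ℝ) ^ 2 * nr x := by
    rw [ln3_aff]
    exact ln3_le E1.I E2.I E3'.I fun i j k => f9_nr (CT i j k).y ne8 x
  have Nn := T3_near hk hh hg h19 E1 E2 E3' (W := fun i j k => ap1 (rM (Z i j k)) x) (x := x)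
    fun i j k => nrM_nr (hZ i j k).near x
  have P := hev_pert (e := e) fr (Nat.cast_nonneg _) (Nat.cast_nonneg _) (Nat.cast_nonneg _)
    n0.le nes Y Nn
  have eW : (ap1 (rM e00z) x + e • ln3 t1 t2 t3 fun i j k => ap1 (rM (Z i j k)) x) +
      e • (ap1 (smM (2 ^ 48) (T3 k k⁻¹ (k ^ 2 - 1) h⁻¹ g)) x -
        ln3 t1 t2 t3 fun i j k => ap1 (rM (Z i j k)) x) =
      ((2 ^ 48 / (k * h) : ℝ) : ℂ) • ap (TTm k h g) e x := by
    rw [← ap_TTm k h g k0.ne' h0.ne']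
    funext j
    simp only [Pi.add_apply, Pi.smul_apply, Pi.sub_apply, smul_eq_mul]
    ring
  rw [eW, ev_smul, Complex.norm_real, Real.norm_eq_abs, sq_abs] at P
  have main : s * (2 ^ 96 * nr x) ≤ (2 ^ 48 / (k * h)) ^ 2 * hev (lpf A B s)
      (ap (TTm k h g) e x) := by
    refine le_trans ?_ P
    refine le_trans ?_ (sub_le_sub_right G _)
    unfold PTr
    generalize ((KU.dT2 (KU.dvT b) : ℕ) : ℝ) = d at *
    have y0 : (0 : ℝ) ≤ t.y := Nat.cast_nonneg _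
    have ka0 : (0 : ℝ) ≤ KT.lam B := Nat.cast_nonneg _
    have key : s ^ 2 * ((KT.lam B : ℝ) * d ^ 2 * nr x) ≤ s * ((KT.lam B : ℝ) * d ^ 2 * nr x) := by
      refine mul_le_mul_of_nonneg_right ?_ (mul_nonneg (mul_nonneg ka0 (sq_nonneg d)) n0.le)
      nlinarith
    have e1 : s * ((2 ^ 60 * (s * (KT.lam A : ℝ) * ((t.d1 : ℝ) ^ 2 + (t.d2 : ℝ) ^ 2 +
        (t.d3 : ℝ) ^ 2)) + 2 ^ 62 * ((KT.lam B : ℝ) * d * (2 * t.y + d)) + 2 ^ 158) / 2 ^ 62 *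
        nr x) - s ^ 2 * (KT.lam A : ℝ) * ((t.d1 : ℝ) ^ 2 * nr x + (t.d2 : ℝ) ^ 2 * nr x +
          (t.d3 : ℝ) ^ 2 * nr x) / 4 -
        (KT.lam B : ℝ) * (2 * s * t.y * d + s ^ 2 * d ^ 2) * nr x =
        s * (2 ^ 96 * nr x) + (s * ((KT.lam B : ℝ) * d ^ 2 * nr x) -
          s ^ 2 * ((KT.lam B : ℝ) * d ^ 2 * nr x)) := by
      ring
    rw [e1]
    linarith
  have cpos : 0 < (2 ^ 48 / (k * h)) ^ 2 := by positivity
  rcases s0.lt_or_eq with sp | sp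
  · have pos : 0 < hev (lpf A B s) (ap (TTm k h g) e x) := by
      have h1 : 0 < s * (2 ^ 96 * nr x) := by positivity
      exact (pos_iff_pos_of_mul_pos (lt_of_lt_of_le h1 main)).1 cpos
    exact ⟨pos.le, (NegS_lpf hn oB).ne0 pos⟩
  · refine ⟨?_, ?_⟩
    · rw [← sp, zero_mul] at main
      by_contra hlt
      have := mul_neg_of_pos_of_neg cpos (not_le.1 hlt)
      rw [← sp] at this
      linarith
    · have e0 : e = 0 := by rw [he, ← sp]; simp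
      rw [e0, ap_eq, zero_smul, add_zero, ap1_0]
      simp only [TTm]
      push_cast
      simp only [zero_mul, add_zero]
      exact mul_ne_zero (mul_ne_zero (by exact_mod_cast k0.ne') (by exact_mod_cast h0.ne')) hx

end Pool.Agent.Helper94.CXT
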