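import Pool.Agent.Helper60.CXT.FR3
import Pool.Agent.Helper6.CXT.LA
import Pool.Agent.Helper6.CXT.BX5
import Pool.Agent.Helper94.CXT.UT10
import Pool.Agent.Helper94.CXF.S13

/-!
Far cells of tail classes, FIN: the fields `a1t`, `a2t`, `u1t`, `u2t` of `FF`.
-/

set_option autoImplicit false
set_option exponentiation.threshold 4000
noncomputable section
namespace Pool.Agent.Helper94.CXT

open Pool.Agent.Helper6.MONO hiding fP
open Pool.Agent.Helper21.SUP (GS DG DG_nx)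
open Pool.Agent.Helper21.SUP renaming nx → nxs
open Pool.Agent.Helper86.CX renaming Hm → Hm, ev → hev
open Pool.Agent.Helper39.SLT (ML ML_nx)
open Pool.Agent.Helper94.CXF (M9)
open Pool.Agent.Helper94.CXF hiding cmb
open Pool.Agent.Helper94.CXF.SD
open Pool.Agent.Helper48.CXT
open Pool.Agent.Helper48.CXT.KC (okI bLo bHi sbx setR SDT PT nthD nthT pX cHT)
open Pool.Agent.Helper60.CXT (Cls Hyp LbO LbS xcT SDTs K0T KFN KFT KBT P1T P2T AllN NegT l4S ntS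
  tS_un)

section
variable {p q r P Q R : ℕ} {b : KT.Bx} {Pc : PT} {x0 σ : ℝ} {u : ℂ}

/-! ### parameters of a box -/

theorem kk12 (C : Cls p q r P Q R b) {i j : Fin 3} (h : i ≠ j) :
    1 ≤ kk P Q R i j ∧ kk P Q R i j ≤ 2 := by
  have m := (C.st h).s.m3
  exact ⟨Kp_ge1 m, (Kp_lt2 _ m).le⟩

/-- the labels of a sub-box of the box of a state -/
structure Lb3 (P Q R : ℕ) (s : GS) (v : KT.Bx) : Prop where
  k : Lb v.a1 v.b1 (kk P Q R s.1 s.2.1)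
  h : Lb v.a2 v.b2 (kk P Q R s.2.1 s.2.2)
  g : Lb v.a3 v.b3 (kk P Q R s.1 s.2.2)
  t : v.a1 = v.b1 ∨ (19 / 10 : ℝ) * 2 ^ 48 ≤ v.a1

theorem lb3_of (C : Cls p q r P Q R b) {s : GS} (hs : DG s) {v : KT.Bx} {ρ : ℝ}
    (g : Got v (sbx b s.1 s.2.1 s.2.2) (kk P Q R s.1 s.2.1) (kk P Q R s.2.1 s.2.2)
      (kk P Q R s.1 s.2.2) ρ) : Lb3 P Q R s v := by
  have rg := (C.rg hs).sub g.sub
  have k := kk12 C hs.1
  have h := kk12 C hs.2.1
  have g' := kk12 C (Ne.symm hs.2.2)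
  refine ⟨⟨g.inb.v1, k.1, k.2, rg.a1, rg.b1, rg.c1⟩, ⟨g.inb.v2, h.1, h.2, rg.a2, rg.b2, rg.c2⟩,
    ⟨g.inb.v3, g'.1, g'.2, rg.a3, rg.b3, rg.c3⟩, ?_⟩
  have S := (C.st hs.1).s
  have s1 := g.sub.a1
  have s2 := g.sub.b1
  have s3 := g.sub.c1
  change KN.nth (bLo b) (KN.ix s.1 s.2.1) ≤ v.a1 at s1
  change v.b1 ≤ KN.nth (bHi b) (KN.ix s.1 s.2.1) at s2
  by_cases hl : mm p q r s.1 s.2.1 = 0
  · right
    obtain ⟨_, h19, _, _⟩ := S.tl hl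
    refine h19.trans ?_
    exact_mod_cast s1
  · left
    have ok := (C.st hs.1).ok
    have e : KN.nth (bLo b) (KN.ix s.1 s.2.1) = KN.nth (bHi b) (KN.ix s.1 s.2.1) := by
      unfold okI at ok
      have hb : Nat.beq (mm p q r s.1 s.2.1) 0 = false := by
        cases hq : Nat.beq (mm p q r s.1 s.2.1) 0 with
        | false => rfl
        | true => exact absurd (Nat.eq_of_beq_eq_true hq) hl
      rw [hb] at ok
      have ok' : KN.andB (KN.andB (Nat.ble 3 (mm p q r s.1 s.2.1)) (Nat.ble (mm p q r s.1 s.2.1) 9))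
        (KN.andB (Nat.beq (KN.nth (bLo b) (KN.ix s.1 s.2.1)) (KN.nth KN.tk (mm p q r s.1 s.2.1)))
          (Nat.beq (KN.nth (bHi b) (KN.ix s.1 s.2.1)) (KN.nth KN.tk (mm p q r s.1 s.2.1)))) =
            true := ok
      simp only [andB_iff] at ok'
      rw [Nat.eq_of_beq_eq_true ok'.2.1, Nat.eq_of_beq_eq_true ok'.2.2]
    rw [e] at s1
    omega

/-! ### the forms of the loops -/

/-- the raw checks -/
theorem okL_of {L4 nt o : Bool} {D : SDT} (h : KC.tN L4 nt o D = true) (ho : o = true) :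
    KT.okL D.A1 D.B1 = true ∧ KT.okL D.A2 D.B2 = true := by
  unfold KC.tN at h
  simp only [andB_iff, impB_iff] at h
  exact (h.2.2.2 ho).2

def AllR (p q r : ℕ) (Pc : PT) : Prop :=
  ∀ s, DG s → KC.tN (l4S p q r s) (ntS p q r s) (oriZ s) (SDTs Pc s) = true

theorem allR_of (h : ∀ s, DG s → KC.cST p q r b Pc s.1 s.2.1 s.2.2 = true) : AllR p q r Pc := by
  intro s hs
  have h1 := tS_un hs (h s hs)
  unfold KC.tS2 at h1
  rw [andB_iff] at h1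
  exact h1.1

theorem a1t_sound (H : Hyp p q r P Q R b Pc x0 σ u) (hR : AllR p q r Pc) {s : GS} (hs : DG s)
    (h : KC.tA1 (pX Pc) (l4S p q r s) (oriZ s) (SDTs Pc s) (SDTs Pc (nxs s 2))
      (sbx b s.1 s.2.1 s.2.2) = true) (h4 : 4 ≤ ML P Q R s) (ho : oriZ s = true) :
    Imp (K0T Pc s) (P1T Pc σ (nxs s 2)) (ap (TNs P Q R s) (σ * u)) := by
  unfold KC.tA1 at h
  have h := impB_iff.1 h (H.cl.l4 hs h4)
  rw [selB_iff, if_pos ho] at h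
  rw [TNs, if_pos ho]
  have rg := H.cl.rg hs
  obtain ⟨v, l, hl, g⟩ := trev_sound _ h rg.or (H.cl.inb hs)
  have hs2 := DG_nx s 2 hs
  have ok := okL_of (hR _ hs2) (by rw [ori2 hs, ho])
  exact Pool.Agent.Helper6.CXT.leafA_sound H.cx H.ix (Pool.Agent.Helper48.CXT.okL_sound ok.1)
    (rg.sub g.sub) g.inb hl

theorem a2t_sound (H : Hyp p q r P Q R b Pc x0 σ u) (hA : AllN p q r Pc) (hR : AllR p q r Pc)
    {s : GS} (hs : DG s)
    (h : KC.tA2 (pX Pc) (l4S p q r s) (oriZ s) (SDTs Pc s) (SDTs Pc (nxs (nxs s 2) 2))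
      (sbx b s.1 s.2.1 s.2.2) = true) (h4 : 4 ≤ ML P Q R s) (ho : oriZ s = true)
    (x : Fin 3 → ℂ) (hx : x 0 ≠ 0) (hK : 0 ≤ hev (K0T Pc s) x) :
    0 ≤ hev (P2T Pc σ (nxs (nxs s 2) 2)) (ap (TTs P Q R s) (σ * u) x) ∧
      ap (TTs P Q R s) (σ * u) x 0 ≠ 0 := by
  unfold KC.tA2 at h
  have h := impB_iff.1 h (H.cl.l4 hs h4)
  rw [selB_iff, if_pos ho] at h
  rw [TTs, if_pos ho]
  have rg := H.cl.rg hs
  obtain ⟨v, l, hl, g⟩ := trev_sound _ h rg.or (H.cl.inb hs)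
  have hs2 := DG_nx _ 2 (DG_nx s 2 hs)
  have ho2 : oriZ (nxs (nxs s 2) 2) = true := by
    rw [ori2 (DG_nx s 2 hs), ori2 hs, ho]
  have ok := okL_of (hR _ hs2) ho2
  have N := hA _ hs2
  have L := lb3_of H.cl hs g
  exact t2T_sound H.cx H.ix L.k L.h L.g L.t (N.a2 ho2) (N.b2 ho2) (N.A2 ho2) ok.2 hl x hx hK

theorem ut_sound (H : Hyp p q r P Q R b Pc x0 σ u) (hA : AllN p q r Pc) {s : GS} (hs : DG s)
    (h : KC.tU (pX Pc) (oriZ s) (SDTs Pc s) (SDTs Pc (nxs (nxs s 2) 2))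
      (sbx b s.1 s.2.1 s.2.2) = true) (ho : oriZ s = true) (x : Fin 3 → ℂ) (hx : x 0 ≠ 0) :
    (0 ≤ hev (P1T Pc σ s) x → 0 ≤ hev (P1T Pc σ (nxs (nxs s 2) 2)) (ap (TUs P Q R s) (σ * u) x) ∧
      ap (TUs P Q R s) (σ * u) x 0 ≠ 0) ∧
    (0 ≤ hev (P2T Pc σ s) x → 0 ≤ hev (P2T Pc σ (nxs (nxs s 2) 2)) (ap (TUs P Q R s) (σ * u) x) ∧
      ap (TUs P Q R s) (σ * u) x 0 ≠ 0) := by
  unfold KC.tU at h
  rw [selB_iff, if_pos ho] at h
  simp only [andB_iff] at h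
  obtain ⟨⟨e1, e2⟩, h1, h2⟩ := h
  rw [TUs, if_pos ho]
  have rg := H.cl.rg hs
  have hs2 := DG_nx _ 2 (DG_nx s 2 hs)
  have ho2 : oriZ (nxs (nxs s 2) 2) = true := by
    rw [ori2 (DG_nx s 2 hs), ori2 hs, ho]
  have N2 := hA _ hs2
  have N := hA _ hs
  obtain ⟨d1, d1'⟩ := eqo_sound e1
  obtain ⟨d2, d2'⟩ := eqo_sound e2
  constructor
  · intro hK
    obtain ⟨v, l, hl, g⟩ := trev_sound _ h1 rg.or (H.cl.inb hs)
    have L := lb3_of H.cl hs g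
    rw [P1T, hev_lpf] at hK ⊢
    exact uuT_sound H.cx H.ix L.k L.h L.g (N2.a1 ho2) (N.a1 ho) (N2.b1 ho2) d1.symm d1'.symm
      (N2.A1 ho2) hl x hx hK
  · intro hK
    obtain ⟨v, l, hl, g⟩ := trev_sound _ h2 rg.or (H.cl.inb hs)
    have L := lb3_of H.cl hs g
    rw [P2T, hev_lpf] at hK ⊢
    exact uuT_sound H.cx H.ix L.k L.h L.g (N2.a2 ho2) (N.a2 ho) (N2.b2 ho2) d2.symm d2'.symm
      (N2.A2 ho2) hl x hx hK

/-! ### the bounds -/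

def BdT (p q r P Q R : ℕ) (Pc : PT) (C : ℝ) : Prop :=
  ∀ s, DG s → (4 ≤ ML P Q R s → ∀ x, 0 ≤ hev (K0T Pc s) x → ∀ j, ‖x j‖ ≤ C * ‖x 0‖) ∧
    (∀ x, 0 ≤ hev (KFT p q r Pc s) x → ∀ j, ‖x j‖ ≤ C * ‖x 0‖) ∧
    (∀ x, 0 ≤ hev (KBT Pc s) x → ∀ j, ‖x j‖ ≤ C * ‖x 0‖)

theorem BdT.mono {C C' : ℝ} (h : BdT p q r P Q R Pc C) (hC : C ≤ C') : BdT p q r P Q R Pc C' :=
  fun s hs => ⟨fun h4 x hx j => ((h s hs).1 h4 x hx j).trans
    (mul_le_mul_of_nonneg_right hC (norm_nonneg _)),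
    fun x hx j => ((h s hs).2.1 x hx j).trans (mul_le_mul_of_nonneg_right hC (norm_nonneg _)),
    fun x hx j => ((h s hs).2.2 x hx j).trans (mul_le_mul_of_nonneg_right hC (norm_nonneg _))⟩

theorem BdT_ex (C0 : Cls p q r P Q R b) (hA : AllN p q r Pc) :
    ∃ C : ℝ, 0 ≤ C ∧ BdT p q r P Q R Pc C := by
  have one : ∀ s : GS, ∃ C : ℝ, 0 ≤ C ∧ (DG s →
      (4 ≤ ML P Q R s → ∀ x, 0 ≤ hev (K0T Pc s) x → ∀ j, ‖x j‖ ≤ C * ‖x 0‖) ∧
      (∀ x, 0 ≤ hev (KFT p q r Pc s) x → ∀ j, ‖x j‖ ≤ C * ‖x 0‖) ∧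
      (∀ x, 0 ≤ hev (KBT Pc s) x → ∀ j, ‖x j‖ ≤ C * ‖x 0‖)) := by
    intro s
    by_cases hs : DG s
    · obtain ⟨C2, c2, h2⟩ := NegS_bd (Pool.Agent.Helper60.CXT.negF hA hs)
      obtain ⟨C3, c3, h3⟩ := NegS_bd (Pool.Agent.Helper60.CXT.negB hA hs)
      obtain ⟨C1, c1, h1⟩ : ∃ C : ℝ, 0 ≤ C ∧
          (4 ≤ ML P Q R s → ∀ x, 0 ≤ hev (K0T Pc s) x → ∀ j, ‖x j‖ ≤ C * ‖x 0‖) := by
        by_cases h4 : 4 ≤ ML P Q R s
        · obtain ⟨C1, c1, h1⟩ := NegS_bd (Pool.Agent.Helper60.CXT.neg0 C0 hA hs h4)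
          exact ⟨C1, c1, fun _ => h1⟩
        · exact ⟨0, le_rfl, fun h => absurd h h4⟩
      refine ⟨C1 + C2 + C3, by positivity, fun _ => ⟨fun h4 x hx j => ?_, fun x hx j => ?_,
        fun x hx j => ?_⟩⟩
      · exact (h1 h4 x hx j).trans (mul_le_mul_of_nonneg_right (by linarith) (norm_nonneg _))
      · exact (h2 x hx j).trans (mul_le_mul_of_nonneg_right (by linarith) (norm_nonneg _))
      · exact (h3 x hx j).trans (mul_le_mul_of_nonneg_right (by linarith) (norm_nonneg _))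
    · exact ⟨0, le_rfl, fun h => absurd h hs⟩
  choose f hf0 hf using one
  refine ⟨∑ s : GS, f s, Finset.sum_nonneg fun s _ => hf0 s, fun s hs => ?_⟩
  have hle : f s ≤ ∑ s : GS, f s :=
    Finset.single_le_sum (fun s _ => hf0 s) (Finset.mem_univ s)
  obtain ⟨a, b, c⟩ := hf s hs
  exact ⟨fun h4 x hx j => (a h4 x hx j).trans (mul_le_mul_of_nonneg_right hle (norm_nonneg _)),
    fun x hx j => (b x hx j).trans (mul_le_mul_of_nonneg_right hle (norm_nonneg _)),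
    fun x hx j => (c x hx j).trans (mul_le_mul_of_nonneg_right hle (norm_nonneg _))⟩

theorem BdT_all (l : List PT) (h : ∀ Pc ∈ l, ∃ C : ℝ, 0 ≤ C ∧ BdT p q r P Q R Pc C) :
    ∃ C : ℝ, 0 ≤ C ∧ ∀ Pc ∈ l, BdT p q r P Q R Pc C := by
  induction l with
  | nil => exact ⟨0, le_rfl, fun P hP => absurd hP List.not_mem_nil⟩
  | cons Pc l ih =>
    obtain ⟨C1, c1, h1⟩ := h Pc List.mem_cons_self
    obtain ⟨C2, c2, h2⟩ := ih fun Q hQ => h Q (List.mem_cons_of_mem _ hQ)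
    refine ⟨C1 + C2, by positivity, fun Q hQ => ?_⟩
    rcases List.mem_cons.1 hQ with rfl | hQ
    · exact h1.mono (by linarith)
    · exact (h2 Q hQ).mono (by linarith)

end

end Pool.Agent.Helper94.CXT
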