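import Pool.Agent.Helper48.CXT.KT

/-!
Far cells of tail classes: kernel functions of the two special tests of the orientation `-` on boxes:
`t2T` two runs of two from `Y` (target: the loop forms), `uuT` two runs of two from `L` (loop forms to
loop forms). Units as in `KT`.
-/

set_option autoImplicit false
noncomputable section
namespace Pool.Agent.Helper94.CXT.KU

open Pool.Agent.Helper86.CX (Hm)
open Pool.Agent.Helper94.CXF (M9)
open Pool.Agent.Helper94.CXF.KN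
open Pool.Agent.Helper48.CXT.KT

/-! ### radius of `x0` (unit `2 ^ (-16)`): changes of `u`, `s² u` for `s ≤ i / 2048` -/

def dXU (xr i : Nat) : Nat := Nat.mul (Nat.mul xr i) (nat_lit 35734127903)
def dXG (xr i : Nat) : Nat := Nat.mul (Nat.mul xr (Nat.mul i (Nat.mul i i))) (nat_lit 8520)

/-! ### two runs of two, orientation `-`, from `Y` -/

/-- `(k, 1 / h, g)`; an exact label stays exact -/
def dvT (b : Bx) : Bx :=
  ⟨b.a1, b.b1, Nat.div p96 b.b2,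
    Bool.rec (motive := fun _ => Nat) (Nat.succ (Nat.div p96 b.a2)) (Nat.div p96 b.b2)
      (Nat.beq b.a2 b.b2), b.a3, b.b3, b.r0, b.r1⟩
/-- `T / (k h)`; `k`, `e = 1 / h`, `g` -/
def FT (k e g : Nat) : MP :=
  (⟨u1N, nat_lit 0, nat_lit 0, nat_lit 0, nat_lit 0, nat_lit 0, nat_lit 0, nat_lit 0, nat_lit 0⟩,
    ⟨mu (mu k g) e, mu (su (mu k k)) e, nm (mu k e), Nat.div (Nat.mul e g) k, e,
      nm (Nat.div (Nat.mul e u1N) k), nm (mu (mu k g) e), nm (mu (su (mu k k)) e), mu k e⟩)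

/-- `nu`, `ne`, `m` norms of the products, `y` norm of the matrices, `d1`, `d2`, `d3` norms of the
differences of the second matrix; chords as in `Lf` -/
structure L2T where
  nu : Nat
  ne : Nat
  m : Nat
  y : Nat
  d1 : Nat
  d2 : Nat
  d3 : Nat
  c : List Nat

/-- `|T| ≤ d` -/
def f2 (T : M9 Nat) (d : Nat) : Bool := Nat.ble (Nat.mod (sq9 T) MM) (Nat.mul d d)
def dif2 (b : Bx) (t : L2T) (F : Nat → Nat → Nat → MP) : Bool :=
  andB (lev b.a2 b.b2 (fun v2 _ => lev b.a3 b.b3 (fun v3 _ =>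
      f2 (sbM (F b.b1 v2 v3).2 (F b.a1 v2 v3).2) t.d1) (nat_lit 0)) (nat_lit 0))
    (andB (lev b.a1 b.b1 (fun v1 _ => lev b.a3 b.b3 (fun v3 _ =>
      f2 (sbM (F v1 b.b2 v3).2 (F v1 b.a2 v3).2) t.d2) (nat_lit 0)) (nat_lit 0))
    (lev b.a1 b.b1 (fun v1 _ => lev b.a2 b.b2 (fun v2 _ =>
      f2 (sbM (F v1 v2 b.b3).2 (F v1 v2 b.a3).2) t.d3) (nat_lit 0)) (nat_lit 0)))
/-- distance between the second matrix and the interpolated one -/
def dT2 (b : Bx) : Nat :=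
  Nat.add (nat_lit 1025) (Nat.shiftRight (Nat.mul (nat_lit 12) (Nat.mul b.b2
    (Nat.mul (Nat.sub b.b1 b.a1) (Nat.sub b.b1 b.a1)))) (nat_lit 101))
/-- `2 ^ 49` -/
def o49 : Nat := nat_lit 562949953421312
/-- `s λ (d1² + d2² + d3²) / 4 + κ d (2 y + d)`, `s = i / 2048`, unit `2 ^ (-178)` -/
def pT (la ka d i : Nat) (t : L2T) : Nat :=
  Nat.add (Nat.add (Nat.mul o49 (Nat.mul (Nat.mul la i) (Nat.add (Nat.mul t.d1 t.d1)
      (Nat.add (Nat.mul t.d2 t.d2) (Nat.mul t.d3 t.d3)))))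
    (Nat.mul o62 (Nat.mul ka (Nat.mul d (Nat.add (Nat.add t.y t.y) d))))) p158
/-- the slack of a chord -/
def s7 (X : Cx) (la ka d : Nat) (t : L2T) (k0 k1 : Nd) : Nat :=
  Nat.add (Nat.add (Nat.mul (Nat.add (dU X.x (Nat.sub k1.i k0.i)) (dXU X.xr k1.i)) t.nu)
      (Nat.mul (Nat.add (dE X.x (Nat.sub k1.i k0.i)) (dX X.xr k1.i)) t.ne))
    (Nat.add (Nat.mul (dS (Nat.sub k1.i k0.i)) t.m) (pT la ka d k1.i t))
/-- `V + mu K` with `d` on the diagonal -/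
def vK (mu d : Nat) (V K : Hm Nat) : Hm Nat :=
  ⟨Nat.add (Nat.add V.a (Nat.mul mu K.a)) d, Nat.add (Nat.add V.b (Nat.mul mu K.b)) d,
    Nat.add (Nat.add V.c (Nat.mul mu K.c)) d, Nat.add V.d (Nat.mul mu K.d),
    Nat.add V.e (Nat.mul mu K.e), Nat.add V.f (Nat.mul mu K.f), Nat.add V.g (Nat.mul mu K.g),
    Nat.add V.h (Nat.mul mu K.h), Nat.add V.i (Nat.mul mu K.i)⟩
/-- one corner -/
def cn7 (X : Cx) (la ka d : Nat) (t : L2T) (KN P1 S0 S1 A0 B0 A1 B1 : Hm Nat) (i : Nat) : Bool :=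
  chs X.ns (fun k0 k1 l => andB (Nat.ble (Nat.succ k0.i) k1.i)
    (andB (psd (vK (ml l (Nat.mul (nat_lit 2) i)) (ng (s7 X la ka d t k0 k1))
        (vr k0 P1 S0 S1 A0 B0 A1 B1) KN))
      (psd (vK (ml l (Nat.succ (Nat.mul (nat_lit 2) i))) (ng (s7 X la ka d t k0 k1))
        (vr k1 P1 S0 S1 A0 B0 A1 B1) KN)))) X.e t.c X.k
def c72 (X : Cx) (la ka d : Nat) (t : L2T) (KN : Hm Nat) (i : Nat)
    (R0 J0 R1 J1 S0r S0i S1r S1i P1r P1i : M9 Nat) : Bool :=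
  andB (nq R0 J0 t.nu) (andB (nq R1 J1 t.ne) (andB (np S1r S1i t.m)
    (cn7 X la ka d t KN (hm P1r P1i) (hm S0r S0i) (hm S1r S1i) (cA R0 J0) (cB R0 J0) (cA R1 J1)
      (cB R1 J1) i)))
def c71 (X : Cx) (la ka d : Nat) (t : L2T) (KA KB KN : Hm Nat) (T : MP) (i : Nat) : Bool :=
  andB (f9 T t.y) (c72 X la ka d t KN i (qr KA T.1 T.2) (qi KA T.1 T.2) (qr KB T.1 T.2)
    (qi KB T.1 T.2) (qr KA T.2 T.2) (qi KA T.2 T.2) (qr KB T.2 T.2) (qi KB T.2 T.2)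
    (qr KB T.1 T.1) (qi KB T.1 T.1))
def bn7 (t : L2T) : Bool :=
  andB (andB (Nat.ble t.nu big) (andB (Nat.ble t.ne big) (andB (Nat.ble t.m big) (Nat.ble t.y o60))))
    (andB (Nat.ble t.d1 o60) (andB (Nat.ble t.d2 o60) (Nat.ble t.d3 o60)))
/-- target `A + s B` (packed, upper bits as in `okL`), source `KN`, box of `(k, h, g)` -/
def t2T (X : Cx) (A B : Nat) (KN : Hm Nat) (b : Bx) (t : L2T) : Bool :=
  andB (bn7 t) (andB (dif2 (dvT b) t FT)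
    (cor (dvT b) (fun k e g i => c71 X (lam A) (lam B) (dT2 (dvT b)) t (dec A) (dec B) KN
      (FT k e g) i)))

/-! ### two runs of two, orientation `-`, from `L` -/

/-- `(k², g² - 1, 1 / (k h g))`; exact labels `k`, `g` stay exact -/
def dvV (b : Bx) : Bx :=
  ⟨mu b.a1 b.a1, Bool.rec (motive := fun _ => Nat) (Nat.succ (mu b.b1 b.b1)) (mu b.a1 b.a1)
      (Nat.beq b.a1 b.b1),
    su (mu b.a3 b.a3), Bool.rec (motive := fun _ => Nat) (Nat.succ (su (mu b.b3 b.b3)))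
      (su (mu b.a3 b.a3)) (Nat.beq b.a3 b.b3),
    Nat.div p192 (Nat.mul (Nat.succ b.b1) (Nat.mul (Nat.succ b.b2) (Nat.succ b.b3))),
    Nat.succ (Nat.div p192 (Nat.mul (Nat.pred b.a1) (Nat.mul (Nat.pred b.a2) (Nat.pred b.a3)))),
    b.r0, b.r1⟩

/-- norms as in `LU`; `l`, `v` are bounds (unit `2 ^ (-20)`) of the target form at `(k², 1, -k²)`
and at `(1, 0, -1)` -/
structure LUT where
  nu : Nat
  ne : Nat
  m : Nat
  be : Nat
  bg : Nat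
  b0 : Nat
  b1 : Nat
  l : Nat
  v : Nat
  c : List Nat

/-- the form at `(1, 0, -1)` -/
def v1 (K : Hm Nat) : Nat := Nat.add (Nat.add K.a K.c) (Nat.mul NN (Nat.add K.f K.f))
/-- the form at `(a, 1, -a)`, `a` in units `2 ^ (-48)`, times `2 ^ 96` -/
def v2 (K : Hm Nat) (a : Nat) : Nat :=
  Nat.add (Nat.mul (Nat.mul a a) (v1 K)) (Nat.add (Nat.mul p96 K.b)
    (Nat.mul (Nat.mul o49 a) (sb K.d K.h)))
/-- `2 ^ 107` -/
def p107 : Nat := nat_lit 162259276829213363391578010288128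
/-- the target form at `(1, 0, -1)` is at most `v` -/
def k1U (i v : Nat) (KA KB : Hm Nat) : Bool :=
  pos (Nat.add (Nat.succ (Nat.mul (nat_lit 2048) v)) (Nat.mul NN
    (Nat.add (Nat.mul (nat_lit 2048) (v1 KA)) (Nat.mul i (v1 KB)))))
/-- the target form at `(a, 1, -a)` is at most `l` -/
def k2U (i l a : Nat) (KA KB : Hm Nat) : Bool :=
  pos (Nat.add (Nat.mul p107 l) (Nat.mul NN (Nat.add (Nat.mul (nat_lit 2048) (v2 KA a))
    (Nat.mul i (v2 KB a)))))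
/-- curvature in the second and third parameter, coefficient of `s²`, unit `2 ^ (-178)` -/
def cuL (l : Nat) (b : Bx) : Nat :=
  Nat.succ (Nat.shiftRight (Nat.mul (Nat.succ l) (Nat.add
    (Nat.mul (Nat.mul (Nat.sub b.b2 b.a2) (Nat.sub b.b2 b.a2)) (Nat.mul b.b3 b.b3))
    (Nat.mul (Nat.mul (Nat.sub b.b3 b.a3) (Nat.sub b.b3 b.a3)) (Nat.add p96 (Nat.mul b.b2 b.b2)))))
    (nat_lit 36))
/-- curvature in the first parameter, coefficient of `s²` -/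
def cuV (v : Nat) (b : Bx) : Nat :=
  Nat.succ (Nat.shiftRight (Nat.mul v (Nat.mul (Nat.mul (Nat.sub b.b1 b.a1) (Nat.sub b.b1 b.a1))
    (Nat.mul (Nat.mul b.b3 b.b3) (Nat.add p96 (Nat.mul b.b2 b.b2))))) (nat_lit 131))
def cuU (l v : Nat) (b : Bx) : Nat := Nat.add (cuL l b) (cuV v b)
/-- `2 ^ 61` -/
def o61 : Nat := nat_lit 2305843009213693952
/-- curvature in the first parameter, block part -/
def cbU (v : Nat) (b : Bx) : Nat :=
  Nat.mul o61 (Nat.mul v (Nat.mul (Nat.sub b.b1 b.a1) (Nat.sub b.b1 b.a1)))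
/-- slack of the row part (times `w = k1.i`) and of the block part (times `2048`) -/
def sFT (X : Cx) (t : LUT) (cu d w : Nat) : Nat :=
  Nat.mul w (Nat.add (slr X.x d t.nu t.ne t.m) (Nat.add (Nat.mul (dXU X.xr w) t.nu)
    (Nat.add (Nat.mul (dX X.xr w) t.ne) (Nat.succ (Nat.shiftRight (Nat.mul cu w) (nat_lit 11))))))
def sDT (X : Cx) (t : LUT) (cb d w : Nat) : Nat :=
  Nat.mul (nat_lit 2048) (Nat.add (Nat.add (Nat.add (Nat.mul (dE X.x d) t.be) (Nat.mul (dG X.x d) t.bg))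
    (Nat.add (Nat.add (Nat.mul (dS d) t.b0) (Nat.mul (dC d) t.b1)) p160))
    (Nat.add (Nat.add (Nat.mul (dX X.xr w) t.be) (Nat.mul (dXG X.xr w) t.bg)) cb))
def c8T (X : Cx) (t : LUT) (cu cb : Nat) (D0 D1 A0 B0 A1 B1 S0 S1 : Hm Nat) (k0 k1 : Nd)
    (_l : Nat) : Bool :=
  andB (Nat.ble (Nat.succ k0.i) k1.i)
  (andB (psd (vU k1.i (ng (sFT X t cu (Nat.sub k1.i k0.i) k1.i))
      (ng (Nat.add (sFT X t cu (Nat.sub k1.i k0.i) k1.i) (sDT X t cb (Nat.sub k1.i k0.i) k1.i))) k0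
      D0 D1 A0 B0 A1 B1 S0 S1))
    (psd (vU k1.i (ng (sFT X t cu (Nat.sub k1.i k0.i) k1.i))
      (ng (Nat.add (sFT X t cu (Nat.sub k1.i k0.i) k1.i) (sDT X t cb (Nat.sub k1.i k0.i) k1.i))) k1
      D0 D1 A0 B0 A1 B1 S0 S1)))
def cU2 (X : Cx) (t : LUT) (cu cb pp : Nat) (HA HB : Hm Nat)
    (P0r P0i P1r P1i R0 J0 R1 J1 S0r S0i S1r S1i : M9 Nat) : Bool :=
  andB (nqR R0 J0 t.nu) (andB (nqR R1 J1 t.ne) (andB (npR S1r S1i t.m)
  (andB (nqB R0 J0 t.be) (andB (nqB R1 J1 t.bg) (andB (npB S0r S0i t.b0) (andB (npB S1r S1i t.b1)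
    (chs X.ns (c8T X t cu cb (adH (hm P0r P0i) (smH pp HA)) (adH (hm P1r P1i) (smH pp HB))
      (cA R0 J0) (cB R0 J0) (cA R1 J1) (cB R1 J1) (hm S0r S0i) (hm S1r S1i)) X.e t.c X.k)))))))
/-- one corner -/
def cU1 (X : Cx) (t : LUT) (cu cb : Nat) (KA KB HA HB : Hm Nat) (T : MP) : Bool :=
  cU2 X t cu cb (ng (Nat.mul T.1.a T.1.a)) HA HB (qr KA T.1 T.1) (qi KA T.1 T.1) (qr KB T.1 T.1)
    (qi KB T.1 T.1) (qr KA T.1 T.2) (qi KA T.1 T.2) (qr KB T.1 T.2) (qi KB T.1 T.2)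
    (qr KA T.2 T.2) (qi KA T.2 T.2) (qr KB T.2 T.2) (qi KB T.2 T.2)
def bn8 (t : LUT) : Bool :=
  andB (Nat.ble t.nu big) (andB (Nat.ble t.ne big) (andB (Nat.ble t.m big)
  (andB (Nat.ble t.be big) (andB (Nat.ble t.bg big) (andB (Nat.ble t.b0 big) (andB (Nat.ble t.b1 big)
    (andB (Nat.ble t.l o28) (Nat.ble t.v o28))))))))
def uU1 (X : Cx) (KA KB HA HB : Hm Nat) (b : Bx) (t : LUT) : Bool :=
  andB (andB (bn8 t) (andB (k1U X.k.i t.v KA KB) (k1U X.e t.v KA KB)))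
    (andB (lev b.a1 b.b1 (fun a _ => andB (k2U X.k.i t.l a KA KB) (k2U X.e t.l a KA KB)) (nat_lit 0))
      (cor b (fun a c q _ => cU1 X t (cuU t.l t.v b) (cbU t.v b) KA KB HA HB (FU a c q))))
/-- target `A + s B`, source `HA + s HB` (packed), box of `(k, h, g)` -/
def uuT (X : Cx) (A B HA HB : Nat) (b : Bx) (t : LUT) : Bool :=
  uU1 X (dec A) (dec B) (dec HA) (dec HB) (dvV b) t

def l27 : L2T := ⟨nat_lit 0, nat_lit 0, nat_lit 0, nat_lit 0, nat_lit 0, nat_lit 0, nat_lit 0, []⟩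
def l28 : LUT := ⟨nat_lit 0, nat_lit 0, nat_lit 0, nat_lit 0, nat_lit 0, nat_lit 0, nat_lit 0,
  nat_lit 0, nat_lit 0, []⟩

end Pool.Agent.Helper94.CXT.KU
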