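import Pool.Agent.Helper94.CXT.UT0
import Pool.Agent.Helper94.CXT.KU
import Pool.Agent.Helper6.CXF.UUS
import Pool.Agent.Helper48.CXT.TS

/-!
Far cells of tail classes, row UUT: one corner of the test `uuT`.
-/

set_option autoImplicit false
set_option exponentiation.threshold 4000
noncomputable section
namespace Pool.Agent.Helper94.CXT

open Pool.Agent.Helper86.CX renaming Hm → Hm, ev → hev
open Pool.Agent.Helper94.CXF (M9)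
open Pool.Agent.Helper94.CXF
open Pool.Agent.Helper94.CXF.SD
open Pool.Agent.Helper94.CXF.SD.UUX
open Pool.Agent.Helper48.CXT
open Complex ComplexConjugate

theorem dX_eq (xr i : ℕ) : KT.dX xr i = xr * (i * i) * 17448305 := rfl
theorem dXU_eq (xr i : ℕ) : KU.dXU xr i = xr * i * 35734127903 := rfl
theorem dXG_eq (xr i : ℕ) : KU.dXG xr i = xr * (i * (i * i)) * 8520 := rfl

/-- the changes of `u`, `s u`, `s² u` -/
theorem rho_le {s d : ℝ} {xr w : ℕ} (s0 : 0 ≤ s) (hs : s ≤ (w : ℝ) / 2048)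
    (hd : d ≤ (xr : ℝ) / 2 ^ 16) (d0 : 0 ≤ d) :
    2 ^ 62 * (104 / 100 * s * d) ≤ (KU.dXU xr w : ℝ) ∧
      2 ^ 62 * (s * (104 / 100 * s * d)) ≤ (KT.dX xr w : ℝ) ∧
      2 ^ 62 * (s * s * (104 / 100 * s * d)) ≤ (KU.dXG xr w : ℝ) := by
  have w0 : (0 : ℝ) ≤ w := Nat.cast_nonneg _
  have x0 : (0 : ℝ) ≤ xr := Nat.cast_nonneg _
  have W : (0 : ℝ) ≤ (w : ℝ) / 2048 := by positivity
  have k1 : s * d ≤ (w : ℝ) / 2048 * (xr / 2 ^ 16) := mul_le_mul hs hd d0 W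
  have k2 : s * s ≤ (w : ℝ) / 2048 * (w / 2048) := mul_le_mul hs hs s0 W
  have p1 : 0 ≤ s * d := mul_nonneg s0 d0
  have k3 : s * (s * d) ≤ (w : ℝ) / 2048 * (w / 2048 * (xr / 2 ^ 16)) :=
    mul_le_mul hs k1 p1 W
  have k4 : s * (s * (s * d)) ≤ (w : ℝ) / 2048 * (w / 2048 * (w / 2048 * (xr / 2 ^ 16))) :=
    mul_le_mul hs k3 (mul_nonneg s0 p1) W
  rw [dXU_eq, dX_eq, dXG_eq]
  push_cast
  refine ⟨?_, ?_, ?_⟩
  · have e : (w : ℝ) / 2048 * (xr / 2 ^ 16) * (2 ^ 62 * (104 / 100)) =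
        xr * w * (2 ^ 35 * (104 / 100)) := by ring
    have h1 := mul_le_mul_of_nonneg_right k1 (show (0 : ℝ) ≤ 2 ^ 62 * (104 / 100) by positivity)
    rw [e] at h1
    have h2 : (xr : ℝ) * w * (2 ^ 35 * (104 / 100)) ≤ xr * w * 35734127903 :=
      mul_le_mul_of_nonneg_left (by norm_num) (by positivity)
    linarith
  · have e : (w : ℝ) / 2048 * (w / 2048 * (xr / 2 ^ 16)) * (2 ^ 62 * (104 / 100)) =
        xr * (w * w) * (2 ^ 24 * (104 / 100)) := by ring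
    have h1 := mul_le_mul_of_nonneg_right k3 (show (0 : ℝ) ≤ 2 ^ 62 * (104 / 100) by positivity)
    rw [e] at h1
    have h2 : (xr : ℝ) * (w * w) * (2 ^ 24 * (104 / 100)) ≤ xr * (w * w) * 17448305 :=
      mul_le_mul_of_nonneg_left (by norm_num) (by positivity)
    linarith
  · have e : (w : ℝ) / 2048 * (w / 2048 * (w / 2048 * (xr / 2 ^ 16))) * (2 ^ 62 * (104 / 100)) =
        xr * (w * (w * w)) * (2 ^ 13 * (104 / 100)) := by ring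
    have h1 := mul_le_mul_of_nonneg_right k4 (show (0 : ℝ) ≤ 2 ^ 62 * (104 / 100) by positivity)
    rw [e] at h1
    have h2 : (xr : ℝ) * (w * (w * w)) * (2 ^ 13 * (104 / 100)) ≤ xr * (w * (w * w)) * 8520 :=
      mul_le_mul_of_nonneg_left (by norm_num) (by positivity)
    linarith

theorem dX_le {xr i : ℕ} (hx : xr ≤ 2 ^ 17) (hi : i ≤ 256) : KT.dX xr i ≤ 2 ^ 58 := by
  rw [dX_eq]
  have h1 : i * i ≤ 256 * 256 := Nat.mul_le_mul hi hi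
  have h2 := Nat.mul_le_mul_right 17448305 (Nat.mul_le_mul hx h1)
  exact h2.trans (by norm_num)
theorem dXU_le {xr i : ℕ} (hx : xr ≤ 2 ^ 17) (hi : i ≤ 256) : KU.dXU xr i ≤ 2 ^ 61 := by
  rw [dXU_eq]
  have h2 := Nat.mul_le_mul_right 35734127903 (Nat.mul_le_mul hx hi)
  exact h2.trans (by norm_num)
theorem dXG_le {xr i : ℕ} (hx : xr ≤ 2 ^ 17) (hi : i ≤ 256) : KU.dXG xr i ≤ 2 ^ 58 := by
  rw [dXG_eq]
  have h1 : i * (i * i) ≤ 256 * (256 * 256) := Nat.mul_le_mul hi (Nat.mul_le_mul hi hi)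
  have h2 := Nat.mul_le_mul_right 8520 (Nat.mul_le_mul hx h1)
  exact h2.trans (by norm_num)

theorem sFT_eq (X : KT.Cx) (t : KU.LUT) (cu d w : ℕ) : KU.sFT X t cu d w =
    w * (KN.slr X.x d t.nu t.ne t.m + (KU.dXU X.xr w * t.nu + (KT.dX X.xr w * t.ne +
      ((cu * w) >>> 11 + 1)))) := rfl

theorem sDT_eq (X : KT.Cx) (t : KU.LUT) (cb d w : ℕ) : KU.sDT X t cb d w =
    2048 * (((KN.dE X.x d * t.be + KN.dG X.x d * t.bg) +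
      (KN.dS d * t.b0 + KN.dC d * t.b1 + 2 ^ 160)) +
      (KT.dX X.xr w * t.be + KU.dXG X.xr w * t.bg + cb)) := by
  rw [← p160_eq]; rfl

theorem sFT_le {X : KT.Cx} {t : KU.LUT} {cu d w : ℕ} (hx : X.x ≤ 2 ^ 17) (hr : X.xr ≤ 2 ^ 17)
    (hd : d ≤ 256) (hw : w ≤ 256) (hu : t.nu ≤ 2 ^ 145) (he : t.ne ≤ 2 ^ 145)
    (hm : t.m ≤ 2 ^ 145) (hc : cu ≤ 2 ^ 208) : KU.sFT X t cu d w ≤ 2 ^ 220 := by
  rw [sFT_eq]
  have a1 := slr_le hx hd hu he hm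
  have a2 := Nat.mul_le_mul (dXU_le hr hw) hu
  have a3 := Nat.mul_le_mul (dX_le hr hw) he
  have a4 : (cu * w) >>> 11 + 1 ≤ 2 ^ 209 := by
    rw [Nat.shiftRight_eq_div_pow]
    have h1 : cu * w ≤ 2 ^ 208 * 256 := Nat.mul_le_mul hc hw
    have h2 : cu * w / 2 ^ 11 ≤ 2 ^ 208 * 256 / 2 ^ 11 := Nat.div_le_div_right h1
    have h3 : 2 ^ 208 * 256 / 2 ^ 11 + 1 ≤ 2 ^ 209 := by norm_num
    omega
  have b2 : (2 : ℕ) ^ 61 * 2 ^ 145 = 2 ^ 206 := by norm_num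
  have b3 : (2 : ℕ) ^ 58 * 2 ^ 145 = 2 ^ 203 := by norm_num
  rw [b2] at a2
  rw [b3] at a3
  have a5 : KN.slr X.x d t.nu t.ne t.m + (KU.dXU X.xr w * t.nu + (KT.dX X.xr w * t.ne +
      ((cu * w) >>> 11 + 1))) ≤ 2 ^ 205 + (2 ^ 206 + (2 ^ 203 + 2 ^ 209)) :=
    Nat.add_le_add a1 (Nat.add_le_add a2 (Nat.add_le_add a3 a4))
  have a6 := Nat.mul_le_mul hw a5
  exact a6.trans (by norm_num)

theorem sDT_le {X : KT.Cx} {t : KU.LUT} {cb d w : ℕ} (hx : X.x ≤ 2 ^ 17) (hr : X.xr ≤ 2 ^ 17)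
    (hd : d ≤ 256) (hw : w ≤ 256) (he : t.be ≤ 2 ^ 145) (hg : t.bg ≤ 2 ^ 145)
    (h0 : t.b0 ≤ 2 ^ 145) (h1 : t.b1 ≤ 2 ^ 145) (hc : cb ≤ 2 ^ 200) :
    KU.sDT X t cb d w ≤ 2 ^ 220 := by
  rw [sDT_eq]
  have a1 := Nat.mul_le_mul (dE_le hx hd) he
  have a2 := Nat.mul_le_mul (dG_le hx hd) hg
  have a3 := Nat.mul_le_mul ((dS_le hd).trans (show 2 ^ 54 ≤ 2 ^ 57 by norm_num)) h0
  have a4 := Nat.mul_le_mul (dC_le hd) h1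
  have a5 := Nat.mul_le_mul (dX_le hr hw) he
  have a6 := Nat.mul_le_mul (dXG_le hr hw) hg
  have b1 : (2 : ℕ) ^ 57 * 2 ^ 145 = 2 ^ 202 := by norm_num
  have b2 : (2 : ℕ) ^ 58 * 2 ^ 145 = 2 ^ 203 := by norm_num
  rw [b1] at a1 a2 a3 a4
  rw [b2] at a5 a6
  have a7 : ((KN.dE X.x d * t.be + KN.dG X.x d * t.bg) +
      (KN.dS d * t.b0 + KN.dC d * t.b1 + 2 ^ 160)) +
      (KT.dX X.xr w * t.be + KU.dXG X.xr w * t.bg + cb) ≤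
      ((2 ^ 202 + 2 ^ 202) + (2 ^ 202 + 2 ^ 202 + 2 ^ 160)) + (2 ^ 203 + 2 ^ 203 + 2 ^ 200) :=
    Nat.add_le_add (Nat.add_le_add (Nat.add_le_add a1 a2)
      (Nat.add_le_add (Nat.add_le_add a3 a4) le_rfl)) (Nat.add_le_add (Nat.add_le_add a5 a6) hc)
  exact (Nat.mul_le_mul_left 2048 a7).trans (by norm_num)

section
variable {xc x0 : ℝ} {X : KT.Cx} {k0 k1 : KN.Nd} {u0 u1 u : ℂ} {s : ℝ}
  {KA KB HA HB : Hm ℕ} {KAz KBz HAz HBz : Hm ℤ} {T0 T1 : M9 ℝ} {N0 N1 : M9 ℕ} {Z0 Z1 : M9 ℤ}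

/-- ONE CHORD, integer matrices -/
theorem c8T_int (hKA : RH KA KAz) (hKB : RH KB KBz) (hHA : RH HA HAz) (hHB : RH HB HBz)
    (D : UD KAz KBz HAz HBz T0 T1 N0 N1 Z0 Z1) (hx : |xc| ≤ (X.x : ℝ) / 2 ^ 16)
    (hx2 : X.x ≤ 2 ^ 17) (hr2 : X.xr ≤ 2 ^ 17)
    {t : KU.LUT} {cu cb : ℕ} (hcu : cu ≤ 2 ^ 208) (hcb : cb ≤ 2 ^ 200)
    (tnu : t.nu ≤ 2 ^ 145) (tne : t.ne ≤ 2 ^ 145) (tm : t.m ≤ 2 ^ 145)
    (tbe : t.be ≤ 2 ^ 145) (tbg : t.bg ≤ 2 ^ 145) (tb0 : t.b0 ≤ 2 ^ 145) (tb1 : t.b1 ≤ 2 ^ 145)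
    (q1 : KN.nqR (KN.qr KA N0 N1) (KN.qi KA N0 N1) t.nu = true)
    (q2 : KN.nqR (KN.qr KB N0 N1) (KN.qi KB N0 N1) t.ne = true)
    (q3 : KN.npR (KN.qr KB N1 N1) (KN.qi KB N1 N1) t.m = true)
    (q4 : KN.nqB (KN.qr KA N0 N1) (KN.qi KA N0 N1) t.be = true)
    (q5 : KN.nqB (KN.qr KB N0 N1) (KN.qi KB N0 N1) t.bg = true)
    (q6 : KN.npB (KN.qr KA N1 N1) (KN.qi KA N1 N1) t.b0 = true)
    (q7 : KN.npB (KN.qr KB N1 N1) (KN.qi KB N1 N1) t.b1 = true)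
    (h0 : NdR xc k0 u0) (h1 : NdR xc k1 u1) {l : ℕ}
    (hc : KU.c8T X t cu cb
      (KN.adH (KN.hm (KN.qr KA N0 N0) (KN.qi KA N0 N0)) (KN.smH (KN.ng (Nat.mul N0.a N0.a)) HA))
      (KN.adH (KN.hm (KN.qr KB N0 N0) (KN.qi KB N0 N0)) (KN.smH (KN.ng (Nat.mul N0.a N0.a)) HB))
      (KN.cA (KN.qr KA N0 N1) (KN.qi KA N0 N1)) (KN.cB (KN.qr KA N0 N1) (KN.qi KA N0 N1))
      (KN.cA (KN.qr KB N0 N1) (KN.qi KB N0 N1)) (KN.cB (KN.qr KB N0 N1) (KN.qi KB N0 N1))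
      (KN.hm (KN.qr KA N1 N1) (KN.qi KA N1 N1)) (KN.hm (KN.qr KB N1 N1) (KN.qi KB N1 N1))
      k0 k1 l = true)
    (hu : Cv x0 s u) (hx0 : |x0| ≤ 2) (hd : |x0 - xc| ≤ (X.xr : ℝ) / 2 ^ 16)
    (s0 : (k0.i : ℝ) / 2048 ≤ s) (s1 : s ≤ (k1.i : ℝ) / 2048) (y : Fin 3 → ℂ) :
    (k1.i : ℝ) * ((2 ^ 98 + s * cu / 2 ^ 62) * nr y) +
        2048 * ((2 ^ 98 + cb / 2 ^ 62) * nr (bkv y)) ≤
        k1.i * VRz KAz KBz HBz Z0 Z1 s u y + 2048 * VBz KAz KBz HAz HBz Z0 Z1 s u (bkv y) ∧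
      (2 ^ 98 + cb / 2 ^ 62) * nr (bkv y) ≤ VBz KAz KBz HAz HBz Z0 Z1 s u (bkv y) := by
  unfold KU.c8T at hc
  simp only [andB_iff] at hc
  obtain ⟨hi, p0, p1⟩ := hc
  have hi : k0.i + 1 ≤ k1.i := Nat.le_of_ble_eq_true hi
  have o0 := D.o0
  have o1 := D.o1
  have bi : k1.i ≤ 256 := by
    have := h1.cv.s1
    have : (k1.i : ℝ) ≤ 256 := by linarith
    exact_mod_cast this
  have bd : k1.i - k0.i ≤ 256 := by omega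
  have Fle := sFT_le (w := k1.i) (t := t) hx2 hr2 bd bi tnu tne tm hcu
  have Gle := sDT_le (t := t) hx2 hr2 bd bi tbe tbg tb0 tb1 hcb
  have n00 := node8 hKA hKB hHA hHB D h0 bi Fle Gle p0
  have n01 := node8 hKA hKB hHA hHB D h1 bi Fle Gle p1
  -- norms
  have qA := (qr_bd D.bA o0.bd o1.bd).mono (b := 2 ^ 200) (by norm_num)
  have jA := (qi_bd D.bA o0.bd o1.bd).mono (b := 2 ^ 200) (by norm_num)
  have qB := (qr_bd D.bB o0.bd o1.bd).mono (b := 2 ^ 200) (by norm_num)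
  have jB := (qi_bd D.bB o0.bd o1.bd).mono (b := 2 ^ 200) (by norm_num)
  have qA11 := (qr_bd D.bA o1.bd o1.bd).mono (b := 2 ^ 200) (by norm_num)
  have jA11 := (qi_bd D.bA o1.bd o1.bd).mono (b := 2 ^ 200) (by norm_num)
  have qB11 := (qr_bd D.bB o1.bd o1.bd).mono (b := 2 ^ 200) (by norm_num)
  have jB11 := (qi_bd D.bB o1.bd o1.bd).mono (b := 2 ^ 200) (by norm_num)
  have RA := qr_rep hKA o0.rep o1.rep
  have JA := qi_rep hKA o0.rep o1.rep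
  have RB := qr_rep hKB o0.rep o1.rep
  have JB := qi_rep hKB o0.rep o1.rep
  have RA1 := qr_rep hKA o1.rep o1.rep
  have JA1 := qi_rep hKA o1.rep o1.rep
  have RB1 := qr_rep hKB o1.rep o1.rep
  have JB1 := qi_rep hKB o1.rep o1.rep
  have w1 := bd_rw4 (nqR_sound RA JA qA jA q1) y
  have w2 := bd_rw4 (nqR_sound RB JB qB jB q2) y
  have w3 := bd_rw (npR_sound RB1 JB1 qB11 jB11 q3) y
  have w4 := bd_bk4 (nqB_sound RA JA qA jA q4) y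
  have w5 := bd_bk4 (nqB_sound RB JB qB jB q5) y
  have w6 := bd_bk (npB_sound RA1 JA1 qA11 jA11 q6) y
  have w7 := bd_bk (npB_sound RB1 JB1 qB11 jB11 q7) y
  rw [rM_qr, rM_qi] at w1 w2 w3 w4 w5 w6 w7
  -- the chord
  have hi' : (k0.i : ℝ) / 2048 < (k1.i : ℝ) / 2048 := by
    have : (k0.i : ℝ) + 1 ≤ k1.i := by exact_mod_cast hi
    linarith
  have hxc : |xc| ≤ 2 := by
    refine hx.trans ?_
    rw [div_le_iff₀ (by positivity)]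
    have : (X.x : ℝ) ≤ 2 ^ 17 := by exact_mod_cast hx2
    linarith
  obtain ⟨v, hv, huv⟩ := cv_near hu hx0 hxc
  have sn := hu.s0
  obtain ⟨ρ1, ρ2, ρ3⟩ := rho_le (w := k1.i) sn s1 hd (abs_nonneg _)
  obtain ⟨τ, t0, t1, hs⟩ := exists_t s0 s1 hi'
  have CR := chordV (c3 := 0) (qg := 0) (ng := 0) (m3 := 0) (m2 := t.m * nr y)
    (c1 := ((QZ KBz Z0 Z0 y).re - (QZ KBz Z0 Z0 (bkv y)).re) +
          pz Z0 * (hev (rH HBz) y - hev (rH HBz) (bkv y)))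
    (cs := (QZ KAz Z1 Z1 y).re - (QZ KAz Z1 Z1 (bkv y)).re)
    (c2 := (QZ KBz Z1 Z1 y).re - (QZ KBz Z1 Z1 (bkv y)).re)
    (qu := QZ KAz Z0 Z1 y - QZ KAz Z0 Z1 (bkv y)) (qe := QZ KBz Z0 Z1 y - QZ KBz Z0 Z1 (bkv y))
    h0 h1 hv hx hx2 t0 t1 hs (by omega) w1 w2 (by simp)
    (by rw [← sub_re]; exact (abs_re_le_norm _).trans w3) (by simp)
  have CB := chordV (qu := 0) (nu := 0) (m2 := t.b0 * nr (bkv y)) (m3 := t.b1 * nr (bkv y))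
    (c1 := (QZ KAz Z0 Z0 (bkv y)).re + pz Z0 * hev (rH HAz) (bkv y))
    (cs := (QZ KBz Z0 Z0 (bkv y)).re + pz Z0 * hev (rH HBz) (bkv y))
    (c2 := (QZ KAz Z1 Z1 (bkv y)).re) (c3 := (QZ KBz Z1 Z1 (bkv y)).re)
    (qe := QZ KAz Z0 Z1 (bkv y)) (qg := QZ KBz Z0 Z1 (bkv y))
    h0 h1 hv hx hx2 t0 t1 hs (by omega) (by simp) w4 w5
    ((abs_re_le_norm _).trans w6) ((abs_re_le_norm _).trans w7)
  have SR := Vv_shift hu huv (c3 := 0) (qg := 0) (ng := 0)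
    (c1 := ((QZ KBz Z0 Z0 y).re - (QZ KBz Z0 Z0 (bkv y)).re) +
          pz Z0 * (hev (rH HBz) y - hev (rH HBz) (bkv y)))
    (cs := (QZ KAz Z1 Z1 y).re - (QZ KAz Z1 Z1 (bkv y)).re)
    (c2 := (QZ KBz Z1 Z1 y).re - (QZ KBz Z1 Z1 (bkv y)).re)
    (qu := QZ KAz Z0 Z1 y - QZ KAz Z0 Z1 (bkv y)) (qe := QZ KBz Z0 Z1 y - QZ KBz Z0 Z1 (bkv y))
    w1 w2 (by simp)
  have SB := Vv_shift hu huv (qu := 0) (nu := 0)
    (c1 := (QZ KAz Z0 Z0 (bkv y)).re + pz Z0 * hev (rH HAz) (bkv y))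
    (cs := (QZ KBz Z0 Z0 (bkv y)).re + pz Z0 * hev (rH HBz) (bkv y))
    (c2 := (QZ KAz Z1 Z1 (bkv y)).re) (c3 := (QZ KBz Z1 Z1 (bkv y)).re)
    (qe := QZ KAz Z0 Z1 (bkv y)) (qg := QZ KBz Z0 Z1 (bkv y)) (by simp) w4 w5
  have a0 := n00 y
  have a1 := n01 y
  have b0 := n00 (bkv y)
  have b1 := n01 (bkv y)
  simp only [bkv_bkv, sub_self, mul_zero, add_zero, Vn_zero, zero_add] at b0 b1
  set R0 := Vn k0 (((QZ KBz Z0 Z0 y).re - (QZ KBz Z0 Z0 (bkv y)).re) +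
          pz Z0 * (hev (rH HBz) y - hev (rH HBz) (bkv y)))
        ((QZ KAz Z1 Z1 y).re - (QZ KAz Z1 Z1 (bkv y)).re)
        ((QZ KBz Z1 Z1 y).re - (QZ KBz Z1 Z1 (bkv y)).re) 0
        (QZ KAz Z0 Z1 y - QZ KAz Z0 Z1 (bkv y)) (QZ KBz Z0 Z1 y - QZ KBz Z0 Z1 (bkv y)) 0
  set R1 := Vn k1 (((QZ KBz Z0 Z0 y).re - (QZ KBz Z0 Z0 (bkv y)).re) +
          pz Z0 * (hev (rH HBz) y - hev (rH HBz) (bkv y)))
        ((QZ KAz Z1 Z1 y).re - (QZ KAz Z1 Z1 (bkv y)).re)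
        ((QZ KBz Z1 Z1 y).re - (QZ KBz Z1 Z1 (bkv y)).re) 0
        (QZ KAz Z0 Z1 y - QZ KAz Z0 Z1 (bkv y)) (QZ KBz Z0 Z1 y - QZ KBz Z0 Z1 (bkv y)) 0
  set B0 := Vn k0 ((QZ KAz Z0 Z0 (bkv y)).re + pz Z0 * hev (rH HAz) (bkv y))
        ((QZ KBz Z0 Z0 (bkv y)).re + pz Z0 * hev (rH HBz) (bkv y))
        (QZ KAz Z1 Z1 (bkv y)).re (QZ KBz Z1 Z1 (bkv y)).re 0
        (QZ KAz Z0 Z1 (bkv y)) (QZ KBz Z0 Z1 (bkv y))
  set B1 := Vn k1 ((QZ KAz Z0 Z0 (bkv y)).re + pz Z0 * hev (rH HAz) (bkv y))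
        ((QZ KBz Z0 Z0 (bkv y)).re + pz Z0 * hev (rH HBz) (bkv y))
        (QZ KAz Z1 Z1 (bkv y)).re (QZ KBz Z1 Z1 (bkv y)).re 0
        (QZ KAz Z0 Z1 (bkv y)) (QZ KBz Z0 Z1 (bkv y))
  change _ ≤ 2 ^ 62 * VRz KAz KBz HBz Z0 Z1 s v y at CR
  change _ ≤ 2 ^ 62 * VBz KAz KBz HAz HBz Z0 Z1 s v (bkv y) at CB
  change VRz KAz KBz HBz Z0 Z1 s v y - _ ≤ VRz KAz KBz HBz Z0 Z1 s u y at SR
  change VBz KAz KBz HAz HBz Z0 Z1 s v (bkv y) - _ ≤ VBz KAz KBz HAz HBz Z0 Z1 s u (bkv y) at SB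
  generalize VRz KAz KBz HBz Z0 Z1 s v y = VRc at CR SR
  generalize VBz KAz KBz HAz HBz Z0 Z1 s v (bkv y) = VBc at CB SB
  generalize VRz KAz KBz HBz Z0 Z1 s u y = VR at SR ⊢
  generalize VBz KAz KBz HAz HBz Z0 Z1 s u (bkv y) = VB at SB ⊢
  obtain ⟨c1, hc1⟩ : ∃ c1 : ℕ, c1 = (cu * k1.i) >>> 11 + 1 := ⟨_, rfl⟩
  have cu1 : s * (cu : ℝ) ≤ (c1 : ℝ) := by
    have h1 : cu * k1.i < c1 * 2048 := by
      rw [hc1, Nat.shiftRight_eq_div_pow]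
      have := Nat.lt_div_mul_add (a := cu * k1.i) (b := 2 ^ 11) (by norm_num)
      omega
    have h2 : (cu : ℝ) * k1.i ≤ (c1 : ℝ) * 2048 := by
      exact_mod_cast h1.le
    have h3 : s * (cu : ℝ) ≤ (k1.i : ℝ) / 2048 * cu :=
      mul_le_mul_of_nonneg_right s1 (Nat.cast_nonneg _)
    linarith
  have Fr : ((KU.sFT X t cu (k1.i - k0.i) k1.i : ℕ) : ℝ) = k1.i *
      ((KN.dU X.x (k1.i - k0.i) : ℝ) * t.nu + (KN.dE X.x (k1.i - k0.i) : ℝ) * t.ne +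
        ((KN.dS (k1.i - k0.i) : ℝ) * t.m + 2 ^ 160) + ((KU.dXU X.xr k1.i : ℝ) * t.nu +
          ((KT.dX X.xr k1.i : ℝ) * t.ne + (c1 : ℝ)))) := by
    rw [sFT_eq, slr_eq, ← hc1]; push_cast; ring
  have Gr : ((KU.sDT X t cb (k1.i - k0.i) k1.i : ℕ) : ℝ) = 2048 *
      (((KN.dE X.x (k1.i - k0.i) : ℝ) * t.be + (KN.dG X.x (k1.i - k0.i) : ℝ) * t.bg) +
        ((KN.dS (k1.i - k0.i) : ℝ) * t.b0 + (KN.dC (k1.i - k0.i) : ℝ) * t.b1 + 2 ^ 160) +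
        ((KT.dX X.xr k1.i : ℝ) * t.be + (KU.dXG X.xr k1.i : ℝ) * t.bg + cb)) := by
    rw [sDT_eq]; push_cast; ring
  have F0 : (0 : ℝ) ≤ (KU.sFT X t cu (k1.i - k0.i) k1.i : ℕ) := Nat.cast_nonneg _
  rw [Fr] at a0 a1 b0 b1 F0
  rw [Gr] at a0 a1 b0 b1
  have w0 : (0 : ℝ) ≤ k1.i := Nat.cast_nonneg _
  have ny := nr_nonneg y
  have nb := nr_nonneg (bkv y)
  have A0 := mul_le_mul_of_nonneg_left a0 (sub_nonneg.2 t1)
  have A1 := mul_le_mul_of_nonneg_left a1 t0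
  have E0 := mul_le_mul_of_nonneg_left b0 (sub_nonneg.2 t1)
  have E1 := mul_le_mul_of_nonneg_left b1 t0
  have CRw := mul_le_mul_of_nonneg_left CR w0
  have SRw := mul_le_mul_of_nonneg_left SR w0
  have Fn := mul_nonneg F0 nb
  have cuy := mul_le_mul_of_nonneg_left (mul_le_mul_of_nonneg_right cu1 ny) w0
  have r1 := mul_le_mul_of_nonneg_left
    (mul_le_mul_of_nonneg_right ρ1 (mul_nonneg (Nat.cast_nonneg t.nu) ny)) w0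
  have r2 := mul_le_mul_of_nonneg_left
    (mul_le_mul_of_nonneg_right ρ2 (mul_nonneg (Nat.cast_nonneg t.ne) ny)) w0
  have r3 := mul_le_mul_of_nonneg_right ρ2 (mul_nonneg (Nat.cast_nonneg t.be) nb)
  have r4 := mul_le_mul_of_nonneg_right ρ3 (mul_nonneg (Nat.cast_nonneg t.bg) nb)
  clear_value R0 R1 B0 B1
  clear n00 n01 p0 p1 D hKA hKB hHA hHB qA jA qB jB qA11 jA11 qB11 jB11 RA JA RB JB RA1 JA1 RB1 JB1
  clear a0 a1 b0 b1 CR SR Fr Gr ρ1 ρ2 ρ3 cu1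
  generalize ((KN.dU X.x (k1.i - k0.i) : ℕ) : ℝ) = dU at *
  generalize ((KN.dE X.x (k1.i - k0.i) : ℕ) : ℝ) = dE at *
  generalize ((KN.dG X.x (k1.i - k0.i) : ℕ) : ℝ) = dG at *
  generalize ((KN.dS (k1.i - k0.i) : ℕ) : ℝ) = dS at *
  generalize ((KN.dC (k1.i - k0.i) : ℕ) : ℝ) = dC at *
  generalize ((KU.dXU X.xr k1.i : ℕ) : ℝ) = xU at *
  generalize ((KT.dX X.xr k1.i : ℕ) : ℝ) = xE at *
  generalize ((KU.dXG X.xr k1.i : ℕ) : ℝ) = xG at *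
  clear hc1
  generalize (c1 : ℝ) = c1 at *
  generalize 104 / 100 * s * |x0 - xc| = ρ at *
  constructor
  · have key : (2 : ℝ) ^ 62 * ((k1.i : ℝ) * ((2 ^ 98 + s * cu / 2 ^ 62) * nr y) +
          2048 * ((2 ^ 98 + cb / 2 ^ 62) * nr (bkv y))) ≤ 2 ^ 62 * (k1.i * VR + 2048 * VB) := by
      have e : (2 : ℝ) ^ 62 * ((k1.i : ℝ) * ((2 ^ 98 + s * cu / 2 ^ 62) * nr y) +
          2048 * ((2 ^ 98 + cb / 2 ^ 62) * nr (bkv y))) =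
            k1.i * (2 ^ 160 * nr y) + k1.i * (s * cu * nr y) +
            2048 * (2 ^ 160 * nr (bkv y)) + 2048 * (cb * nr (bkv y)) := by
        ring
      rw [e]
      linarith
    exact le_of_mul_le_mul_left key (by positivity)
  · have key : (2 : ℝ) ^ 62 * (2048 * ((2 ^ 98 + cb / 2 ^ 62) * nr (bkv y))) ≤
        2 ^ 62 * (2048 * VB) := by
      have e : (2 : ℝ) ^ 62 * (2048 * ((2 ^ 98 + cb / 2 ^ 62) * nr (bkv y))) =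
            2048 * (2 ^ 160 * nr (bkv y)) + 2048 * (cb * nr (bkv y)) := by
        ring
      rw [e]
      linarith
    have := le_of_mul_le_mul_left key (by positivity)
    linarith

end

end Pool.Agent.Helper94.CXT
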