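import Pool.Agent.Helper94.CXT.UT1

/-!
Far cells of tail classes, row UUT: one corner of the test `uuT`, the form; convexity.
-/

set_option autoImplicit false
set_option exponentiation.threshold 4000
noncomputable section
namespace Pool.Agent.Helper94.CXT

open Pool.Agent.Helper86.CX renaming Hm → Hm, ev → hev
open Pool.Agent.Helper94.CXF (M9)
open Pool.Agent.Helper94.CXF
open Pool.Agent.Helper94.CXF.SD
open Pool.Agent.Helper94.CXF.SD.UUX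
open Pool.Agent.Helper48.CXT
open Complex ComplexConjugate

/-! ### the matrices -/

/-- `TUm / (k h g)` in the parameters `α = k²`, `γ = g² - 1`, `q = 1 / (k h g)` -/
def TU0 (α : ℝ) : M9 ℝ := ⟨1, α - 1, 0, 0, 1, 0, 0, -(α - 1), 0⟩
def TU1 (α γ q : ℝ) : M9 ℝ :=
  ⟨α * γ * q, 0, -(α * q), γ * q, 0, -q, -(α * γ * q), 0, α * q⟩

theorem const_row2 {KAz HAz : Hm ℤ} (ka : KAz.a = 0) (kf : KAz.f = 0) (kg : KAz.g = 0)
    (ha : HAz.a = 0) (hf : HAz.f = 0) (hg : HAz.g = 0) (hd : KAz.d = HAz.d)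
    (he : KAz.e = HAz.e) (α : ℝ) (x : Fin 3 → ℂ) :
    (QT KAz (TU0 α) (TU0 α) x).re + pt (TU0 α) * hev (rH HAz) x =
      (QT KAz (TU0 α) (TU0 α) (bkv x)).re + pt (TU0 α) * hev (rH HAz) (bkv x) := by
  rw [QT_self, QT_self, pt_eq]
  simp only [hev, ap1_0, ap1_1, ap1_2, bkv_0, bkv_1, bkv_2, rH, GR.mpH, cI_apply, ka, kf, kg, ha,
    hf, hg, hd, he, TU0]
  simp [normSq_apply]
  ring

/-- the data of a corner -/
structure CorU (KAz KBz HAz HBz : Hm ℤ) : Prop where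
  ka : KAz.a = 0
  kf : KAz.f = 0
  kg : KAz.g = 0
  ha : HAz.a = 0
  hf : HAz.f = 0
  hg : HAz.g = 0
  hd : KAz.d = HAz.d
  he : KAz.e = HAz.e
  kb : KBz.b = 0
  kc : KBz.c = 0
  kh : KBz.h = 0
  ki : KBz.i = 0

section
variable {xc x0 : ℝ} {X : KT.Cx} {k0 k1 : KN.Nd} {u0 u1 u : ℂ} {s : ℝ}
  {KA KB HA HB : Hm ℕ} {KAz KBz HAz HBz : Hm ℤ} {T0 T1 : M9 ℝ} {N0 N1 : M9 ℕ} {Z0 Z1 : M9 ℤ}

/-- ONE CHORD, true matrices -/
theorem c8T_true (D : UD KAz KBz HAz HBz T0 T1 N0 N1 Z0 Z1) (hu : Cv x0 s u) {w c d : ℝ}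
    (w0 : 0 ≤ w) {y : Fin 3 → ℂ}
    (h : w * ((2 ^ 98 + c) * nr y) + 2048 * ((2 ^ 98 + d) * nr (bkv y)) ≤
        w * VRz KAz KBz HBz Z0 Z1 s u y + 2048 * VBz KAz KBz HAz HBz Z0 Z1 s u (bkv y) ∧
      (2 ^ 98 + d) * nr (bkv y) ≤ VBz KAz KBz HAz HBz Z0 Z1 s u (bkv y)) :
    w * ((76 * 2 ^ 90 + c) * nr y) + 2048 * (d * nr (bkv y)) ≤
        w * VRt KAz KBz HBz T0 T1 s u y + 2048 * VBt KAz KBz HAz HBz T0 T1 s u (bkv y) ∧
      d * nr (bkv y) ≤ VBt KAz KBz HAz HBz T0 T1 s u (bkv y) := by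
  obtain ⟨h1, h2⟩ := h
  have a := D.vr hu y
  have b := D.vb hu (bkv y)
  change VRz KAz KBz HBz Z0 Z1 s u y ≤ VRt KAz KBz HBz T0 T1 s u y + _ at a
  change VBz KAz KBz HAz HBz Z0 Z1 s u (bkv y) ≤ VBt KAz KBz HAz HBz T0 T1 s u (bkv y) + _ at b
  have a' := mul_le_mul_of_nonneg_left a w0
  have nb := nr_nonneg (bkv y)
  constructor
  · linarith
  · linarith

/-- ONE CORNER -/
theorem corner_u (hX : CxOk xc X) (hKA : RH KA KAz) (hKB : RH KB KBz) (hHA : RH HA HAz)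
    (hHB : RH HB HBz) (C : CorU KAz KBz HAz HBz) {α γ q : ℝ} {N : M9 ℕ × M9 ℕ}
    (D : UD KAz KBz HAz HBz (TU0 α) (TU1 α γ q) N.1 N.2 Z0 Z1) {t : KU.LUT} {cu cb : ℕ}
    (hcu : cu ≤ 2 ^ 208) (hcb : cb ≤ 2 ^ 200) (tb : KU.bn8 t = true)
    (hc : KU.cU1 X t cu cb KA KB HA HB N = true)
    (hu : Cv x0 s u) (hx0 : |x0| ≤ 2) (hd : |x0 - xc| ≤ (X.xr : ℝ) / 2 ^ 16)
    (s0 : (X.k.i : ℝ) / 2048 ≤ s) (s1 : s ≤ (X.e : ℝ) / 2048) (x : Fin 3 → ℂ) :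
    s * ((76 * 2 ^ 90 + s * cu / 2 ^ 62) * nr x) + cb / 2 ^ 62 * nr (bkv x) ≤
      2 ^ 96 * FX KAz KBz HAz HBz (TU0 α) (TU1 α γ q) s u x := by
  unfold KU.cU1 KU.cU2 at hc
  unfold KU.bn8 at tb
  simp only [andB_iff] at hc tb
  obtain ⟨tnu, tne, tm, tbe, tbg, tb0, tb1, _⟩ := tb
  have tnu : t.nu ≤ 2 ^ 145 := Nat.le_of_ble_eq_true tnu
  have tne : t.ne ≤ 2 ^ 145 := Nat.le_of_ble_eq_true tne
  have tm : t.m ≤ 2 ^ 145 := Nat.le_of_ble_eq_true tm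
  have tbe : t.be ≤ 2 ^ 145 := Nat.le_of_ble_eq_true tbe
  have tbg : t.bg ≤ 2 ^ 145 := Nat.le_of_ble_eq_true tbg
  have tb0 : t.b0 ≤ 2 ^ 145 := Nat.le_of_ble_eq_true tb0
  have tb1 : t.b1 ≤ 2 ^ 145 := Nat.le_of_ble_eq_true tb1
  obtain ⟨q1, q2, q3, q4, q5, q6, q7, hc⟩ := hc
  refine chs_sound (x0 := xc) (Q := fun s => ∀ u, Cv x0 s u → ∀ x,
    s * ((76 * 2 ^ 90 + s * cu / 2 ^ 62) * nr x) + cb / 2 ^ 62 * nr (bkv x) ≤
      2 ^ 96 * FX KAz KBz HAz HBz (TU0 α) (TU1 α γ q) s u x)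
    hX.ns ?_ ?_ t.c X.k hX.st hc hX.lt s s0 s1 u hu x
  · intro k0 k1 l hc
    unfold KU.c8T at hc
    simp only [andB_iff] at hc
    exact Nat.le_of_ble_eq_true hc.1
  · rintro k0 k1 l ⟨u0, h0⟩ ⟨u1, h1⟩ hc s s0 s1 u hu x
    have hi : k0.i + 1 ≤ k1.i := by
      unfold KU.c8T at hc
      simp only [andB_iff] at hc
      exact Nat.le_of_ble_eq_true hc.1
    have w0 : (0 : ℝ) < k1.i := by
      have : 0 < k1.i := by omega
      exact_mod_cast this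
    have ws : 2048 * s ≤ (k1.i : ℝ) := by
      have := mul_le_mul_of_nonneg_left s1 (show (0 : ℝ) ≤ 2048 by norm_num)
      linarith
    obtain ⟨H1, H2⟩ := c8T_true D hu w0.le (c8T_int hKA hKB hHA hHB D hX.hx hX.hx2 hX.hr2 hcu
      hcb tnu tne tm tbe tbg tb0 tb1 q1 q2 q3 q4 q5 q6 q7 h0 h1 hc hu hx0 hd s0 s1 x)
    have E := FX_eq (KBz := KBz) (HBz := HBz) (T1 := TU1 α γ q) hu x
      (const_row2 C.ka C.kf C.kg C.ha C.hf C.hg C.hd C.he α x)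
    rw [E]
    generalize VRt KAz KBz HBz (TU0 α) (TU1 α γ q) s u x = R at H1 E ⊢
    generalize VBt KAz KBz HAz HBz (TU0 α) (TU1 α γ q) s u (bkv x) = B at H1 H2 E ⊢
    have sp := hu.s0
    refine le_of_mul_le_mul_left ?_ w0
    have e : (k1.i : ℝ) * (s * R + B) = s * (k1.i * R + 2048 * B) + (k1.i - 2048 * s) * B := by ring
    rw [e]
    have a1 := mul_le_mul_of_nonneg_left H1 sp
    have a2 := mul_le_mul_of_nonneg_left H2 (show 0 ≤ (k1.i : ℝ) - 2048 * s by linarith)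
    linarith

end

/-! ### convexity -/

theorem cvx (K : Hm ℝ) (t : ℝ) (a b : Fin 3 → ℂ) :
    hev K (((1 - t : ℝ) : ℂ) • a + ((t : ℝ) : ℂ) • b) =
      (1 - t) * hev K a + t * hev K b - t * (1 - t) * hev K (b - a) := by
  simp only [hev, Pi.add_apply, Pi.smul_apply, Pi.sub_apply, smul_eq_mul]
  simp [normSq_apply]
  ring

/-- the target form -/
def tg (KAz KBz : Hm ℤ) (s : ℝ) (x : Fin 3 → ℂ) : ℝ := hev (rH KAz) x + s * hev (rH KBz) x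

theorem tg_cvx (KAz KBz : Hm ℤ) (s t : ℝ) (a b : Fin 3 → ℂ) :
    tg KAz KBz s (((1 - t : ℝ) : ℂ) • a + ((t : ℝ) : ℂ) • b) =
      (1 - t) * tg KAz KBz s a + t * tg KAz KBz s b - t * (1 - t) * tg KAz KBz s (b - a) := by
  rw [tg, cvx, cvx, tg, tg, tg]; ring

theorem tg_smul (KAz KBz : Hm ℤ) (s : ℝ) (c : ℂ) (a : Fin 3 → ℂ) :
    tg KAz KBz s (c • a) = normSq c * tg KAz KBz s a := by
  rw [tg, ev_smul, ev_smul, tg, ← normSq_eq_norm_sq]; ring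

/-- one direction -/
theorem tg_dir {KAz KBz : Hm ℤ} {s t : ℝ} (t0 : 0 ≤ t) (t1 : t ≤ 1) {a b d : Fin 3 → ℂ} {c : ℂ}
    (hd : b - a = c • d) {L M : ℝ} (hl : tg KAz KBz s d ≤ L) (L0 : 0 ≤ L) (hc : normSq c ≤ M) :
    (1 - t) * tg KAz KBz s a + t * tg KAz KBz s b - L * M / 4 ≤
      tg KAz KBz s (((1 - t : ℝ) : ℂ) • a + ((t : ℝ) : ℂ) • b) := by
  rw [tg_cvx, hd, tg_smul]
  have n0 := normSq_nonneg c
  have h1 : normSq c * tg KAz KBz s d ≤ M * L := by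
    calc normSq c * tg KAz KBz s d ≤ normSq c * L := mul_le_mul_of_nonneg_left hl n0
      _ ≤ M * L := mul_le_mul_of_nonneg_right hc L0
  have h2 : t * (1 - t) ≤ 1 / 4 := by nlinarith [sq_nonneg (t - 1 / 2)]
  have h3 : 0 ≤ t * (1 - t) := mul_nonneg t0 (by linarith)
  have ML : 0 ≤ M * L := mul_nonneg (n0.trans hc) L0
  have h4 : t * (1 - t) * (normSq c * tg KAz KBz s d) ≤ 1 / 4 * (M * L) := by
    calc t * (1 - t) * (normSq c * tg KAz KBz s d) ≤ t * (1 - t) * (M * L) :=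
          mul_le_mul_of_nonneg_left h1 h3
      _ ≤ 1 / 4 * (M * L) := mul_le_mul_of_nonneg_right h2 ML
  linarith

def vA : Fin 3 → ℂ := ![1, 0, -1]
def vB (α : ℝ) : Fin 3 → ℂ := ![(α : ℂ), 1, -(α : ℂ)]

theorem ap_TU (α γ q : ℝ) (e : ℂ) (x : Fin 3 → ℂ) : ap (TU0 α, TU1 α γ q) e x =
    ![x 0 + (α - 1) * x 1 + e * q * (γ * x 0 - x 2) * α, x 1 + e * q * (γ * x 0 - x 2),
      -((α - 1) * x 1) - e * q * (γ * x 0 - x 2) * α] := by
  rw [ap_eq]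
  funext j
  fin_cases j
  · simp [ap1_0, TU0, TU1]
    ring
  · simp [ap1_1, TU0, TU1]
    ring
  · simp [ap1_2, TU0, TU1]
    ring

theorem ap_TU_a {α0 α1 t : ℝ} (γ q : ℝ) (e : ℂ) (x : Fin 3 → ℂ) :
    ap (TU0 ((1 - t) * α0 + t * α1), TU1 ((1 - t) * α0 + t * α1) γ q) e x =
      ((1 - t : ℝ) : ℂ) • ap (TU0 α0, TU1 α0 γ q) e x +
        ((t : ℝ) : ℂ) • ap (TU0 α1, TU1 α1 γ q) e x ∧
    ap (TU0 α1, TU1 α1 γ q) e x - ap (TU0 α0, TU1 α0 γ q) e x =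
      (((α1 - α0 : ℝ) : ℂ) * (x 1 + e * q * (γ * x 0 - x 2))) • vA := by
  simp only [ap_TU]
  constructor
  · funext j
    fin_cases j <;> simp <;> ring
  · funext j
    fin_cases j <;> simp [vA] <;> ring

theorem ap_TU_g {γ0 γ1 t : ℝ} (α q : ℝ) (e : ℂ) (x : Fin 3 → ℂ) :
    ap (TU0 α, TU1 α ((1 - t) * γ0 + t * γ1) q) e x =
      ((1 - t : ℝ) : ℂ) • ap (TU0 α, TU1 α γ0 q) e x +
        ((t : ℝ) : ℂ) • ap (TU0 α, TU1 α γ1 q) e x ∧
    ap (TU0 α, TU1 α γ1 q) e x - ap (TU0 α, TU1 α γ0 q) e x =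
      (((γ1 - γ0 : ℝ) : ℂ) * (e * q * x 0)) • vB α := by
  simp only [ap_TU]
  constructor
  · funext j
    fin_cases j <;> simp <;> ring
  · funext j
    fin_cases j <;> simp [vB] <;> ring

theorem ap_TU_q {q0 q1 t : ℝ} (α γ : ℝ) (e : ℂ) (x : Fin 3 → ℂ) :
    ap (TU0 α, TU1 α γ ((1 - t) * q0 + t * q1)) e x =
      ((1 - t : ℝ) : ℂ) • ap (TU0 α, TU1 α γ q0) e x +
        ((t : ℝ) : ℂ) • ap (TU0 α, TU1 α γ q1) e x ∧
    ap (TU0 α, TU1 α γ q1) e x - ap (TU0 α, TU1 α γ q0) e x =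
      (((q1 - q0 : ℝ) : ℂ) * (e * (γ * x 0 - x 2))) • vB α := by
  simp only [ap_TU]
  constructor
  · funext j
    fin_cases j <;> simp <;> ring
  · funext j
    fin_cases j <;> simp [vB] <;> ring

theorem nsq_lin (γ : ℝ) (x : Fin 3 → ℂ) : normSq (γ * x 0 - x 2) ≤ (1 + γ ^ 2) * nr x := by
  have h : normSq ((γ : ℂ) * x 0 - x 2) ≤ (1 + γ ^ 2) * (normSq (x 0) + normSq (x 2)) := by
    simp only [normSq_apply, sub_re, sub_im, mul_re, mul_im, ofReal_re, ofReal_im, zero_mul,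
      sub_zero, add_zero]
    nlinarith [sq_nonneg ((x 0).re + γ * (x 2).re), sq_nonneg ((x 0).im + γ * (x 2).im)]
  refine h.trans (mul_le_mul_of_nonneg_left ?_ (by positivity))
  rw [nr]
  linarith [normSq_nonneg (x 1)]

theorem nsq0 (x : Fin 3 → ℂ) : normSq (x 0) ≤ nr x := by
  rw [nr]
  linarith [normSq_nonneg (x 1), normSq_nonneg (x 2)]

/-- an average is at least a common lower bound -/
theorem avg_ge {t a b c : ℝ} (t0 : 0 ≤ t) (t1 : t ≤ 1) (ha : c ≤ a) (hb : c ≤ b) :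
    c ≤ (1 - t) * a + t * b := by
  have h1 := mul_le_mul_of_nonneg_left ha (sub_nonneg.2 t1)
  have h2 := mul_le_mul_of_nonneg_left hb t0
  linarith

/-- ALL CORNERS give the point -/
theorem tg_point {KAz KBz : Hm ℤ} {x0 s : ℝ} {u : ℂ} (hu : Cv x0 s u) {α0 α1 γ0 γ1 q0 q1 t1 t2 t3 L V : ℝ}
    (h1 : I01 t1) (h2 : I01 t2) (h3 : I01 t3) (hγ : 0 ≤ γ0) (hγ1 : γ0 ≤ γ1) (hq : 0 ≤ q0)
    (hq1 : q0 ≤ q1) (L0 : 0 ≤ L) (V0 : 0 ≤ V) (cA : tg KAz KBz s vA ≤ V)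
    (cB0 : tg KAz KBz s (vB α0) ≤ L) (cB1 : tg KAz KBz s (vB α1) ≤ L) {x : Fin 3 → ℂ} {m : ℝ}
    (hm : ∀ c1 c2 c3 : Bool, m + V * ((α1 - α0) ^ 2 * (nr (bkv x) +
        s ^ 2 * (q1 ^ 2 * (1 + γ1 ^ 2)) * nr x)) / 2 + L / 4 * (s ^ 2 * ((γ1 - γ0) ^ 2 * q1 ^ 2 +
          (q1 - q0) ^ 2 * (1 + γ1 ^ 2)) * nr x) ≤ tg KAz KBz s (ap (TU0 (if c1 then α1 else α0),
          TU1 (if c1 then α1 else α0) (if c2 then γ1 else γ0) (if c3 then q1 else q0)) (s * u) x)) :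
    m ≤ tg KAz KBz s (ap (TU0 ((1 - t1) * α0 + t1 * α1),
      TU1 ((1 - t1) * α0 + t1 * α1) ((1 - t2) * γ0 + t2 * γ1) ((1 - t3) * q0 + t3 * q1)) (s * u) x) := by
  set e : ℂ := (s : ℂ) * u with he
  have ne : normSq e = s ^ 2 := by
    rw [he, normSq_mul, normSq_ofReal, hu.nm]; ring
  set γ := (1 - t2) * γ0 + t2 * γ1 with hg
  set q := (1 - t3) * q0 + t3 * q1 with hqq
  have n0 := nr_nonneg x
  have q00 : q0 ≤ q := by
    rw [hqq]; nlinarith [h3.1, h3.2]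
  have q01 : q ≤ q1 := by
    rw [hqq]; nlinarith [h3.1, h3.2]
  -- the third direction
  set W : ℝ := V * ((α1 - α0) ^ 2 * (nr (bkv x) + s ^ 2 * (q1 ^ 2 * (1 + γ1 ^ 2)) * nr x)) / 2
    with hW
  have s3 : ∀ (c1 c2 : Bool), m + W + L / 4 * (s ^ 2 * ((γ1 - γ0) ^ 2 * q1 ^ 2) * nr x) ≤
      tg KAz KBz s (ap (TU0 (if c1 then α1 else α0),
          TU1 (if c1 then α1 else α0) (if c2 then γ1 else γ0) q) e x) := by
    intro c1 c2
    obtain ⟨e1, e2⟩ := ap_TU_q (q0 := q0) (q1 := q1) (t := t3) (if c1 then α1 else α0)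
      (if c2 then γ1 else γ0) e x
    rw [hqq, e1]
    have hB : tg KAz KBz s (vB (if c1 then α1 else α0)) ≤ L := by
      cases c1
      · exact cB0
      · exact cB1
    have hγc : (if c2 then γ1 else γ0) ^ 2 ≤ γ1 ^ 2 := by
      cases c2
      · simp only [Bool.false_eq_true, if_false]
        exact pow_le_pow_left₀ hγ hγ1 2
      · simp
    have key := tg_dir h3.1 h3.2 e2 hB L0 (M := (q1 - q0) ^ 2 * (s ^ 2 * ((1 + γ1 ^ 2) * nr x))) (by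
      rw [normSq_mul, normSq_ofReal, normSq_mul, ne]
      have a1 : normSq (((if c2 then γ1 else γ0 : ℝ) : ℂ) * x 0 - x 2) ≤ (1 + γ1 ^ 2) * nr x :=
        (nsq_lin _ x).trans (mul_le_mul_of_nonneg_right (by linarith) n0)
      have a2 := mul_le_mul_of_nonneg_left a1 (sq_nonneg s)
      have a3 := mul_le_mul_of_nonneg_left a2 (sq_nonneg (q1 - q0))
      calc _ = (q1 - q0) ^ 2 * (s ^ 2 * normSq (((if c2 then γ1 else γ0 : ℝ) : ℂ) * x 0 - x 2)) := by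
            ring
        _ ≤ _ := a3)
    have m0 := hm c1 c2 false
    have m1 := hm c1 c2 true
    simp only [Bool.false_eq_true, if_false] at m0
    simp only [if_true] at m1
    have av := avg_ge h3.1 h3.2 m0 m1
    linarith
  -- the second direction
  have s2 : ∀ c1 : Bool, m + W ≤ tg KAz KBz s (ap (TU0 (if c1 then α1 else α0),
          TU1 (if c1 then α1 else α0) γ q) e x) := by
    intro c1
    obtain ⟨e1, e2⟩ := ap_TU_g (γ0 := γ0) (γ1 := γ1) (t := t2) (if c1 then α1 else α0) q e x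
    rw [hg, e1]
    have hB : tg KAz KBz s (vB (if c1 then α1 else α0)) ≤ L := by
      cases c1
      · exact cB0
      · exact cB1
    have key := tg_dir h2.1 h2.2 e2 hB L0 (M := (γ1 - γ0) ^ 2 * (s ^ 2 * (q1 ^ 2 * nr x))) (by
      rw [normSq_mul, normSq_ofReal, normSq_mul, normSq_mul, ne, normSq_ofReal]
      have a0 : q * q ≤ q1 ^ 2 := by nlinarith
      have a1 : q * q * normSq (x 0) ≤ q1 ^ 2 * nr x :=
        mul_le_mul a0 (nsq0 x) (normSq_nonneg _) (sq_nonneg _)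
      have a2 := mul_le_mul_of_nonneg_left a1 (sq_nonneg s)
      have a3 := mul_le_mul_of_nonneg_left a2 (sq_nonneg (γ1 - γ0))
      calc _ = (γ1 - γ0) ^ 2 * (s ^ 2 * (q * q * normSq (x 0))) := by ring
        _ ≤ _ := a3)
    have m0 := s3 c1 false
    have m1 := s3 c1 true
    simp only [Bool.false_eq_true, if_false] at m0
    simp only [if_true] at m1
    have av := avg_ge h2.1 h2.2 m0 m1
    linarith
  have m0 := s2 false
  have m1 := s2 true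
  simp only [Bool.false_eq_true, if_false] at m0
  simp only [if_true] at m1
  obtain ⟨e1, e2⟩ := ap_TU_a (α0 := α0) (α1 := α1) (t := t1) γ q e x
  have γ00 : γ0 ≤ γ := by
    rw [hg]; nlinarith [h2.1, h2.2]
  have γ01 : γ ≤ γ1 := by
    rw [hg]; nlinarith [h2.1, h2.2]
  rw [e1]
  have key := tg_dir h1.1 h1.2 e2 cA V0 (M := (α1 - α0) ^ 2 * (2 * (nr (bkv x) +
      s ^ 2 * (q1 ^ 2 * (1 + γ1 ^ 2)) * nr x))) (by
    rw [normSq_mul, normSq_ofReal]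
    have a0 : normSq (x 1 + e * q * (γ * x 0 - x 2)) ≤
        2 * (normSq (x 1) + normSq (e * q * (γ * x 0 - x 2))) := by
      simp only [normSq_apply, add_re, add_im]
      nlinarith [sq_nonneg ((x 1).re - (e * q * (γ * x 0 - x 2)).re),
        sq_nonneg ((x 1).im - (e * q * (γ * x 0 - x 2)).im)]
    have a1 : normSq (e * q * (γ * x 0 - x 2)) ≤ s ^ 2 * (q1 ^ 2 * (1 + γ1 ^ 2)) * nr x := by
      rw [normSq_mul, normSq_mul, ne, normSq_ofReal]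
      have b0 : q * q ≤ q1 ^ 2 := by nlinarith
      have b1 : (1 + γ ^ 2) ≤ 1 + γ1 ^ 2 := by nlinarith
      have b2 : normSq (γ * x 0 - x 2) ≤ (1 + γ1 ^ 2) * nr x :=
        (nsq_lin _ x).trans (mul_le_mul_of_nonneg_right b1 n0)
      have b3 : q * q * normSq (γ * x 0 - x 2) ≤ q1 ^ 2 * ((1 + γ1 ^ 2) * nr x) :=
        mul_le_mul b0 b2 (normSq_nonneg _) (sq_nonneg _)
      have b4 := mul_le_mul_of_nonneg_left b3 (sq_nonneg s)
      calc _ = s ^ 2 * (q * q * normSq (γ * x 0 - x 2)) := by ring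
        _ ≤ _ := b4
        _ = _ := by ring
    have a2 : normSq (x 1) ≤ nr (bkv x) := by
      rw [nr_bkv]
      linarith [normSq_nonneg (x 2)]
    have a3 : normSq (x 1 + e * q * (γ * x 0 - x 2)) ≤ 2 * (nr (bkv x) +
        s ^ 2 * (q1 ^ 2 * (1 + γ1 ^ 2)) * nr x) := by linarith
    have a4 := mul_le_mul_of_nonneg_left a3 (sq_nonneg (α1 - α0))
    calc _ = (α1 - α0) ^ 2 * normSq (x 1 + e * q * (γ * x 0 - x 2)) := by ring
      _ ≤ _ := a4)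
  have av := avg_ge h1.1 h1.2 m0 m1
  have eW : V * ((α1 - α0) ^ 2 * (2 * (nr (bkv x) +
      s ^ 2 * (q1 ^ 2 * (1 + γ1 ^ 2)) * nr x))) / 4 = W := by rw [hW]; ring
  rw [eW] at key
  linarith

end Pool.Agent.Helper94.CXT
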