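import Pool.Agent.Helper94.CXT.UT3
import Pool.Agent.Helper94.CXF.S12

/-!
Far cells of tail classes, row UUT: SOUNDNESS OF `uuT`.
-/

set_option autoImplicit false
set_option exponentiation.threshold 4000
noncomputable section
namespace Pool.Agent.Helper94.CXT

open Pool.Agent.Helper86.CX renaming Hm → Hm, ev → hev
open Pool.Agent.Helper94.CXF (M9)
open Pool.Agent.Helper94.CXF
open Pool.Agent.Helper94.CXF.SD
open Pool.Agent.Helper94.CXF.SD.UUX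
open Pool.Agent.Helper48.CXT
open Complex ComplexConjugate

/-! ### the corner matrices -/

theorem ap_su {r X x : ℝ} {a : ℕ} (h : Ap r X x a) (h1 : 1 ≤ x) (h2 : 2 ^ 48 ≤ a) :
    Ap r X (x - 1) (KT.su a) := by
  refine ⟨by linarith, by linarith [h.hi], ?_⟩
  rw [su_real h2]
  have := h.er
  have e : (a : ℝ) - 2 ^ 48 - 2 ^ 48 * (x - 1) = a - 2 ^ 48 * x := by ring
  rw [e]
  exact this

theorem FU_eq (a c q : ℕ) : KT.FU a c q =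
    (⟨KN.u1N, KT.su a, nat_lit 0, nat_lit 0, KN.u1N, nat_lit 0, nat_lit 0, KN.nm (KT.su a),
        nat_lit 0⟩,
      ⟨KN.mu (KN.mu a c) q, nat_lit 0, KN.nm (KN.mu a q), KN.mu c q, nat_lit 0, KN.nm q,
        KN.nm (KN.mu (KN.mu a c) q), nat_lit 0, KN.mu a q⟩) := by
  unfold KT.FU
  rfl

theorem ok_TU {α γ q : ℝ} {a c d : ℕ} (ha : Ap 8 5 α a) (hc : Ap 8 4 γ c) (hq : Ap 2 2 q d)
    (h1 : 1 ≤ α) (h2 : 2 ^ 48 ≤ a) :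
    (∃ Z, OkT (TU0 α) (KT.FU a c d).1 Z) ∧ ∃ Z, OkT (TU1 α γ q) (KT.FU a c d).2 Z := by
  have s : En (α - 1) (KT.su a) := (ap_su ha h1 h2).en (by norm_num) (by norm_num)
  have ac := ha.mul hc (by norm_num)
  have acq : En (α * γ * q) (KN.mu (KN.mu a c) d) :=
    (ac.mul hq (by norm_num)).en (by norm_num) (by norm_num)
  have aq : En (α * q) (KN.mu a d) := (ha.mul hq (by norm_num)).en (by norm_num) (by norm_num)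
  have cq : En (γ * q) (KN.mu c d) := (hc.mul hq (by norm_num)).en (by norm_num) (by norm_num)
  have q' : En q d := hq.en (by norm_num) (by norm_num)
  rw [FU_eq]
  unfold TU0 TU1
  dsimp only
  generalize KT.su a = sa at s ⊢
  exact ⟨ok_of en_one s en_zero en_zero en_one en_zero en_zero s.neg en_zero,
    ok_of acq en_zero aq.neg cq en_zero q'.neg acq.neg en_zero aq⟩

/-! ### the form at `(1, 0, -1)` and at `(α, 1, -α)` -/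

def v1z (K : Hm ℤ) : ℤ := (K.a + K.c) - (K.f + K.f)
def v2z (K : Hm ℤ) (a : ℕ) : ℤ := a * a * v1z K + (2 ^ 96 * K.b + 2 ^ 49 * a * (K.d - K.h))

theorem v1_rep {K : Hm ℕ} {Kz : Hm ℤ} (h : RH K Kz) : Rp (KU.v1 K) (v1z Kz) := by
  have h1 := (h.a.add h.c).add (rep_NN.mul (h.f.add h.f))
  have e : v1z Kz = (Kz.a + Kz.c) + -1 * (Kz.f + Kz.f) := by rw [v1z]; ring
  rw [e]
  exact h1

theorem v2_rep {K : Hm ℕ} {Kz : Hm ℤ} (h : RH K Kz) (a : ℕ) : Rp (KU.v2 K a) (v2z Kz a) := by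
  have ra := rp_nat a
  have r96 : Rp KN.p96 (2 ^ 96) := p96_rep
  have r49 : Rp KU.o49 (2 ^ 49) := by
    have : KU.o49 = 2 ^ 49 := by decide +kernel
    rw [this]
    have := rp_nat (2 ^ 49)
    push_cast at this
    exact this
  exact ((ra.mul ra).mul (v1_rep h)).add ((r96.mul h.b).add ((r49.mul ra).mul (rp_sb h.d h.h)))

theorem v1z_bd {K : Hm ℤ} (h : BH (2 ^ 27) K) : |v1z K| ≤ 2 ^ 29 := by
  have h1 := abs_add2 h.a h.c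
  have h2 := abs_add2 h.f h.f
  have h3 : |v1z K| ≤ |K.a + K.c| + |K.f + K.f| := abs_sub _ _
  exact h3.trans ((add_le_add h1 h2).trans (by norm_num))

theorem v2z_bd {K : Hm ℤ} (h : BH (2 ^ 27) K) {a : ℕ} (ha : a ≤ 2 ^ 51) : |v2z K a| ≤ 2 ^ 132 := by
  have a0 : |(a : ℤ)| ≤ 2 ^ 51 := by
    rw [abs_of_nonneg (by positivity)]
    exact_mod_cast ha
  have h1 := abs_mul_le (abs_mul_le a0 a0) (v1z_bd h)
  have h2 := abs_mul_le (show |(2 ^ 96 : ℤ)| ≤ 2 ^ 96 by norm_num) h.b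
  have h3 : |K.d - K.h| ≤ 2 ^ 28 := (abs_sub _ _).trans ((add_le_add h.d h.h).trans (by norm_num))
  have h4 := abs_mul_le (abs_mul_le (show |(2 ^ 49 : ℤ)| ≤ 2 ^ 49 by norm_num) a0) h3
  exact (abs_add2 h1 (abs_add2 h2 h4)).trans (by norm_num)

theorem hev_vA (K : Hm ℤ) : hev (rH K) vA = v1z K := by
  simp only [hev, vA, rH, GR.mpH, cI_apply, v1z]
  simp
  ring

theorem hev_vB (K : Hm ℤ) (α : ℝ) : hev (rH K) (vB α) =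
    α ^ 2 * v1z K + K.b + 2 * α * ((K.d : ℝ) - K.h) := by
  simp only [hev, vB, rH, GR.mpH, cI_apply, v1z]
  simp [normSq_apply]
  ring

/-- affine in `s` -/
theorem aff_le {a b c d s A B : ℝ} (h0 : a ≤ s) (h1 : s ≤ b) (ha : c + a * d ≤ A)
    (hb : c + b * d ≤ A) (hAB : A ≤ B) : c + s * d ≤ B := by
  rcases le_total 0 d with hd | hd
  · have := mul_le_mul_of_nonneg_right h1 hd
    linarith
  · have := mul_le_mul_of_nonpos_right h0 hd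
    linarith

theorem k1U_sound {KA KB : Hm ℕ} {KAz KBz : Hm ℤ} (hA : RH KA KAz) (hB : RH KB KBz)
    (bA : BH (2 ^ 27) KAz) (bB : BH (2 ^ 27) KBz) {i v : ℕ} (hi : i ≤ 256) (hv : v ≤ 2 ^ 28)
    (h : KU.k1U i v KA KB = true) : tg KAz KBz ((i : ℝ) / 2048) vA ≤ v := by
  unfold KU.k1U at h
  have r := (rp_nat (2048 * v + 1)).add (rep_NN.mul (((rp_nat 2048).mul (v1_rep hA)).add
    ((rp_nat i).mul (v1_rep hB))))
  have i0 : |(i : ℤ)| ≤ 2 ^ 8 := by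
    rw [abs_of_nonneg (by positivity)]
    exact_mod_cast hi
  have v0 : |((2048 * v + 1 : ℕ) : ℤ)| ≤ 2 ^ 40 := by
    rw [abs_of_nonneg (by positivity)]
    have : 2048 * v + 1 ≤ 2 ^ 40 := by omega
    exact_mod_cast this
  have b1 := abs_mul_le (show |((2048 : ℕ) : ℤ)| ≤ 2 ^ 11 by norm_num) (v1z_bd bA)
  have b2 := abs_mul_le i0 (v1z_bd bB)
  have b4 := abs_mul_le (show |(-1 : ℤ)| ≤ 1 by norm_num) (abs_add2 b1 b2)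
  have p := pos_sound r ((abs_add2 v0 b4).trans (by decide +kernel)) h
  rw [tg, hev_vA, hev_vA]
  have p' : (2048 : ℝ) * v1z KAz + i * v1z KBz ≤ 2048 * v := by
    have : ((2048 : ℕ) : ℤ) * v1z KAz + (i : ℤ) * v1z KBz ≤ 2048 * (v : ℤ) := by
      push_cast at p ⊢
      linarith
    exact_mod_cast this
  refine le_of_mul_le_mul_left ?_ (show (0 : ℝ) < 2048 by norm_num)
  have e : (2048 : ℝ) * ((v1z KAz : ℝ) + (i : ℝ) / 2048 * v1z KBz) =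
      2048 * v1z KAz + i * v1z KBz := by ring
  rw [e]
  exact p'

theorem vB_near {K : Hm ℤ} (hK : BH (2 ^ 27) K) {α : ℝ} {a : ℕ} (h : Ap 8 5 α a) :
    |2 ^ 96 * hev (rH K) (vB α) - v2z K a| ≤ 2 ^ 86 := by
  have ha := abs_le.1 h.er
  have a0 : (0 : ℝ) ≤ a := Nat.cast_nonneg _
  have a1 : (a : ℝ) ≤ 6 * 2 ^ 48 := by have := h.hi; linarith
  have x0 : 0 ≤ 2 ^ 48 * α := by have := h.lo; positivity
  have x1 : 2 ^ 48 * α ≤ 5 * 2 ^ 48 := by have := h.hi; linarith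
  have hv : |(v1z K : ℝ)| ≤ 2 ^ 29 := by
    have := v1z_bd hK
    rw [← Int.cast_abs]
    exact_mod_cast this
  have hd : |(K.d : ℝ) - K.h| ≤ 2 ^ 28 := by
    have : |K.d - K.h| ≤ 2 ^ 28 := (abs_sub _ _).trans ((add_le_add hK.d hK.h).trans (by norm_num))
    have h2 : ((|K.d - K.h| : ℤ) : ℝ) ≤ 2 ^ 28 := by exact_mod_cast this
    push_cast at h2
    exact h2
  rw [hev_vB, v2z]
  push_cast
  have e : 2 ^ 96 * (α ^ 2 * (v1z K : ℝ) + K.b + 2 * α * ((K.d : ℝ) - K.h)) -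
      ((a : ℝ) * a * v1z K + (79228162514264337593543950336 * K.b +
        562949953421312 * a * ((K.d : ℝ) - K.h))) =
      ((2 ^ 48 * α - a) * (2 ^ 48 * α + a)) * v1z K +
        2 ^ 49 * (2 ^ 48 * α - a) * ((K.d : ℝ) - K.h) := by ring
  rw [e]
  have d1 : |2 ^ 48 * α - (a : ℝ)| ≤ 8 := by rw [abs_sub_comm]; exact h.er
  have d2 : |2 ^ 48 * α + (a : ℝ)| ≤ 11 * 2 ^ 48 := by
    rw [abs_of_nonneg (by linarith)]; linarith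
  have t1 : |((2 ^ 48 * α - (a : ℝ)) * (2 ^ 48 * α + a)) * v1z K| ≤ 8 * (11 * 2 ^ 48) * 2 ^ 29 := by
    rw [abs_mul, abs_mul]
    exact mul_le_mul (mul_le_mul d1 d2 (abs_nonneg _) (by norm_num)) hv (abs_nonneg _) (by norm_num)
  have t2 : |2 ^ 49 * (2 ^ 48 * α - (a : ℝ)) * ((K.d : ℝ) - K.h)| ≤ 2 ^ 49 * 8 * 2 ^ 28 := by
    rw [abs_mul, abs_mul, abs_of_pos (show (0 : ℝ) < 2 ^ 49 by positivity)]
    exact mul_le_mul (mul_le_mul_of_nonneg_left d1 (by positivity)) hd (abs_nonneg _) (by norm_num)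
  refine (abs_add_le _ _).trans ((add_le_add t1 t2).trans ?_)
  norm_num

theorem k2U_sound {KA KB : Hm ℕ} {KAz KBz : Hm ℤ} (hA : RH KA KAz) (hB : RH KB KBz)
    (bA : BH (2 ^ 27) KAz) (bB : BH (2 ^ 27) KBz) {i : ℕ} (hi : i ≤ 256) {l a : ℕ}
    (hl : l ≤ 2 ^ 28) (ha : a ≤ 2 ^ 51) {α : ℝ} (hα : Ap 8 5 α a)
    (h : KU.k2U i l a KA KB = true) : tg KAz KBz ((i : ℝ) / 2048) (vB α) ≤ l + 1 := by
  unfold KU.k2U at h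
  have r107 : Rp KU.p107 (2 ^ 107) := by
    have : KU.p107 = 2 ^ 107 := by decide +kernel
    rw [this]
    have := rp_nat (2 ^ 107)
    push_cast at this
    exact this
  have r := (r107.mul (rp_nat l)).add (rep_NN.mul (((rp_nat 2048).mul (v2_rep hA a)).add
    ((rp_nat i).mul (v2_rep hB a))))
  have i0 : |(i : ℤ)| ≤ 2 ^ 8 := by
    rw [abs_of_nonneg (by positivity)]
    exact_mod_cast hi
  have l0 : |(l : ℤ)| ≤ 2 ^ 28 := by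
    rw [abs_of_nonneg (by positivity)]
    exact_mod_cast hl
  have b0 := abs_mul_le (show |(2 ^ 107 : ℤ)| ≤ 2 ^ 107 by norm_num) l0
  have b1 := abs_mul_le (show |((2048 : ℕ) : ℤ)| ≤ 2 ^ 11 by norm_num) (v2z_bd bA ha)
  have b2 := abs_mul_le i0 (v2z_bd bB ha)
  have b4 := abs_mul_le (show |(-1 : ℤ)| ≤ 1 by norm_num) (abs_add2 b1 b2)
  have p := pos_sound r ((abs_add2 b0 b4).trans (by decide +kernel)) h
  have p' : (2048 : ℝ) * v2z KAz a + i * v2z KBz a < 2 ^ 107 * l := by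
    have : ((2048 : ℕ) : ℤ) * v2z KAz a + (i : ℤ) * v2z KBz a < 2 ^ 107 * (l : ℤ) := by linarith
    exact_mod_cast this
  have nA := (abs_le.1 (vB_near bA hα)).2
  have nB := (abs_le.1 (vB_near bB hα)).2
  have ir : (i : ℝ) ≤ 256 := by exact_mod_cast hi
  have ir0 : (0 : ℝ) ≤ i := Nat.cast_nonneg _
  have nB' : (i : ℝ) * (2 ^ 96 * hev (rH KBz) (vB α)) ≤ i * v2z KBz a + 256 * 2 ^ 86 := by
    have := mul_le_mul_of_nonneg_left nB ir0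
    have h3 : (i : ℝ) * 2 ^ 86 ≤ 256 * 2 ^ 86 := mul_le_mul_of_nonneg_right ir (by positivity)
    linarith
  rw [tg]
  refine le_of_mul_le_mul_left ?_ (show (0 : ℝ) < 2 ^ 107 by positivity)
  have e : (2 : ℝ) ^ 107 * (hev (rH KAz) (vB α) + (i : ℝ) / 2048 * hev (rH KBz) (vB α)) =
      2048 * (2 ^ 96 * hev (rH KAz) (vB α)) + i * (2 ^ 96 * hev (rH KBz) (vB α)) := by ring
  rw [e]
  have : (2048 : ℝ) * (2 ^ 96 * hev (rH KAz) (vB α)) ≤ 2048 * v2z KAz a + 2048 * 2 ^ 86 := by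
    linarith
  have num : (2048 : ℝ) * 2 ^ 86 + 256 * 2 ^ 86 ≤ 2 ^ 107 := by norm_num
  linarith

/-! ### the curvature -/

theorem cuL_eq (l : ℕ) (b : KT.Bx) : KU.cuL l b = ((l + 1) *
    (((b.b2 - b.a2) * (b.b2 - b.a2)) * (b.b3 * b.b3) +
      ((b.b3 - b.a3) * (b.b3 - b.a3)) * (2 ^ 96 + b.b2 * b.b2))) / 2 ^ 36 + 1 := by
  have e : KN.p96 = 2 ^ 96 := by decide +kernel
  have : KU.cuL l b = ((l + 1) *
    (((b.b2 - b.a2) * (b.b2 - b.a2)) * (b.b3 * b.b3) +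
      ((b.b3 - b.a3) * (b.b3 - b.a3)) * (KN.p96 + b.b2 * b.b2))) >>> 36 + 1 := rfl
  rw [this, e, Nat.shiftRight_eq_div_pow]

theorem cuL_le {l : ℕ} {b : KT.Bx} (hl : l ≤ 2 ^ 28) (h2 : b.b2 ≤ 2 ^ 50) (h3 : b.b3 ≤ 2 ^ 49) :
    KU.cuL l b ≤ 2 ^ 207 := by
  rw [cuL_eq]
  have a1 : b.b2 - b.a2 ≤ 2 ^ 50 := (Nat.sub_le _ _).trans h2
  have a2 : b.b3 - b.a3 ≤ 2 ^ 49 := (Nat.sub_le _ _).trans h3
  have m1 := Nat.mul_le_mul (Nat.mul_le_mul a1 a1) (Nat.mul_le_mul h3 h3)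
  have m2 := Nat.mul_le_mul (Nat.mul_le_mul a2 a2) (Nat.add_le_add_left (Nat.mul_le_mul h2 h2) (2 ^ 96))
  have m3 : l + 1 ≤ 2 ^ 29 := by
    have : 2 ^ 28 + 1 ≤ 2 ^ 29 := by norm_num
    omega
  have m4 := Nat.mul_le_mul m3 (Nat.add_le_add m1 m2)
  have m5 := Nat.div_le_div_right (c := 2 ^ 36) m4
  refine (Nat.add_le_add_right m5 1).trans ?_
  norm_num

theorem cuL_real {l : ℕ} {b : KT.Bx} (hl : l ≤ 2 ^ 28) (h2 : b.a2 ≤ b.b2) (h3 : b.a3 ≤ b.b3)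
    (k2 : b.b2 ≤ 2 ^ 50) (k3 : b.b3 ≤ 2 ^ 49) {γ0 γ1 q0 q1 : ℝ}
    (e2 : 2 ^ 48 * (γ1 - γ0) = (b.b2 : ℝ) - b.a2) (e3 : 2 ^ 48 * (q1 - q0) = (b.b3 : ℝ) - b.a3)
    (g1 : 0 ≤ γ1) (hg : 2 ^ 48 * γ1 ≤ b.b2 + 8) (hq0 : 0 ≤ q1) (hq : 2 ^ 48 * q1 ≤ b.b3) :
    2 ^ 158 * (((l : ℝ) + 1) / 4 * ((γ1 - γ0) ^ 2 * q1 ^ 2 + (q1 - q0) ^ 2 * (1 + γ1 ^ 2))) ≤
      KU.cuL l b + 2 ^ 146 := by
  have c1 : ((b.b2 - b.a2 : ℕ) : ℝ) = (b.b2 : ℝ) - b.a2 := Nat.cast_sub h2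
  have c2 : ((b.b3 - b.a3 : ℕ) : ℝ) = (b.b3 : ℝ) - b.a3 := Nat.cast_sub h3
  have hd := le_div_real ((l + 1) *
    (((b.b2 - b.a2) * (b.b2 - b.a2)) * (b.b3 * b.b3) +
      ((b.b3 - b.a3) * (b.b3 - b.a3)) * (2 ^ 96 + b.b2 * b.b2))) (2 ^ 36) (by positivity)
  have ce : ((KU.cuL l b : ℕ) : ℝ) = (((((l + 1) *
    (((b.b2 - b.a2) * (b.b2 - b.a2)) * (b.b3 * b.b3) +
      ((b.b3 - b.a3) * (b.b3 - b.a3)) * (2 ^ 96 + b.b2 * b.b2))) / 2 ^ 36 : ℕ) : ℝ) + 1) := by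
    rw [cuL_eq]; push_cast; rfl
  rw [← ce] at hd
  push_cast at hd
  rw [c1, c2, ← e2, ← e3] at hd
  set D2 : ℝ := 2 ^ 48 * (γ1 - γ0) with hD2
  set D3 : ℝ := 2 ^ 48 * (q1 - q0) with hD3
  set G : ℝ := 2 ^ 48 * γ1 with hG
  set Q : ℝ := 2 ^ 48 * q1 with hQ
  have l0 : (0 : ℝ) ≤ (l : ℝ) + 1 := by positivity
  have l1 : (l : ℝ) + 1 ≤ 2 ^ 29 := by
    have : (l : ℝ) ≤ 2 ^ 28 := by exact_mod_cast hl
    linarith
  have b2r : (b.b2 : ℝ) ≤ 2 ^ 50 := by exact_mod_cast k2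
  have b20 : (0 : ℝ) ≤ b.b2 := Nat.cast_nonneg _
  have b3r : (b.b3 : ℝ) ≤ 2 ^ 49 := by exact_mod_cast k3
  have a30 : (0 : ℝ) ≤ b.a3 := Nat.cast_nonneg _
  have D3a : 0 ≤ D3 := by
    rw [e3]
    have : (b.a3 : ℝ) ≤ b.b3 := by exact_mod_cast h3
    linarith
  have D3b : D3 ≤ 2 ^ 49 := by rw [e3]; linarith
  have G0 : 0 ≤ G := mul_nonneg (by norm_num) g1
  have Q0 : 0 ≤ Q := mul_nonneg (by norm_num) hq0
  have GG : G * G ≤ (b.b2 : ℝ) * b.b2 + 2 ^ 55 := by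
    have h1 : G * G ≤ ((b.b2 : ℝ) + 8) * (b.b2 + 8) := mul_le_mul hg hg G0 (by linarith)
    nlinarith
  have QQ : Q * Q ≤ (b.b3 : ℝ) * b.b3 := mul_le_mul hq hq Q0 (Q0.trans hq)
  have e : 2 ^ 158 * (((l : ℝ) + 1) / 4 * ((γ1 - γ0) ^ 2 * q1 ^ 2 + (q1 - q0) ^ 2 * (1 + γ1 ^ 2))) =
      ((l : ℝ) + 1) * (D2 * D2 * (Q * Q) + D3 * D3 * (2 ^ 96 + G * G)) / 2 ^ 36 := by
    rw [hD2, hD3, hG, hQ]; ring
  rw [e, div_le_iff₀ (by positivity)]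
  have m1 : D2 * D2 * (Q * Q) ≤ D2 * D2 * ((b.b3 : ℝ) * b.b3) :=
    mul_le_mul_of_nonneg_left QQ (mul_self_nonneg _)
  have m2 : D3 * D3 * (2 ^ 96 + G * G) ≤ D3 * D3 * (2 ^ 96 + (b.b2 : ℝ) * b.b2) +
      D3 * D3 * 2 ^ 55 := by
    have := mul_le_mul_of_nonneg_left GG (mul_self_nonneg D3)
    linarith
  have m3 : D3 * D3 ≤ 2 ^ 49 * 2 ^ 49 := mul_le_mul D3b D3b D3a (by norm_num)
  have m4 : ((l : ℝ) + 1) * (D3 * D3 * 2 ^ 55) ≤ 2 ^ 29 * (2 ^ 49 * 2 ^ 49 * 2 ^ 55) :=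
    mul_le_mul l1 (mul_le_mul_of_nonneg_right m3 (by norm_num))
      (mul_nonneg (mul_self_nonneg _) (by norm_num)) (by norm_num)
  have m5 := mul_le_mul_of_nonneg_left (add_le_add m1 m2) l0
  have num : (2 : ℝ) ^ 29 * (2 ^ 49 * 2 ^ 49 * 2 ^ 55) = 2 ^ 146 * 2 ^ 36 := by norm_num
  rw [num] at m4
  linarith

theorem cuV_eq (v : ℕ) (b : KT.Bx) : KU.cuV v b = (v *
    (((b.b1 - b.a1) * (b.b1 - b.a1)) * ((b.b3 * b.b3) * (2 ^ 96 + b.b2 * b.b2)))) / 2 ^ 131 + 1 := by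
  have e : KN.p96 = 2 ^ 96 := by decide +kernel
  have : KU.cuV v b = (v *
    (((b.b1 - b.a1) * (b.b1 - b.a1)) * ((b.b3 * b.b3) * (KN.p96 + b.b2 * b.b2)))) >>> 131 + 1 := rfl
  rw [this, e, Nat.shiftRight_eq_div_pow]

theorem cuV_le {v : ℕ} {b : KT.Bx} (hv : v ≤ 2 ^ 28) (h1 : b.b1 ≤ 2 ^ 51) (h2 : b.b2 ≤ 2 ^ 50)
    (h3 : b.b3 ≤ 2 ^ 49) : KU.cuV v b ≤ 2 ^ 207 := by
  rw [cuV_eq]
  have a1 : b.b1 - b.a1 ≤ 2 ^ 51 := (Nat.sub_le _ _).trans h1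
  have m1 := Nat.mul_le_mul (Nat.mul_le_mul a1 a1) (Nat.mul_le_mul (Nat.mul_le_mul h3 h3)
    (Nat.add_le_add_left (Nat.mul_le_mul h2 h2) (2 ^ 96)))
  have m4 := Nat.mul_le_mul hv m1
  have m5 := Nat.div_le_div_right (c := 2 ^ 131) m4
  refine (Nat.add_le_add_right m5 1).trans ?_
  norm_num

theorem cbU_eq (v : ℕ) (b : KT.Bx) : KU.cbU v b =
    2 ^ 61 * (v * ((b.b1 - b.a1) * (b.b1 - b.a1))) := by
  have e : KU.o61 = 2 ^ 61 := by decide +kernel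
  rw [← e]; rfl

theorem cbU_le {v : ℕ} {b : KT.Bx} (hv : v ≤ 2 ^ 28) (h1 : b.b1 ≤ 2 ^ 51) :
    KU.cbU v b ≤ 2 ^ 200 := by
  rw [cbU_eq]
  have a1 : b.b1 - b.a1 ≤ 2 ^ 51 := (Nat.sub_le _ _).trans h1
  have m1 := Nat.mul_le_mul_left (2 ^ 61) (Nat.mul_le_mul hv (Nat.mul_le_mul a1 a1))
  exact m1.trans (by norm_num)

theorem cuV_real {v : ℕ} {b : KT.Bx} (hv : v ≤ 2 ^ 28) (h1 : b.a1 ≤ b.b1)
    (k1 : b.b1 ≤ 2 ^ 51) (k2 : b.b2 ≤ 2 ^ 50) (k3 : b.b3 ≤ 2 ^ 49) {α0 α1 γ1 q1 : ℝ}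
    (e1 : 2 ^ 48 * (α1 - α0) = (b.b1 : ℝ) - b.a1)
    (g1 : 0 ≤ γ1) (hg : 2 ^ 48 * γ1 ≤ b.b2 + 8) (hq0 : 0 ≤ q1) (hq : 2 ^ 48 * q1 ≤ b.b3) :
    2 ^ 158 * ((v : ℝ) / 2 * ((α1 - α0) ^ 2 * (q1 ^ 2 * (1 + γ1 ^ 2)))) ≤
      KU.cuV v b + 2 ^ 152 := by
  have c1 : ((b.b1 - b.a1 : ℕ) : ℝ) = (b.b1 : ℝ) - b.a1 := Nat.cast_sub h1
  have hd := le_div_real (v *
    (((b.b1 - b.a1) * (b.b1 - b.a1)) * ((b.b3 * b.b3) * (2 ^ 96 + b.b2 * b.b2)))) (2 ^ 131)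
    (by positivity)
  have ce : ((KU.cuV v b : ℕ) : ℝ) = ((((v *
    (((b.b1 - b.a1) * (b.b1 - b.a1)) * ((b.b3 * b.b3) * (2 ^ 96 + b.b2 * b.b2)))) / 2 ^ 131 : ℕ) : ℝ)
      + 1) := by
    rw [cuV_eq]; push_cast; rfl
  rw [← ce] at hd
  push_cast at hd
  rw [c1, ← e1] at hd
  set D1 : ℝ := 2 ^ 48 * (α1 - α0) with hD1
  set G : ℝ := 2 ^ 48 * γ1 with hG
  set Q : ℝ := 2 ^ 48 * q1 with hQ
  have v0 : (0 : ℝ) ≤ (v : ℝ) := Nat.cast_nonneg _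
  have v1 : (v : ℝ) ≤ 2 ^ 28 := by exact_mod_cast hv
  have b2r : (b.b2 : ℝ) ≤ 2 ^ 50 := by exact_mod_cast k2
  have b20 : (0 : ℝ) ≤ b.b2 := Nat.cast_nonneg _
  have b3r : (b.b3 : ℝ) ≤ 2 ^ 49 := by exact_mod_cast k3
  have b30 : (0 : ℝ) ≤ b.b3 := Nat.cast_nonneg _
  have b1r : (b.b1 : ℝ) ≤ 2 ^ 51 := by exact_mod_cast k1
  have a10 : (0 : ℝ) ≤ b.a1 := Nat.cast_nonneg _
  have D1a : 0 ≤ D1 := by
    rw [e1]
    have : (b.a1 : ℝ) ≤ b.b1 := by exact_mod_cast h1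
    linarith
  have D1b : D1 ≤ 2 ^ 51 := by rw [e1]; linarith
  have G0 : 0 ≤ G := mul_nonneg (by norm_num) g1
  have Q0 : 0 ≤ Q := mul_nonneg (by norm_num) hq0
  have GG : 2 ^ 96 + G * G ≤ 2 ^ 96 + (b.b2 : ℝ) * b.b2 + 2 ^ 55 := by
    have h1 : G * G ≤ ((b.b2 : ℝ) + 8) * (b.b2 + 8) := mul_le_mul hg hg G0 (by linarith)
    nlinarith
  have QQ : Q * Q ≤ (b.b3 : ℝ) * b.b3 := mul_le_mul hq hq Q0 (Q0.trans hq)
  have e : 2 ^ 158 * ((v : ℝ) / 2 * ((α1 - α0) ^ 2 * (q1 ^ 2 * (1 + γ1 ^ 2)))) =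
      (v : ℝ) * (D1 * D1 * ((Q * Q) * (2 ^ 96 + G * G))) / 2 ^ 131 := by
    rw [hD1, hG, hQ]; ring
  rw [e, div_le_iff₀ (by positivity)]
  have m0 : (0 : ℝ) ≤ (b.b3 : ℝ) * b.b3 := mul_nonneg b30 b30
  have m1 : (Q * Q) * (2 ^ 96 + G * G) ≤
      ((b.b3 : ℝ) * b.b3) * (2 ^ 96 + (b.b2 : ℝ) * b.b2 + 2 ^ 55) :=
    mul_le_mul QQ GG (add_nonneg (by norm_num) (mul_nonneg G0 G0)) m0
  have m2 := mul_le_mul_of_nonneg_left (mul_le_mul_of_nonneg_left m1 (mul_self_nonneg D1)) v0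
  have m3 : D1 * D1 ≤ 2 ^ 51 * 2 ^ 51 := mul_le_mul D1b D1b D1a (by norm_num)
  have m5 : (b.b3 : ℝ) * b.b3 ≤ 2 ^ 49 * 2 ^ 49 := mul_le_mul b3r b3r b30 (by norm_num)
  have m6 : D1 * D1 * (((b.b3 : ℝ) * b.b3) * 2 ^ 55) ≤
      2 ^ 51 * 2 ^ 51 * ((2 ^ 49 * 2 ^ 49) * 2 ^ 55) :=
    mul_le_mul m3 (mul_le_mul_of_nonneg_right m5 (by norm_num))
      (mul_nonneg m0 (by norm_num)) (by norm_num)
  have m4 : (v : ℝ) * (D1 * D1 * (((b.b3 : ℝ) * b.b3) * 2 ^ 55)) ≤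
      2 ^ 28 * (2 ^ 51 * 2 ^ 51 * ((2 ^ 49 * 2 ^ 49) * 2 ^ 55)) :=
    mul_le_mul v1 m6 (mul_nonneg (mul_self_nonneg _) (mul_nonneg m0 (by norm_num))) (by norm_num)
  have num : (2 : ℝ) ^ 28 * (2 ^ 51 * 2 ^ 51 * ((2 ^ 49 * 2 ^ 49) * 2 ^ 55)) = 2 ^ 152 * 2 ^ 131 := by
    norm_num
  rw [num] at m4
  linarith

theorem cbU_real {v : ℕ} {b : KT.Bx} (h1 : b.a1 ≤ b.b1) {α0 α1 : ℝ}
    (e1 : 2 ^ 48 * (α1 - α0) = (b.b1 : ℝ) - b.a1) :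
    2 ^ 158 * ((v : ℝ) / 2 * (α1 - α0) ^ 2) = KU.cbU v b := by
  have c1 : ((b.b1 - b.a1 : ℕ) : ℝ) = (b.b1 : ℝ) - b.a1 := Nat.cast_sub h1
  rw [cbU_eq]
  push_cast
  rw [c1, ← e1]
  ring

end Pool.Agent.Helper94.CXT
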