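import Pool.Agent.Helper94.CXT.UT4

/-!
Far cells of tail classes, row UUT: SOUNDNESS OF `uuT`.
-/

set_option autoImplicit false
set_option exponentiation.threshold 4000
noncomputable section
namespace Pool.Agent.Helper94.CXT

open Pool.Agent.Helper86.CX renaming Hm → Hm, ev → hev
open Pool.Agent.Helper94.CXF (M9)
open Pool.Agent.Helper94.CXF
open Pool.Agent.Helper94.CXF.SD
open Pool.Agent.Helper94.CXF.SD.UUX
open Pool.Agent.Helper48.CXT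
open Complex ComplexConjugate

theorem beq_cases (a b : ℕ) : (a = b ∧ Nat.beq a b = true) ∨ (a ≠ b ∧ Nat.beq a b = false) := by
  by_cases hab : a = b
  · left
    exact ⟨hab, by rw [Nat.beq_eq]; exact hab⟩
  · right
    refine ⟨hab, ?_⟩
    cases hh : Nat.beq a b
    · rfl
    · rw [Nat.beq_eq] at hh
      exact absurd hh hab

theorem Lb.gsq {a b : ℕ} {v : ℝ} (h : Lb a b v) {b' : ℕ}
    (hb' : b' = Bool.rec (motive := fun _ => Nat) (Nat.succ (KT.su (KN.mu b b)))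
      (KT.su (KN.mu a a)) (Nat.beq a b)) :
    (KT.su (KN.mu a a) = b' ∧ |((KT.su (KN.mu a a) : ℕ) : ℝ) - 2 ^ 48 * (v ^ 2 - 1)| ≤ 8) ∨
      (((KT.su (KN.mu a a) : ℕ) : ℝ) ≤ 2 ^ 48 * (v ^ 2 - 1) ∧ 2 ^ 48 * (v ^ 2 - 1) ≤ b') := by
  have ma := mu_ge h.a1
  have mb := mu_ge (h.a1.trans h.ab)
  have s := h.sq (b' := Bool.rec (motive := fun _ => Nat) (Nat.succ (KN.mu b b)) (KN.mu a a)
      (Nat.beq a b)) rfl
  rw [su_real ma]
  have e : 2 ^ 48 * (v ^ 2 - 1) = 2 ^ 48 * v ^ 2 - 2 ^ 48 := by ring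
  rw [e]
  rcases beq_cases a b with ⟨hab, hb⟩ | ⟨hab, hb⟩
  · rw [hb] at s hb'
    left
    refine ⟨hb'.symm, ?_⟩
    have e2 : ((KN.mu a a : ℕ) : ℝ) - 2 ^ 48 - (2 ^ 48 * v ^ 2 - 2 ^ 48) =
        (KN.mu a a : ℕ) - 2 ^ 48 * v ^ 2 := by ring
    rw [e2]
    rcases s with ⟨_, s⟩ | ⟨s1, s2⟩
    · exact s
    · have s2 : 2 ^ 48 * v ^ 2 ≤ ((KN.mu a a : ℕ) : ℝ) := s2
      exact abs_le.2 ⟨by linarith, by linarith⟩
  · rw [hb] at s hb'
    right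
    have hb2 : ((b' : ℕ) : ℝ) = ((Nat.succ (KN.mu b b) : ℕ) : ℝ) - 2 ^ 48 := by
      rw [hb']
      change (((KT.su (KN.mu b b)) + 1 : ℕ) : ℝ) = (((KN.mu b b) + 1 : ℕ) : ℝ) - 2 ^ 48
      push_cast [su_real mb]
      ring
    rw [hb2]
    rcases s with ⟨s1, s2⟩ | ⟨s1, s2⟩
    · have s1 : KN.mu a a = Nat.succ (KN.mu b b) := s1
      have : KN.mu a a ≤ KN.mu b b := by
        rw [mu_eq, mu_eq]
        exact Nat.div_le_div_right (Nat.mul_le_mul h.ab h.ab)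
      omega
    · have s2 : 2 ^ 48 * v ^ 2 ≤ ((Nat.succ (KN.mu b b) : ℕ) : ℝ) := s2
      exact ⟨by linarith, by linarith⟩

theorem p192_eq : KT.p192 = 2 ^ 192 := by decide +kernel

theorem q_sound {b : KT.Bx} {k h g : ℝ} (hk : Lb b.a1 b.b1 k) (hh : Lb b.a2 b.b2 h)
    (hg : Lb b.a3 b.b3 g) :
    (((KU.dvV b).a3 : ℕ) : ℝ) ≤ 2 ^ 48 * (1 / (k * h * g)) ∧
      2 ^ 48 * (1 / (k * h * g)) ≤ ((KU.dvV b).b3 : ℕ) := by
  have k0 : 0 < k := by linarith [hk.lo]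
  have h0 : 0 < h := by linarith [hh.lo]
  have g0 : 0 < g := by linarith [hg.lo]
  have P0 : 0 < k * h * g := by positivity
  have e3 : (KU.dvV b).a3 = KT.p192 / ((b.b1 + 1) * ((b.b2 + 1) * (b.b3 + 1))) := rfl
  have f3 : (KU.dvV b).b3 = KT.p192 / ((b.a1 - 1) * ((b.a2 - 1) * (b.a3 - 1))) + 1 := rfl
  have eP : (2 ^ 48 * k) * ((2 ^ 48 * h) * (2 ^ 48 * g)) = 2 ^ 144 * (k * h * g) := by ring
  constructor
  · rw [e3, p192_eq]
    have dpos : 0 < (b.b1 + 1) * ((b.b2 + 1) * (b.b3 + 1)) := by positivity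
    have h1 := div_le_real (2 ^ 192) _ dpos
    have h2 : (2 ^ 48 * k) * ((2 ^ 48 * h) * (2 ^ 48 * g)) ≤
        ((b.b1 : ℝ) + 1) * (((b.b2 : ℝ) + 1) * ((b.b3 : ℝ) + 1)) :=
      mul_le_mul hk.hi' (mul_le_mul hh.hi' hg.hi' (by positivity) (by positivity)) (by positivity)
        (by positivity)
    rw [eP] at h2
    have h3 : (((2 ^ 192 / ((b.b1 + 1) * ((b.b2 + 1) * (b.b3 + 1))) : ℕ)) : ℝ) *
        (2 ^ 144 * (k * h * g)) ≤ 2 ^ 192 := by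
      refine (mul_le_mul_of_nonneg_left h2 (Nat.cast_nonneg _)).trans ?_
      rw [Nat.cast_mul, Nat.cast_mul, Nat.cast_pow, Nat.cast_ofNat, Nat.cast_add, Nat.cast_add,
        Nat.cast_add, Nat.cast_one] at h1
      exact h1
    generalize (((2 ^ 192 / ((b.b1 + 1) * ((b.b2 + 1) * (b.b3 + 1))) : ℕ)) : ℝ) = N at *
    rw [mul_one_div, le_div_iff₀ P0]
    have h4 : (2 : ℝ) ^ 192 = 2 ^ 144 * 2 ^ 48 := by norm_num
    rw [h4] at h3
    have h5 : 2 ^ 144 * (N * (k * h * g)) ≤ 2 ^ 144 * 2 ^ 48 := by linarith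
    exact le_of_mul_le_mul_left h5 (by positivity)
  · rw [f3, p192_eq]
    have p1 : 0 < b.a1 - 1 := by have := hk.a1; omega
    have p2 : 0 < b.a2 - 1 := by have := hh.a1; omega
    have p3 : 0 < b.a3 - 1 := by have := hg.a1; omega
    have dpos : 0 < (b.a1 - 1) * ((b.a2 - 1) * (b.a3 - 1)) := by positivity
    have h1 := le_div_real (2 ^ 192) _ dpos
    have c1 : ((b.a1 - 1 : ℕ) : ℝ) = (b.a1 : ℝ) - 1 := by
      rw [Nat.cast_sub (by have := hk.a1; omega)]; norm_num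
    have c2 : ((b.a2 - 1 : ℕ) : ℝ) = (b.a2 : ℝ) - 1 := by
      rw [Nat.cast_sub (by have := hh.a1; omega)]; norm_num
    have c3 : ((b.a3 - 1 : ℕ) : ℝ) = (b.a3 : ℝ) - 1 := by
      rw [Nat.cast_sub (by have := hg.a1; omega)]; norm_num
    have a1 : ((b.a1 - 1 : ℕ) : ℝ) ≤ 2 ^ 48 * k := by rw [c1]; linarith [hk.lo']
    have a2 : ((b.a2 - 1 : ℕ) : ℝ) ≤ 2 ^ 48 * h := by rw [c2]; linarith [hh.lo']
    have a3 : ((b.a3 - 1 : ℕ) : ℝ) ≤ 2 ^ 48 * g := by rw [c3]; linarith [hg.lo']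
    have h2 : ((b.a1 - 1 : ℕ) : ℝ) * (((b.a2 - 1 : ℕ) : ℝ) * ((b.a3 - 1 : ℕ) : ℝ)) ≤
        (2 ^ 48 * k) * ((2 ^ 48 * h) * (2 ^ 48 * g)) :=
      mul_le_mul a1 (mul_le_mul a2 a3 (Nat.cast_nonneg _) (by positivity)) (by positivity)
        (by positivity)
    rw [eP] at h2
    have h3 : (2 : ℝ) ^ 192 ≤ ((((2 ^ 192 / ((b.a1 - 1) * ((b.a2 - 1) * (b.a3 - 1))) : ℕ)) : ℝ) + 1) *
        (2 ^ 144 * (k * h * g)) := by
      refine le_trans ?_ (mul_le_mul_of_nonneg_left h2 (by positivity))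
      have h1' : (((2 ^ 192 : ℕ)) : ℝ) ≤ ((((2 ^ 192 / ((b.a1 - 1) * ((b.a2 - 1) * (b.a3 - 1))) : ℕ)) : ℝ) + 1) *
        ((((b.a1 - 1) * ((b.a2 - 1) * (b.a3 - 1)) : ℕ)) : ℝ) := h1
      rw [Nat.cast_mul, Nat.cast_mul, Nat.cast_pow, Nat.cast_ofNat] at h1'
      exact h1'
    have e1 : (((2 ^ 192 / ((b.a1 - 1) * ((b.a2 - 1) * (b.a3 - 1))) + 1 : ℕ)) : ℝ) =
      (((2 ^ 192 / ((b.a1 - 1) * ((b.a2 - 1) * (b.a3 - 1))) : ℕ)) : ℝ) + 1 := by
      rw [Nat.cast_add, Nat.cast_one]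
    rw [e1]
    generalize (((2 ^ 192 / ((b.a1 - 1) * ((b.a2 - 1) * (b.a3 - 1))) : ℕ)) : ℝ) = N at *
    rw [mul_one_div, div_le_iff₀ P0]
    have h4 : (2 : ℝ) ^ 192 = 2 ^ 144 * 2 ^ 48 := by norm_num
    rw [h4] at h3
    have h5 : 2 ^ 144 * 2 ^ 48 ≤ 2 ^ 144 * ((N + 1) * (k * h * g)) := by linarith
    exact le_of_mul_le_mul_left h5 (by positivity)

theorem q_hi {b : KT.Bx} {k h g : ℝ} (hk : Lb b.a1 b.b1 k) (hh : Lb b.a2 b.b2 h)
    (hg : Lb b.a3 b.b3 g) : (KU.dvV b).b3 ≤ 2 ^ 49 := by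
  have f3 : (KU.dvV b).b3 = KT.p192 / ((b.a1 - 1) * ((b.a2 - 1) * (b.a3 - 1))) + 1 := rfl
  rw [f3, p192_eq]
  have p1 : 2 ^ 48 - 1 ≤ b.a1 - 1 := Nat.sub_le_sub_right hk.a1 1
  have p2 : 2 ^ 48 - 1 ≤ b.a2 - 1 := Nat.sub_le_sub_right hh.a1 1
  have p3 : 2 ^ 48 - 1 ≤ b.a3 - 1 := Nat.sub_le_sub_right hg.a1 1
  have m := Nat.mul_le_mul p1 (Nat.mul_le_mul p2 p3)
  have h1 : 2 ^ 192 / ((b.a1 - 1) * ((b.a2 - 1) * (b.a3 - 1))) ≤
      2 ^ 192 / ((2 ^ 48 - 1) * ((2 ^ 48 - 1) * (2 ^ 48 - 1))) :=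
    Nat.div_le_div_left m (by norm_num)
  have h2 : 2 ^ 192 / ((2 ^ 48 - 1) * ((2 ^ 48 - 1) * (2 ^ 48 - 1))) + 1 ≤ 2 ^ 49 := by norm_num
  omega

theorem ap_TUm (k h g : ℝ) (hk : k ≠ 0) (hh : h ≠ 0) (hg : g ≠ 0) (e : ℂ) (x : Fin 3 → ℂ) :
    ap (TUm k h g) e x = ((k * h * g : ℝ) : ℂ) •
      ap (TU0 (k ^ 2), TU1 (k ^ 2) (g ^ 2 - 1) (1 / (k * h * g))) e x := by
  have k' : (k : ℂ) ≠ 0 := by exact_mod_cast hk
  have h' : (h : ℂ) ≠ 0 := by exact_mod_cast hh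
  have g' : (g : ℂ) ≠ 0 := by exact_mod_cast hg
  rw [ap_TU, ap_eq]
  funext j
  fin_cases j
  · simp [ap1_0, TUm]
    field_simp
    ring
  · simp [ap1_1, TUm]
    field_simp
    ring
  · simp [ap1_2, TUm]
    field_simp
    ring

/-- the last index of a list of chords -/
theorem chs_e {xc : ℝ} {ns : List KN.Nd} {f : KN.Nd → KN.Nd → ℕ → Bool} {e : ℕ}
    (hns : ∀ n ∈ ns, Ndd xc n) (hfi : ∀ k0 k1 l, f k0 k1 l = true → k0.i < k1.i) :
    ∀ (c : List ℕ) (k : KN.Nd), Ndd xc k → KN.chs ns f e c k = true → e ≤ 256 := by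
  intro c
  induction c with
  | nil =>
    intro k hk h
    have h' : Nat.beq k.i e = true := h
    rw [Nat.beq_eq] at h'
    obtain ⟨v, hv⟩ := hk
    have := hv.cv.s1
    have : (k.i : ℝ) ≤ 256 := by linarith
    rw [← h']
    exact_mod_cast this
  | cons x c ih =>
    intro k hk h
    have h' : KN.andB (f k (KN.nthN ns (Nat.mod x 64)) (Nat.div x 64))
      (KN.chs ns f e c (KN.nthN ns (Nat.mod x 64))) = true := h
    rw [andB_iff] at h'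
    obtain ⟨a, b⟩ := h'
    exact ih _ (hns _ (nthN_lt (hfi _ _ _ a))) b

theorem E_alpha {b : KT.Bx} {k : ℝ} (hk : Lb b.a1 b.b1 k) :
    ∃ v0 v1 t, Ends 8 (KU.dvV b).a1 (KU.dvV b).b1 (k ^ 2) v0 v1 t := by
  have e1 : (KU.dvV b).a1 = KN.mu b.a1 b.a1 := rfl
  have h := hk.sq (b' := (KU.dvV b).b1) rfl
  rw [← e1] at h
  exact ends_of (by norm_num) h

theorem dvV_2 (b : KT.Bx) : (KU.dvV b).a2 = KT.su (KN.mu b.a3 b.a3) ∧
    (KU.dvV b).b2 = Bool.rec (motive := fun _ => Nat) (Nat.succ (KT.su (KN.mu b.b3 b.b3)))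
      (KT.su (KN.mu b.a3 b.a3)) (Nat.beq b.a3 b.b3) := by
  simp only [KU.dvV, and_self]

theorem E_gamma {b : KT.Bx} {g : ℝ} (hg : Lb b.a3 b.b3 g) :
    ∃ v0 v1 t, Ends 8 (KU.dvV b).a2 (KU.dvV b).b2 (g ^ 2 - 1) v0 v1 t := by
  obtain ⟨e1, e2⟩ := dvV_2 b
  have h := hg.gsq e2
  rw [← e1] at h
  exact ends_of (by norm_num) h

/-- ROW UUT, first half -/
theorem uuT_sound {xc x0 s : ℝ} {u : ℂ} {X : KT.Cx} (hX : CxOk xc X) (hI : InX xc X x0 s u)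
    {A B HA HB : ℕ} {b : KT.Bx} {t : KU.LUT} {k h g : ℝ} (hk : Lb b.a1 b.b1 k)
    (hh : Lb b.a2 b.b2 h) (hg : Lb b.a3 b.b3 g) (oA : OkA (decz A)) (oHA : OkA (decz HA))
    (oB : OkB (decz B)) (hd : (decz A).d = (decz HA).d) (he : (decz A).e = (decz HA).e)
    (hn : NegS (rH (decz A))) (H : KU.uuT X A B HA HB b t = true) (x : Fin 3 → ℂ) (hx : x 0 ≠ 0)
    (hs : 0 ≤ hev (rH (decz HA)) x + s * hev (rH (decz HB)) x) :
    0 ≤ hev (rH (decz A)) (ap (TUm k h g) (s * u) x) +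
        s * hev (rH (decz B)) (ap (TUm k h g) (s * u) x) ∧ ap (TUm k h g) (s * u) x 0 ≠ 0 := by
  have s0 := hI.cv.s0
  have s8 := hI.cv.s1
  have k0 : 0 < k := by linarith [hk.lo]
  have h0 : 0 < h := by linarith [hh.lo]
  have g0 : 0 < g := by linarith [hg.lo]
  have k2a : 1 ≤ k ^ 2 := by nlinarith [hk.lo]
  have k2b : k ^ 2 ≤ 5 := by nlinarith [hk.lo, hk.hi]
  have g2a : 0 ≤ g ^ 2 - 1 := by nlinarith [hg.lo]
  have g2b : g ^ 2 - 1 ≤ 4 := by nlinarith [hg.lo, hg.hi]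
  have ss : s ^ 2 ≤ s / 8 := by nlinarith
  unfold KU.uuT KU.uU1 at H
  simp only [andB_iff] at H
  obtain ⟨⟨tb, ka1, kb1⟩, hl2, hcor⟩ := H
  have tlv : t.l ≤ 2 ^ 28 ∧ t.v ≤ 2 ^ 28 := by
    unfold KU.bn8 at tb
    simp only [andB_iff] at tb
    obtain ⟨_, _, _, _, _, _, _, tl, tv⟩ := tb
    have o : KT.o28 = 2 ^ 28 := by decide +kernel
    rw [← o]
    exact ⟨Nat.le_of_ble_eq_true tl, Nat.le_of_ble_eq_true tv⟩
  obtain ⟨tl, tv⟩ := tlv
  have hXi : X.k.i ≤ 256 := by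
    obtain ⟨v, hv⟩ := hX.st
    have := hv.cv.s1
    have : (X.k.i : ℝ) ≤ 256 := by linarith
    exact_mod_cast this
  set b' := KU.dvV b with hb'
  have hXe : X.e ≤ 256 := by
    obtain ⟨i, hi⟩ := cor_sound hcor false false false
    unfold KU.cU1 KU.cU2 at hi
    simp only [andB_iff] at hi
    obtain ⟨_, _, _, _, _, _, _, hc⟩ := hi
    refine chs_e hX.ns ?_ _ _ hX.st hc
    intro k0 k1 l hc
    unfold KU.c8T at hc
    simp only [andB_iff] at hc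
    exact Nat.le_of_ble_eq_true hc.1
  -- the parameters
  obtain ⟨α0, α1, t1, E1⟩ := E_alpha hk
  obtain ⟨γ0, γ1, t2, E2⟩ := E_gamma hg
  rw [← hb'] at E1 E2
  obtain ⟨qs1, qs2⟩ := q_sound hk hh hg
  obtain ⟨q0, q1, t3, E3⟩ := ends_of (r := 0) (a := b'.a3) (b := b'.b3)
    (v := 1 / (k * h * g)) le_rfl (Or.inr ⟨qs1, qs2⟩)
  have a1ge : 2 ^ 48 ≤ b'.a1 := mu_ge hk.a1
  have ab1 : b'.a1 ≤ b'.b1 := by
    have := E1.le
    have e := E1.d
    have : (b'.a1 : ℝ) ≤ b'.b1 := by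
      have : 0 ≤ (2 : ℝ) ^ 48 * (α1 - α0) := mul_nonneg (by norm_num) (by linarith)
      linarith
    exact_mod_cast this
  have ab2 : b'.a2 ≤ b'.b2 := by
    have := E2.le
    have e := E2.d
    have : (b'.a2 : ℝ) ≤ b'.b2 := by
      have : 0 ≤ (2 : ℝ) ^ 48 * (γ1 - γ0) := mul_nonneg (by norm_num) (by linarith)
      linarith
    exact_mod_cast this
  have ab3 : b'.a3 ≤ b'.b3 := by
    have := E3.le
    have e := E3.d
    have : (b'.a3 : ℝ) ≤ b'.b3 := by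
      have : 0 ≤ (2 : ℝ) ^ 48 * (q1 - q0) := mul_nonneg (by norm_num) (by linarith)
      linarith
    exact_mod_cast this
  have b1le : b'.b1 ≤ 2 ^ 50 + 1 := by
    have m1 := mu_le_nat hk.b1
    have m2 := mu_le_nat (hk.ab.trans hk.b1)
    change (Bool.rec (motive := fun _ => Nat) (Nat.succ (KN.mu b.b1 b.b1)) (KN.mu b.a1 b.a1)
      (Nat.beq b.a1 b.b1) : ℕ) ≤ 2 ^ 50 + 1
    rcases beq_cases b.a1 b.b1 with ⟨_, hb⟩ | ⟨_, hb⟩
    · rw [hb]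
      exact m2.trans (Nat.le_succ _)
    · rw [hb]
      exact Nat.succ_le_succ m1
  have b2le : b'.b2 ≤ 2 ^ 50 := by
    have m1 := mu_le_nat hg.b1
    have m2 := mu_le_nat (hg.ab.trans hg.b1)
    have e : ∀ n : ℕ, KT.su n = n - 2 ^ 48 := fun _ => rfl
    change (Bool.rec (motive := fun _ => Nat) (Nat.succ (KT.su (KN.mu b.b3 b.b3)))
      (KT.su (KN.mu b.a3 b.a3)) (Nat.beq b.a3 b.b3) : ℕ) ≤ 2 ^ 50
    rcases beq_cases b.a3 b.b3 with ⟨_, hb⟩ | ⟨_, hb⟩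
    · rw [hb]
      change KT.su (KN.mu b.a3 b.a3) ≤ 2 ^ 50
      rw [e]; omega
    · rw [hb]
      change KT.su (KN.mu b.b3 b.b3) + 1 ≤ 2 ^ 50
      rw [e]; omega
  have b3le : b'.b3 ≤ 2 ^ 49 := q_hi hk hh hg
  have b1r : (b'.b1 : ℝ) ≤ 5 * 2 ^ 48 := by
    have : (b'.b1 : ℝ) ≤ 2 ^ 50 + 1 := by exact_mod_cast b1le
    refine this.trans ?_
    norm_num
  have b2r : (b'.b2 : ℝ) ≤ 4 * 2 ^ 48 := by
    have : (b'.b2 : ℝ) ≤ 2 ^ 50 := by exact_mod_cast b2le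
    refine this.trans ?_
    norm_num
  have b3r : (b'.b3 : ℝ) ≤ 2 * 2 ^ 48 := by
    have : (b'.b3 : ℝ) ≤ 2 ^ 49 := by exact_mod_cast b3le
    refine this.trans ?_
    norm_num
  have P1 : 1 ≤ k * h * g := by
    have := mul_le_mul hk.lo hh.lo zero_le_one (by linarith [hk.lo])
    have := mul_le_mul this hg.lo zero_le_one (by positivity)
    linarith
  have qa : 0 ≤ 1 / (k * h * g) := by positivity
  have qb : 1 / (k * h * g) ≤ 2 := by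
    rw [div_le_iff₀ (by positivity)]
    linarith
  have aa : (1 : ℝ) * 2 ^ 48 ≤ b'.a1 := by
    rw [one_mul]
    exact_mod_cast a1ge
  obtain ⟨A0, A1⟩ := E1.lo k2a aa
  obtain ⟨G0, G1⟩ := E2.lo g2a (by rw [zero_mul]; exact Nat.cast_nonneg _)
  obtain ⟨Q0, Q1⟩ := E3.lo qa (by rw [zero_mul]; exact Nat.cast_nonneg _)
  have apA := E1.ap (by linarith) k2b b1r
  have apG := E2.ap g2a g2b b2r
  have apQ := E3.ap qa qb b3r
  -- the form in the special directions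
  have cA : tg (decz A) (decz B) s vA ≤ t.v := by
    have h1 := k1U_sound (dec_rep A) (dec_rep B) (dec_bd A) (dec_bd B) hXi tv ka1
    have h2 := k1U_sound (dec_rep A) (dec_rep B) (dec_bd A) (dec_bd B) hXe tv kb1
    exact aff_le hI.s0 hI.s1 h1 h2 le_rfl
  have cB : ∀ c : Bool, tg (decz A) (decz B) s (vB (if c then α1 else α0)) ≤ (t.l : ℝ) + 1 := by
    intro c
    obtain ⟨_, hl3⟩ := lev_sound hl2 c
    rw [andB_iff] at hl3
    have hsl : sl b'.a1 b'.b1 c ≤ 2 ^ 51 := by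
      have : 2 ^ 50 + 1 ≤ 2 ^ 51 := by norm_num
      cases c
      · exact (ab1.trans b1le).trans this
      · exact b1le.trans this
    have h1 := k2U_sound (dec_rep A) (dec_rep B) (dec_bd A) (dec_bd B) hXi tl hsl (apA c) hl3.1
    have h2 := k2U_sound (dec_rep A) (dec_rep B) (dec_bd A) (dec_bd B) hXe tl hsl (apA c) hl3.2
    exact aff_le hI.s0 hI.s1 h1 h2 le_rfl
  have Lr : (0 : ℝ) ≤ (t.l : ℝ) + 1 := by positivity
  have hg8 : 2 ^ 48 * γ1 ≤ (b'.b2 : ℝ) + 8 := by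
    have := (abs_le.1 E2.n1).1
    linarith
  have hq8 : 2 ^ 48 * q1 ≤ (b'.b3 : ℝ) := by
    have := (abs_le.1 E3.n1).1
    linarith
  have b1le' : b'.b1 ≤ 2 ^ 51 := b1le.trans (by norm_num)
  have CU := cuL_real (b := b') tl ab2 ab3 b2le b3le E2.d E3.d G1 hg8 Q1 hq8
  have CV := cuV_real (b := b') tv ab1 b1le' b2le b3le E1.d G1 hg8 Q1 hq8
  have CB := cbU_real (v := t.v) (b := b') ab1 E1.d
  have cble : KU.cbU t.v b' ≤ 2 ^ 200 := cbU_le tv b1le'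
  have cule : KU.cuU t.l t.v b' ≤ 2 ^ 208 := by
    have h1 := cuL_le (b := b') tl b2le b3le
    have h2 := cuV_le (b := b') tv b1le' b2le b3le
    have e : KU.cuU t.l t.v b' = KU.cuL t.l b' + KU.cuV t.v b' := rfl
    rw [e]
    exact (Nat.add_le_add h1 h2).trans (by norm_num)
  have cue : ((KU.cuU t.l t.v b' : ℕ) : ℝ) = (KU.cuL t.l b' : ℕ) + (KU.cuV t.v b' : ℕ) := by
    have e : KU.cuU t.l t.v b' = KU.cuL t.l b' + KU.cuV t.v b' := rfl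
    rw [e, Nat.cast_add]
  generalize KU.cuU t.l t.v b' = cu at hcor cue cule
  generalize KU.cbU t.v b' = cb at hcor CB cble
  have nx : 0 < nr x := nr_pos (fun h0 => hx (by rw [h0]; rfl))
  have C : CorU (decz A) (decz B) (decz HA) (decz HB) :=
    ⟨oA.a, oA.f, oA.g, oHA.a, oHA.f, oHA.g, hd, he, oB.b, oB.c, oB.h, oB.i⟩
  -- the corners
  have key := tg_point (x := x) (α0 := α0) (α1 := α1) (L := (t.l : ℝ) + 1) (V := (t.v : ℝ))
    (m := hev (rH (decz HA)) x + s * hev (rH (decz HB)) x + s * (75 / 64) * nr x)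
    hI.cv E1.I E2.I E3.I G0 E2.le Q0 E3.le Lr (Nat.cast_nonneg _) cA (cB false) (cB true) (by
    intro c1 c2 c3
    obtain ⟨i, hi⟩ := cor_sound hcor c1 c2 c3
    have a1c : 1 ≤ (if c1 then α1 else α0) := by
      cases c1
      · exact A0
      · exact A1
    have slc : 2 ^ 48 ≤ sl b'.a1 b'.b1 c1 := by
      cases c1
      · exact a1ge
      · exact a1ge.trans ab1
    obtain ⟨⟨Z0, o0⟩, ⟨Z1, o1⟩⟩ := ok_TU (apA c1) (apG c2)
      ((apQ c3).mono (r' := 2) (by norm_num) le_rfl) a1c slc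
    have cor := corner_u hX (dec_rep A) (dec_rep B) (dec_rep HA) (dec_rep HB) C
      (Z0 := Z0) (Z1 := Z1) ⟨dec_bd A, dec_bd B, dec_bd HA, dec_bd HB, o0, o1⟩ cule cble tb hi hI.cv
      hI.x2 hI.x1 hI.s0 hI.s1 x
    have FXe : ∀ T0 T1 : M9 ℝ, T0.a = 1 → FX (decz A) (decz B) (decz HA) (decz HB) T0 T1 s u x =
        tg (decz A) (decz B) s (ap (T0, T1) (s * u) x) -
          (hev (rH (decz HA)) x + s * hev (rH (decz HB)) x) := by
      intro T0 T1 h1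
      rw [FX, h1, tg]; ring
    rw [FXe _ _ rfl] at cor
    generalize tg (decz A) (decz B) s (ap (TU0 (if c1 then α1 else α0),
      TU1 (if c1 then α1 else α0) (if c2 then γ1 else γ0) (if c3 then q1 else q0)) (s * u) x) = V
      at cor ⊢
    generalize hev (rH (decz HA)) x + s * hev (rH (decz HB)) x = W at cor hs ⊢
    generalize (γ1 - γ0) ^ 2 * q1 ^ 2 + (q1 - q0) ^ 2 * (1 + γ1 ^ 2) = S at CU ⊢
    generalize q1 ^ 2 * (1 + γ1 ^ 2) = S' at CV ⊢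
    have nb := nr_nonneg (bkv x)
    generalize nr (bkv x) = nbk at cor nb ⊢
    generalize (α1 - α0) ^ 2 = D at CV CB ⊢
    generalize (t.v : ℝ) = v at CV CB ⊢
    generalize (t.l : ℝ) = l at CU ⊢
    generalize nr x = n at cor nx ⊢
    have q2 : 0 ≤ s ^ 2 * n := mul_nonneg (sq_nonneg s) nx.le
    have S2 := mul_le_mul_of_nonneg_left CU q2
    have S3 := mul_le_mul_of_nonneg_left CV q2
    have S4 : s ^ 2 * n ≤ s / 8 * n := mul_le_mul_of_nonneg_right ss nx.le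
    have cor' := mul_le_mul_of_nonneg_left cor (show (0 : ℝ) ≤ 2 ^ 62 by positivity)
    rw [cue] at cor'
    generalize ((KU.cuL t.l b' : ℕ) : ℝ) = cl at *
    generalize ((KU.cuV t.v b' : ℕ) : ℝ) = cv at *
    refine le_of_mul_le_mul_left ?_ (show (0 : ℝ) < 2 ^ 158 by positivity)
    have e1 : (2 : ℝ) ^ 62 * (s * ((76 * 2 ^ 90 + s * (cl + cv) / 2 ^ 62) * n) + cb / 2 ^ 62 * nbk) =
        76 * 2 ^ 152 * (s * n) + s ^ 2 * n * cl + s ^ 2 * n * cv + cb * nbk := by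
      ring
    rw [e1] at cor'
    have e2 : (2 : ℝ) ^ 158 * (W + s * (75 / 64) * n + v * (D * (nbk + s ^ 2 * S' * n)) / 2 +
        (l + 1) / 4 * (s ^ 2 * S * n)) = 2 ^ 158 * W + 2 ^ 158 * (75 / 64) * (s * n) +
          2 ^ 158 * (v / 2 * D) * nbk + s ^ 2 * n * (2 ^ 158 * (v / 2 * (D * S'))) +
            s ^ 2 * n * (2 ^ 158 * ((l + 1) / 4 * S)) := by ring
    rw [e2, CB]
    have p : 0 ≤ s * n := mul_nonneg s0 nx.le
    have num : (2 : ℝ) ^ 158 * (75 / 64) + (2 ^ 146 + 2 ^ 152) / 8 ≤ 76 * 2 ^ 152 := by norm_num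
    have num2 := mul_le_mul_of_nonneg_right num p
    have S5 := mul_le_mul_of_nonneg_right S4 (show (0 : ℝ) ≤ 2 ^ 146 + 2 ^ 152 by positivity)
    linarith)
  rw [← E1.e, ← E2.e, ← E3.e] at key
  set y := ap (TU0 (k ^ 2), TU1 (k ^ 2) (g ^ 2 - 1) (1 / (k * h * g))) (s * u) x with hy
  rw [ap_TUm k h g k0.ne' h0.ne' g0.ne', ← hy]
  have P0 : 0 < k * h * g := by positivity
  have Pc : ((k * h * g : ℝ) : ℂ) ≠ 0 := by exact_mod_cast P0.ne'
  have T : hev (rH (decz A)) (((k * h * g : ℝ) : ℂ) • y) +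
      s * hev (rH (decz B)) (((k * h * g : ℝ) : ℂ) • y) = (k * h * g) ^ 2 * tg (decz A) (decz B) s y := by
    rw [ev_smul, ev_smul, Complex.norm_real, Real.norm_eq_abs, sq_abs, tg]; ring
  rw [T]
  have p75 : 0 ≤ s * (75 / 64) * nr x := mul_nonneg (by positivity) nx.le
  refine ⟨mul_nonneg (sq_nonneg _) (by linarith), ?_⟩
  intro h0'
  have y0 : y 0 = 0 := by
    have : ((k * h * g : ℝ) : ℂ) * y 0 = 0 := h0'
    exact (mul_eq_zero.1 this).resolve_left Pc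
  have hB0 : hev (rH (decz B)) y = 0 := by
    simp only [hev, rH, GR.mpH, cI_apply, oB.b, oB.c, oB.h, oB.i, y0]
    simp
  have tA : tg (decz A) (decz B) s y = hev (rH (decz A)) y := by
    rw [tg, hB0, mul_zero, add_zero]
  rw [tA] at key
  rcases s0.lt_or_eq with sp | sp
  · have : 0 < s * (75 / 64) * nr x := by positivity
    have h2 : 0 < hev (rH (decz A)) y := by linarith
    by_cases hz : y = 0
    · rw [hz, ev_zero] at h2
      exact lt_irrefl _ h2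
    · exact absurd (hn y y0 hz) (not_lt.2 h2.le)
  · have h2 : 0 ≤ hev (rH (decz A)) y := by linarith
    by_cases hz : y = 0
    · rw [hy, ap_TU, ← sp] at hz
      have z1 := congrFun hz 1
      have z0 := congrFun hz 0
      simp at z1 z0
      rw [z1] at z0
      simp at z0
      exact hx z0
    · exact absurd (hn y y0 hz) (not_lt.2 h2)

end Pool.Agent.Helper94.CXT
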