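import Pool.Agent.Helper94.CXT.UT5

/-!
Far cells of tail classes, row UUT: norms, perturbation and interpolation (for `t2T`).
-/

set_option autoImplicit false
set_option exponentiation.threshold 4000
noncomputable section
namespace Pool.Agent.Helper94.CXT

open Pool.Agent.Helper86.CX renaming Hm → Hm, ev → hev
open Pool.Agent.Helper94.CXF (M9)
open Pool.Agent.Helper94.CXF
open Pool.Agent.Helper94.CXF.SD
open Pool.Agent.Helper94.CXF.SD.UUX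
open Pool.Agent.Helper48.CXT
open Complex ComplexConjugate

/-! ### norms -/

theorem cs3 (a b c p q r : ℝ) :
    (a * p + b * q + c * r) ^ 2 ≤ (a ^ 2 + b ^ 2 + c ^ 2) * (p ^ 2 + q ^ 2 + r ^ 2) := by
  nlinarith [sq_nonneg (a * q - b * p), sq_nonneg (a * r - c * p), sq_nonneg (b * r - c * q)]

theorem row_le (a b c : ℝ) (x : Fin 3 → ℂ) :
    normSq ((a : ℂ) * x 0 + b * x 1 + c * x 2) ≤ (a * a + b * b + c * c) * nr x := by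
  have h1 := cs3 a b c (x 0).re (x 1).re (x 2).re
  have h2 := cs3 a b c (x 0).im (x 1).im (x 2).im
  simp only [nr, normSq_apply, add_re, add_im, re_ofReal_mul, im_ofReal_mul]
  nlinarith

theorem nr_ap1 (M : M9 ℝ) (x : Fin 3 → ℂ) : nr (ap1 M x) ≤ GR.sqM M * nr x := by
  have h0 := row_le M.a M.b M.c x
  have h1 := row_le M.d M.e M.f x
  have h2 := row_le M.g M.h M.i x
  rw [← ap1_0] at h0
  rw [← ap1_1] at h1
  rw [← ap1_2] at h2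
  have e : nr (ap1 M x) = normSq (ap1 M x 0) + normSq (ap1 M x 1) + normSq (ap1 M x 2) := rfl
  rw [e]
  simp only [GR.sqM]
  linarith

theorem nr_smul (c : ℂ) (x : Fin 3 → ℂ) : nr (c • x) = normSq c * nr x := by
  simp only [nr, Pi.smul_apply, smul_eq_mul, normSq_mul]
  ring

theorem nr_eq (x : Fin 3 → ℂ) : nr x = ‖x 0‖ ^ 2 + ‖x 1‖ ^ 2 + ‖x 2‖ ^ 2 := by
  simp only [nr, normSq_eq_norm_sq]

/-- `|v + w| ≤ |v| + |w|` -/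
theorem nr_add_le {v w : Fin 3 → ℂ} {a b n : ℝ} (a0 : 0 ≤ a) (b0 : 0 ≤ b) (n0 : 0 ≤ n)
    (hv : nr v ≤ a ^ 2 * n) (hw : nr w ≤ b ^ 2 * n) : nr (v + w) ≤ (a + b) ^ 2 * n := by
  have e1 : nr (v + w) ≤ nr v + nr w + 2 * (‖v 0‖ * ‖w 0‖ + ‖v 1‖ * ‖w 1‖ + ‖v 2‖ * ‖w 2‖) := by
    rw [nr_eq, nr_eq, nr_eq]
    have t : ∀ i, ‖(v + w) i‖ ^ 2 ≤ (‖v i‖ + ‖w i‖) ^ 2 := fun i =>
      pow_le_pow_left₀ (norm_nonneg _) (norm_add_le _ _) 2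
    have t0 := t 0
    have t1 := t 1
    have t2 := t 2
    nlinarith
  have e2 := cs3 ‖v 0‖ ‖v 1‖ ‖v 2‖ ‖w 0‖ ‖w 1‖ ‖w 2‖
  rw [← nr_eq, ← nr_eq] at e2
  have p0 : 0 ≤ ‖v 0‖ * ‖w 0‖ + ‖v 1‖ * ‖w 1‖ + ‖v 2‖ * ‖w 2‖ := by positivity
  generalize ‖v 0‖ * ‖w 0‖ + ‖v 1‖ * ‖w 1‖ + ‖v 2‖ * ‖w 2‖ = p at *
  have e3 : p ^ 2 ≤ (a * b * n) ^ 2 := by
    have h1 : nr v * nr w ≤ (a ^ 2 * n) * (b ^ 2 * n) :=
      mul_le_mul hv hw (nr_nonneg _) (mul_nonneg (sq_nonneg _) n0)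
    calc p ^ 2 ≤ nr v * nr w := e2
      _ ≤ (a ^ 2 * n) * (b ^ 2 * n) := h1
      _ = (a * b * n) ^ 2 := by ring
  have e4 : p ≤ a * b * n := (abs_le_of_sq_le_sq' e3 (by positivity)).2
  nlinarith

theorem nr_cvx (t : ℝ) (a b : Fin 3 → ℂ) :
    nr (((1 - t : ℝ) : ℂ) • a + ((t : ℝ) : ℂ) • b) =
      (1 - t) * nr a + t * nr b - t * (1 - t) * nr (b - a) := by
  simp only [nr, Pi.add_apply, Pi.smul_apply, Pi.sub_apply, smul_eq_mul]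
  simp [normSq_apply]
  ring

theorem nr_lin_le {t N : ℝ} (ht : I01 t) {a b : Fin 3 → ℂ} (ha : nr a ≤ N) (hb : nr b ≤ N) :
    nr (((1 - t : ℝ) : ℂ) • a + ((t : ℝ) : ℂ) • b) ≤ N := by
  rw [nr_cvx]
  have h1 := mul_le_mul_of_nonneg_left ha (sub_nonneg.2 ht.2)
  have h2 := mul_le_mul_of_nonneg_left hb ht.1
  have h3 := mul_nonneg (mul_nonneg ht.1 (sub_nonneg.2 ht.2)) (nr_nonneg (b - a))
  linarith

/-! ### the bilinear form -/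

theorem sq2_le2 (X J : M9 ℝ) (y x : Fin 3 → ℂ) :
    ‖sq2 X J y x‖ ^ 2 ≤ (GR.sqM X + GR.sqM J) * (nr y * nr x) := by
  have key : ∀ p q : ℝ, ‖((p : ℂ) + q * I)‖ ^ 2 = p * p + q * q := by
    intro p q
    rw [← normSq_eq_norm_sq, normSq_add_mul_I]
    ring
  have e1 : sq2 X J y x =
      (conj (y 0) * ((X.a + J.a * I) * x 0) + conj (y 0) * ((X.b + J.b * I) * x 1) +
        conj (y 0) * ((X.c + J.c * I) * x 2)) +
      (conj (y 1) * ((X.d + J.d * I) * x 0) + conj (y 1) * ((X.e + J.e * I) * x 1) +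
        conj (y 1) * ((X.f + J.f * I) * x 2)) +
      (conj (y 2) * ((X.g + J.g * I) * x 0) + conj (y 2) * ((X.h + J.h * I) * x 1) +
        conj (y 2) * ((X.i + J.i * I) * x 2)) := by
    rw [sq2]; ring
  have nn : ∀ (i j : Fin 3) (c : ℂ), ‖conj (y i) * (c * x j)‖ = ‖c‖ * (‖y i‖ * ‖x j‖) := by
    intro i j c
    rw [norm_mul, norm_mul, RCLike.norm_conj]
    ring
  have e2 : ‖sq2 X J y x‖ ≤
      (‖((X.a : ℂ) + J.a * I)‖ * (‖y 0‖ * ‖x 0‖) + ‖((X.b : ℂ) + J.b * I)‖ * (‖y 0‖ * ‖x 1‖) +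
        ‖((X.c : ℂ) + J.c * I)‖ * (‖y 0‖ * ‖x 2‖)) +
      (‖((X.d : ℂ) + J.d * I)‖ * (‖y 1‖ * ‖x 0‖) + ‖((X.e : ℂ) + J.e * I)‖ * (‖y 1‖ * ‖x 1‖) +
        ‖((X.f : ℂ) + J.f * I)‖ * (‖y 1‖ * ‖x 2‖)) +
      (‖((X.g : ℂ) + J.g * I)‖ * (‖y 2‖ * ‖x 0‖) + ‖((X.h : ℂ) + J.h * I)‖ * (‖y 2‖ * ‖x 1‖) +
        ‖((X.i : ℂ) + J.i * I)‖ * (‖y 2‖ * ‖x 2‖)) := by
    rw [e1]
    have t3 : ∀ a b c : ℂ, ‖a + b + c‖ ≤ ‖a‖ + ‖b‖ + ‖c‖ := fun a b c => norm_add₃_le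
    refine (t3 _ _ _).trans ?_
    have f1 := t3 (conj (y 0) * ((X.a + J.a * I) * x 0)) (conj (y 0) * ((X.b + J.b * I) * x 1))
      (conj (y 0) * ((X.c + J.c * I) * x 2))
    have f2 := t3 (conj (y 1) * ((X.d + J.d * I) * x 0)) (conj (y 1) * ((X.e + J.e * I) * x 1))
      (conj (y 1) * ((X.f + J.f * I) * x 2))
    have f3 := t3 (conj (y 2) * ((X.g + J.g * I) * x 0)) (conj (y 2) * ((X.h + J.h * I) * x 1))
      (conj (y 2) * ((X.i + J.i * I) * x 2))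
    simp only [nn] at f1 f2 f3
    linarith
  have cs := Finset.sum_mul_sq_le_sq_mul_sq (Finset.univ : Finset (Fin 9))
    (![‖((X.a : ℂ) + J.a * I)‖, ‖((X.b : ℂ) + J.b * I)‖, ‖((X.c : ℂ) + J.c * I)‖,
      ‖((X.d : ℂ) + J.d * I)‖, ‖((X.e : ℂ) + J.e * I)‖, ‖((X.f : ℂ) + J.f * I)‖,
      ‖((X.g : ℂ) + J.g * I)‖, ‖((X.h : ℂ) + J.h * I)‖, ‖((X.i : ℂ) + J.i * I)‖])
    (![‖y 0‖ * ‖x 0‖, ‖y 0‖ * ‖x 1‖, ‖y 0‖ * ‖x 2‖, ‖y 1‖ * ‖x 0‖, ‖y 1‖ * ‖x 1‖, ‖y 1‖ * ‖x 2‖,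
      ‖y 2‖ * ‖x 0‖, ‖y 2‖ * ‖x 1‖, ‖y 2‖ * ‖x 2‖])
  simp [Fin.sum_univ_succ] at cs
  simp only [key] at cs
  have e3 := pow_le_pow_left₀ (norm_nonneg _) e2 2
  rw [nr_eq, nr_eq]
  simp only [GR.sqM]
  refine e3.trans (le_trans (le_of_eq ?_) (cs.trans (le_of_eq ?_)))
  · ring
  · ring

/-- square of the Frobenius norm -/
def frR (K : Hm ℝ) : ℝ := GR.sqM (GR.hR K) + GR.sqM (GR.hJ K)

theorem sq2_fr {K : Hm ℝ} {κ : ℝ} (hκ : frR K ≤ κ ^ 2) (κ0 : 0 ≤ κ) {y x : Fin 3 → ℂ}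
    {a b n : ℝ} (a0 : 0 ≤ a) (b0 : 0 ≤ b) (n0 : 0 ≤ n) (hy : nr y ≤ a ^ 2 * n)
    (hx : nr x ≤ b ^ 2 * n) : ‖sq2 (GR.hR K) (GR.hJ K) y x‖ ≤ κ * (a * b * n) := by
  have h1 := sq2_le2 (GR.hR K) (GR.hJ K) y x
  have h2 : nr y * nr x ≤ (a ^ 2 * n) * (b ^ 2 * n) :=
    mul_le_mul hy hx (nr_nonneg _) (mul_nonneg (sq_nonneg _) n0)
  have h3 : (GR.sqM (GR.hR K) + GR.sqM (GR.hJ K)) * (nr y * nr x) ≤
      κ ^ 2 * ((a ^ 2 * n) * (b ^ 2 * n)) :=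
    mul_le_mul hκ h2 (mul_nonneg (nr_nonneg _) (nr_nonneg _)) (sq_nonneg _)
  have h4 : ‖sq2 (GR.hR K) (GR.hJ K) y x‖ ^ 2 ≤ (κ * (a * b * n)) ^ 2 := by
    refine (h1.trans h3).trans (le_of_eq ?_)
    ring
  exact (abs_le_of_sq_le_sq' h4 (by positivity)).2

/-- perturbation of the form -/
theorem hev_pert {K : Hm ℝ} {κ : ℝ} (hκ : frR K ≤ κ ^ 2) (κ0 : 0 ≤ κ) {y z : Fin 3 → ℂ} {e : ℂ}
    {a b n s : ℝ} (a0 : 0 ≤ a) (b0 : 0 ≤ b) (n0 : 0 ≤ n) (hs : ‖e‖ = s) (hy : nr y ≤ a ^ 2 * n)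
    (hz : nr z ≤ b ^ 2 * n) :
    hev K y - κ * (2 * s * a * b + s ^ 2 * b ^ 2) * n ≤ hev K (y + e • z) := by
  have s0 : 0 ≤ s := hs ▸ norm_nonneg _
  rw [hev_add, normSq_eq_norm_sq, hs]
  have h1 := sq2_fr hκ κ0 a0 b0 n0 hy hz
  have h2 := sq2_fr hκ κ0 b0 b0 n0 hz hz
  rw [hev_sq2 K z]
  have h3 : |(e * sq2 (GR.hR K) (GR.hJ K) y z).re| ≤ s * (κ * (a * b * n)) := by
    refine (abs_re_le_norm _).trans ?_
    rw [norm_mul, hs]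
    exact mul_le_mul_of_nonneg_left h1 s0
  have h4 : |(sq2 (GR.hR K) (GR.hJ K) z z).re| ≤ κ * (b * b * n) := (abs_re_le_norm _).trans h2
  have h3' := (abs_le.1 h3).1
  have h4' := mul_le_mul_of_nonneg_left (abs_le.1 h4).1 (sq_nonneg s)
  linarith

/-! ### interpolation -/

theorem G_cvx (K : Hm ℝ) (t : ℝ) (c : Fin 3 → ℂ) (e : ℂ) (a b : Fin 3 → ℂ) :
    hev K (c + e • (((1 - t : ℝ) : ℂ) • a + ((t : ℝ) : ℂ) • b)) =
      (1 - t) * hev K (c + e • a) + t * hev K (c + e • b) -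
        t * (1 - t) * (normSq e * hev K (b - a)) := by
  have e1 : c + e • (((1 - t : ℝ) : ℂ) • a + ((t : ℝ) : ℂ) • b) =
      ((1 - t : ℝ) : ℂ) • (c + e • a) + ((t : ℝ) : ℂ) • (c + e • b) := by
    funext j
    simp only [Pi.add_apply, Pi.smul_apply, smul_eq_mul]
    push_cast
    ring
  have e2 : (c + e • b) - (c + e • a) = e • (b - a) := by
    funext j
    simp only [Pi.add_apply, Pi.smul_apply, Pi.sub_apply, smul_eq_mul]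
    ring
  rw [e1, cvx, e2, ev_smul, normSq_eq_norm_sq]

theorem G_dir {K : Hm ℝ} {t la s M m : ℝ} (ht : I01 t) (la0 : 0 ≤ la)
    (hla : ∀ x, hev K x ≤ la * nr x) {c : Fin 3 → ℂ} {e : ℂ} (he : normSq e = s ^ 2)
    {a b : Fin 3 → ℂ} (hM : nr (b - a) ≤ M) (ha : m ≤ hev K (c + e • a))
    (hb : m ≤ hev K (c + e • b)) :
    m - s ^ 2 * la * M / 4 ≤ hev K (c + e • (((1 - t : ℝ) : ℂ) • a + ((t : ℝ) : ℂ) • b)) := by
  rw [G_cvx, he]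
  have M0 : 0 ≤ M := (nr_nonneg _).trans hM
  have h1 : hev K (b - a) ≤ la * M := (hla _).trans (mul_le_mul_of_nonneg_left hM la0)
  have h2 : t * (1 - t) ≤ 1 / 4 := by nlinarith [sq_nonneg (t - 1 / 2)]
  have h3 : 0 ≤ t * (1 - t) := mul_nonneg ht.1 (sub_nonneg.2 ht.2)
  have h4 : s ^ 2 * hev K (b - a) ≤ s ^ 2 * (la * M) := mul_le_mul_of_nonneg_left h1 (sq_nonneg _)
  have h5 : t * (1 - t) * (s ^ 2 * hev K (b - a)) ≤ 1 / 4 * (s ^ 2 * (la * M)) := by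
    refine (mul_le_mul_of_nonneg_left h4 h3).trans ?_
    exact mul_le_mul_of_nonneg_right h2 (by positivity)
  have av := avg_ge ht.1 ht.2 ha hb
  linarith

/-- interpolated vector -/
def ln (t : ℝ) (a b : Fin 3 → ℂ) : Fin 3 → ℂ := ((1 - t : ℝ) : ℂ) • a + ((t : ℝ) : ℂ) • b
def ln3 (t1 t2 t3 : ℝ) (W : Bool → Bool → Bool → Fin 3 → ℂ) : Fin 3 → ℂ :=
  ln t1 (ln t2 (ln t3 (W false false false) (W false false true))
    (ln t3 (W false true false) (W false true true)))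
    (ln t2 (ln t3 (W true false false) (W true false true))
      (ln t3 (W true true false) (W true true true)))

theorem ln_sub (t : ℝ) (a b a' b' : Fin 3 → ℂ) : ln t a' b' - ln t a b = ln t (a' - a) (b' - b) := by
  funext j
  simp only [ln, Pi.add_apply, Pi.smul_apply, Pi.sub_apply, smul_eq_mul]
  ring

theorem ln_add (t : ℝ) (a b a' b' : Fin 3 → ℂ) : ln t a b + ln t a' b' = ln t (a + a') (b + b') := by
  funext j
  simp only [ln, Pi.add_apply, Pi.smul_apply, smul_eq_mul]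
  ring

theorem ln3_sub (t1 t2 t3 : ℝ) (V W : Bool → Bool → Bool → Fin 3 → ℂ) :
    ln3 t1 t2 t3 W - ln3 t1 t2 t3 V = ln3 t1 t2 t3 fun a b c => W a b c - V a b c := by
  simp only [ln3, ln_sub]

theorem ln3_le {t1 t2 t3 N : ℝ} (h1 : I01 t1) (h2 : I01 t2) (h3 : I01 t3)
    {W : Bool → Bool → Bool → Fin 3 → ℂ} (h : ∀ a b c, nr (W a b c) ≤ N) :
    nr (ln3 t1 t2 t3 W) ≤ N :=
  nr_lin_le h1 (nr_lin_le h2 (nr_lin_le h3 (h _ _ _) (h _ _ _))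
    (nr_lin_le h3 (h _ _ _) (h _ _ _)))
    (nr_lin_le h2 (nr_lin_le h3 (h _ _ _) (h _ _ _)) (nr_lin_le h3 (h _ _ _) (h _ _ _)))

theorem ln_aff (t : ℝ) (c : Fin 3 → ℂ) (e : ℂ) (a b : Fin 3 → ℂ) :
    c + e • ln t a b = ln t (c + e • a) (c + e • b) := by
  funext j
  simp only [ln, Pi.add_apply, Pi.smul_apply, smul_eq_mul]
  push_cast
  ring

theorem ln3_aff (t1 t2 t3 : ℝ) (c : Fin 3 → ℂ) (e : ℂ) (W : Bool → Bool → Bool → Fin 3 → ℂ) :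
    c + e • ln3 t1 t2 t3 W = ln3 t1 t2 t3 fun i j k => c + e • W i j k := by
  simp only [ln3, ln_aff]

/-- THREE DIRECTIONS -/
theorem G_tri {K : Hm ℝ} {t1 t2 t3 la s M1 M2 M3 m : ℝ} (h1 : I01 t1) (h2 : I01 t2)
    (h3 : I01 t3) (la0 : 0 ≤ la) (hla : ∀ x, hev K x ≤ la * nr x) {c : Fin 3 → ℂ} {e : ℂ}
    (he : normSq e = s ^ 2) {W : Bool → Bool → Bool → Fin 3 → ℂ}
    (d1 : ∀ j k, nr (W true j k - W false j k) ≤ M1)
    (d2 : ∀ i k, nr (W i true k - W i false k) ≤ M2)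
    (d3 : ∀ i j, nr (W i j true - W i j false) ≤ M3)
    (hm : ∀ i j k, m ≤ hev K (c + e • W i j k)) :
    m - s ^ 2 * la * (M1 + M2 + M3) / 4 ≤ hev K (c + e • ln3 t1 t2 t3 W) := by
  have s3 : ∀ i j, m - s ^ 2 * la * M3 / 4 ≤ hev K (c + e • ln t3 (W i j false) (W i j true)) :=
    fun i j => G_dir h3 la0 hla he (d3 i j) (hm _ _ _) (hm _ _ _)
  have s2 : ∀ i, m - s ^ 2 * la * M3 / 4 - s ^ 2 * la * M2 / 4 ≤
      hev K (c + e • ln t2 (ln t3 (W i false false) (W i false true))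
        (ln t3 (W i true false) (W i true true))) := by
    intro i
    refine G_dir h2 la0 hla he ?_ (s3 _ _) (s3 _ _)
    rw [ln_sub]
    exact nr_lin_le h3 (d2 _ _) (d2 _ _)
  have s1 := G_dir h1 la0 hla he (t := t1) (M := M1) (by
    rw [ln_sub, ln_sub, ln_sub]
    exact nr_lin_le h2 (nr_lin_le h3 (d1 _ _) (d1 _ _)) (nr_lin_le h3 (d1 _ _) (d1 _ _)))
    (s2 false) (s2 true)
  refine le_trans (le_of_eq ?_) s1
  ring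

end Pool.Agent.Helper94.CXT
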