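import Pool.Agent.Helper94.CXT.UT6
import Pool.Agent.Helper94.CXF.S12

/-!
Far cells of tail classes, row UUT: norm checks, the test `t2T` on one corner.
-/

set_option autoImplicit false
set_option exponentiation.threshold 4000
noncomputable section
namespace Pool.Agent.Helper94.CXT

open Pool.Agent.Helper86.CX renaming Hm → Hm, ev → hev
open Pool.Agent.Helper94.CXF (M9)
open Pool.Agent.Helper94.CXF
open Pool.Agent.Helper94.CXF.SD
open Pool.Agent.Helper94.CXF.SD.UUX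
open Pool.Agent.Helper48.CXT
open Complex ComplexConjugate

/-! ### norms of forms -/

theorem ble_gen {A m : ℕ} {v : ℤ} (h : Nat.ble (Nat.mod A KN.MM) m = true)
    (hv : Rp A v) (h0 : 0 ≤ v) (h1 : v < 2 ^ 1152) : v ≤ (m : ℤ) := by
  have h2 : A % KN.MM ≤ m := Nat.le_of_ble_eq_true h
  have h3 : ((A % KN.MM : ℕ) : ℤ) = v := hv.mod_eq MM_pos h0 (by rw [MM_eq]; exact_mod_cast h1)
  have h4 : ((A % KN.MM : ℕ) : ℤ) ≤ m := by exact_mod_cast h2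
  rw [h3] at h4
  exact h4

theorem frz_nonneg (K : Hm ℤ) : 0 ≤ frz K := by
  simp only [frz]
  linarith [mul_self_nonneg K.a, mul_self_nonneg K.b, mul_self_nonneg K.c, mul_self_nonneg K.d,
    mul_self_nonneg K.e, mul_self_nonneg K.f, mul_self_nonneg K.g, mul_self_nonneg K.h,
    mul_self_nonneg K.i]

theorem frz_bd {K : Hm ℤ} {b : ℤ} (h : BH b K) : frz K ≤ 15 * (b * b) := by
  simp only [frz]
  linarith [sqz h.a, sqz h.b, sqz h.c, sqz h.d, sqz h.e, sqz h.f, sqz h.g, sqz h.h, sqz h.i]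

theorem frH_rep {K : Hm ℕ} {Z : Hm ℤ} (r : RH K Z) : Rp (KT.frH K) (frz Z) := by
  have h := ((r.a.mul r.a).add ((r.b.mul r.b).add (r.c.mul r.c))).add
    ((rp_nat 2).mul (((r.d.mul r.d).add ((r.e.mul r.e).add ((r.f.mul r.f).add (r.g.mul r.g)))).add
      ((r.h.mul r.h).add (r.i.mul r.i))))
  have e : frz Z = (Z.a * Z.a + (Z.b * Z.b + Z.c * Z.c)) + ((2 : ℕ) : ℤ) *
      ((Z.d * Z.d + (Z.e * Z.e + (Z.f * Z.f + Z.g * Z.g))) + (Z.h * Z.h + Z.i * Z.i)) := by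
    simp only [frz]; push_cast; ring
  rw [e]
  exact h

/-- `8 A + B` -/
def a8z (A B : Hm ℤ) : Hm ℤ := GR.adH (GR.smH 8 A) B

theorem a8_rep {A B : Hm ℕ} {A' B' : Hm ℤ} (p : RH A A') (q : RH B B') :
    RH (KT.a8 A B) (a8z A' B') := by
  have r8 := rp_nat 8
  exact ⟨(r8.mul p.a).add q.a, (r8.mul p.b).add q.b, (r8.mul p.c).add q.c, (r8.mul p.d).add q.d,
    (r8.mul p.e).add q.e, (r8.mul p.f).add q.f, (r8.mul p.g).add q.g, (r8.mul p.h).add q.h,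
    (r8.mul p.i).add q.i⟩

theorem a8_bd {A' B' : Hm ℤ} (p : BH (2 ^ 27) A') (q : BH (2 ^ 27) B') :
    BH (2 ^ 31) (a8z A' B') :=
  (adH_bd (smH_bd (r := 8) (by norm_num) p) q).mono (by norm_num)

/-- `l - K` -/
def lmz (l : ℤ) (K : Hm ℤ) : Hm ℤ := GR.adH (GR.idH l) (GR.smH (-1) K)

theorem rp_m1 {x : ℕ} {x' : ℤ} (hx : Rp x x') : Rp (KN.nm x) (-1 * x') := by
  have := rp_nm hx
  rwa [← neg_one_mul] at this

theorem lm_rep {l : ℕ} {K : Hm ℕ} {K' : Hm ℤ} (p : RH K K') : RH (KT.lmK l K) (lmz l K') := by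
  have rl := rp_nat l
  have z : ∀ {x : ℕ} {x' : ℤ}, Rp x x' → Rp (KN.nm x) (0 + -1 * x') := fun h => by
    rw [zero_add]; exact rp_m1 h
  exact ⟨rl.add (rp_m1 p.a), rl.add (rp_m1 p.b), rl.add (rp_m1 p.c), z p.d, z p.e, z p.f, z p.g,
    z p.h, z p.i⟩

theorem lm_bd {l : ℕ} {K' : Hm ℤ} (hl : l ≤ 2 ^ 40) (p : BH (2 ^ 31) K') :
    BH (2 ^ 256) (lmz l K') := by
  have : |(l : ℤ)| ≤ 2 ^ 40 := by
    rw [abs_of_nonneg (by positivity)]; exact_mod_cast hl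
  exact (adH_bd (idH_bd this) (smH_bd (r := 1) (by norm_num) p)).mono (by norm_num)

theorem lm_hev (l : ℤ) (K : Hm ℤ) (x : Fin 3 → ℂ) :
    hev (rH (lmz l K)) x = l * nr x - hev (rH K) x := by
  rw [lmz, hev_ad, hev_id', hev_sm']
  push_cast
  ring

theorem lm_sound {l : ℕ} {K : Hm ℕ} {K' : Hm ℤ} (p : RH K K') (b : BH (2 ^ 31) K')
    (hl : l ≤ 2 ^ 40) (h : KN.psd (KT.lmK l K) = true) (x : Fin 3 → ℂ) :
    hev (rH K') x ≤ l * nr x := by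
  have := PDz_hev (psd_sound (lm_rep p) (lm_bd hl b) h) x
  rw [lm_hev] at this
  push_cast at this
  linarith

theorem fr_entry {a b s : ℝ} (s0 : 0 ≤ s) (s1 : s ≤ 1 / 8) :
    (a + s * b) * (a + s * b) ≤ (1 - 8 * s) * (a * a) + s / 8 * ((8 * a + b) * (8 * a + b)) := by
  have h : (1 - 8 * s) * (a * a) + s / 8 * ((8 * a + b) * (8 * a + b)) -
      (a + s * b) * (a + s * b) = s * (1 / 8 - s) * (b * b) := by ring
  have h2 : 0 ≤ s * (1 / 8 - s) * (b * b) :=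
    mul_nonneg (mul_nonneg s0 (by linarith)) (mul_self_nonneg b)
  linarith

theorem frR_rH (K : Hm ℤ) : frR (rH K) = (frz K : ℝ) := by
  simp only [frR, GR.sqM, GR.hR, GR.hJ, rH, GR.mpH, cI_apply, frz]
  push_cast
  ring

theorem frR_lin {A B : Hm ℤ} {s : ℝ} (s0 : 0 ≤ s) (s1 : s ≤ 1 / 8) :
    frR (GR.adH (rH A) (GR.smH s (rH B))) ≤
      (1 - 8 * s) * (frz A : ℝ) + s / 8 * (frz (a8z A B) : ℝ) := by
  rw [← frR_rH, ← frR_rH]
  simp only [frR, GR.sqM, GR.hR, GR.hJ, rH, GR.mpH, cI_apply, a8z, GR.adH, GR.smH]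
  push_cast
  have ea := fr_entry (a := (A.a : ℝ)) (b := B.a) s0 s1
  have eb := fr_entry (a := (A.b : ℝ)) (b := B.b) s0 s1
  have ec := fr_entry (a := (A.c : ℝ)) (b := B.c) s0 s1
  have ed := fr_entry (a := (A.d : ℝ)) (b := B.d) s0 s1
  have ee := fr_entry (a := (A.e : ℝ)) (b := B.e) s0 s1
  have ef := fr_entry (a := (A.f : ℝ)) (b := B.f) s0 s1
  have eg := fr_entry (a := (A.g : ℝ)) (b := B.g) s0 s1
  have eh := fr_entry (a := (A.h : ℝ)) (b := B.h) s0 s1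
  have ei := fr_entry (a := (A.i : ℝ)) (b := B.i) s0 s1
  linarith

/-- the forms `A + s B` -/
theorem okL_sound {A B : ℕ} (h : KT.okL A B = true) : KT.lam A ≤ 2 ^ 28 ∧ KT.lam B ≤ 2 ^ 28 ∧
    ∀ s : ℝ, 0 ≤ s → s ≤ 1 / 8 → frR (lpf A B s) ≤ (KT.lam B : ℝ) ^ 2 ∧
      ∀ x, hev (lpf A B s) x ≤ KT.lam A * nr x := by
  unfold KT.okL at h
  simp only [andB_iff] at h
  obtain ⟨⟨h1, h2⟩, ⟨h3, h4⟩, h5, h6⟩ := h
  have o : KT.o28 = 2 ^ 28 := by decide +kernel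
  have h1 : KT.lam A ≤ 2 ^ 28 := by rw [← o]; exact Nat.le_of_ble_eq_true h1
  have h2 : KT.lam B ≤ 2 ^ 28 := by rw [← o]; exact Nat.le_of_ble_eq_true h2
  generalize KT.lam A = la at *
  generalize KT.lam B = ka at *
  have bA := dec_bd A
  have bB := dec_bd B
  have b8 := a8_bd bA bB
  have r8 := a8_rep (dec_rep A) (dec_rep B)
  have f1 := ble_gen h3 (frH_rep (dec_rep A)) (frz_nonneg _)
    ((frz_bd bA).trans_lt (by decide +kernel))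
  have f2 := ble_gen h4 (frH_rep r8) (frz_nonneg _) ((frz_bd b8).trans_lt (by decide +kernel))
  have g1 := lm_sound (dec_rep A) (bA.mono (by norm_num)) (h1.trans (by norm_num)) h5
  have e8 : KT.lmK (Nat.mul 8 la) (KT.a8 (KN.dec A) (KN.dec B)) =
    KT.lmK (8 * la) (KT.a8 (KN.dec A) (KN.dec B)) := rfl
  have g2 := lm_sound r8 b8 (l := 8 * la) (by
    have := Nat.mul_le_mul_left 8 h1
    exact this.trans (by norm_num)) h6
  refine ⟨h1, h2, fun s s0 s1 => ⟨?_, fun x => ?_⟩⟩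
  · refine (frR_lin s0 s1).trans ?_
    have f1' : (frz (decz A) : ℝ) ≤ (ka : ℝ) * ka := by
      have : ((frz (decz A) : ℤ) : ℝ) ≤ (((ka * ka : ℕ) : ℤ) : ℝ) := by exact_mod_cast f1
      push_cast at this
      exact this
    have f2' : (frz (a8z (decz A) (decz B)) : ℝ) ≤ 64 * ((ka : ℝ) * ka) := by
      have : ((frz (a8z (decz A) (decz B)) : ℤ) : ℝ) ≤ (((64 * (ka * ka) : ℕ) : ℤ) : ℝ) := by
        exact_mod_cast f2
      push_cast at this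
      exact this
    have a1 := mul_le_mul_of_nonneg_left f1' (show 0 ≤ 1 - 8 * s by linarith)
    have a2 := mul_le_mul_of_nonneg_left f2' (show 0 ≤ s / 8 by positivity)
    linarith
  · rw [hev_lpf]
    have p1 := g1 x
    have p2 := g2 x
    rw [a8z, hev_ad, hev_sm'] at p2
    push_cast at p2
    have a1 := mul_le_mul_of_nonneg_left p1 (show 0 ≤ 1 - 8 * s by linarith)
    have a2 := mul_le_mul_of_nonneg_left p2 s0
    linarith

/-! ### norms of matrices -/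

theorem sq9_rep {A : M9 ℕ} {Z : M9 ℤ} (r : RM A Z) : Rp (KT.sq9 A) (GR.sqM Z) := by
  have h := (sR_rep r).add (sB_rep r)
  have e : GR.sqM Z = (Z.a * Z.a + (Z.b * Z.b + (Z.c * Z.c + (Z.d * Z.d + Z.g * Z.g)))) +
      (Z.e * Z.e + (Z.f * Z.f + (Z.h * Z.h + Z.i * Z.i))) := by
    simp only [GR.sqM]; ring
  rw [e]
  exact h

theorem f9_sound {T : KT.MP} {Z0 Z1 : M9 ℤ} (r0 : RM T.1 Z0) (r1 : RM T.2 Z1)
    (b0 : BM (2 ^ 54) Z0) (b1 : BM (2 ^ 54) Z1) {d : ℕ} (h : KT.f9 T d = true) :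
    9 * (8 * GR.sqM Z0 + GR.sqM Z1) ≤ 64 * ((d : ℤ) * d) := by
  have n0 := sqM_nonneg Z0
  have n1 := sqM_nonneg Z1
  have c0 := sqM_bd b0
  have c1 := sqM_bd b1
  have := ble_gen h ((rp_nat 9).mul (((rp_nat 8).mul (sq9_rep r0)).add (sq9_rep r1)))
    (by push_cast; linarith) (by
      have : (9 : ℤ) * (8 * (9 * (2 ^ 54 * 2 ^ 54)) + 9 * (2 ^ 54 * 2 ^ 54)) < 2 ^ 1152 := by
        decide +kernel
      push_cast
      linarith)
  have e : ((Nat.mul 64 (Nat.mul d d) : ℕ) : ℤ) = 64 * ((d : ℤ) * d) := by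
    change ((64 * (d * d) : ℕ) : ℤ) = _
    push_cast
    rfl
  rw [e] at this
  push_cast at this
  exact this

/-- `|a + e b|² ≤ 9 (8 |a|² + |b|²) / 64` -/
theorem nr_e {a b : Fin 3 → ℂ} {e : ℂ} (he : ‖e‖ ≤ 1 / 8) :
    64 * nr (a + e • b) ≤ 9 * (8 * nr a + nr b) := by
  have key : ∀ i, 64 * ‖(a + e • b) i‖ ^ 2 ≤ 9 * (8 * ‖a i‖ ^ 2 + ‖b i‖ ^ 2) := by
    intro i
    have h1 : ‖(a + e • b) i‖ ≤ ‖a i‖ + 1 / 8 * ‖b i‖ := by
      refine (norm_add_le _ _).trans ?_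
      rw [Pi.smul_apply, smul_eq_mul, norm_mul]
      have := mul_le_mul_of_nonneg_right he (norm_nonneg (b i))
      linarith
    have h2 := pow_le_pow_left₀ (norm_nonneg _) h1 2
    nlinarith [sq_nonneg (‖a i‖ - ‖b i‖)]
  rw [nr_eq, nr_eq, nr_eq]
  linarith [key 0, key 1, key 2]

theorem f9_nr {Z0 Z1 : M9 ℤ} {d : ℕ}
    (h : 9 * (8 * GR.sqM Z0 + GR.sqM Z1) ≤ 64 * ((d : ℤ) * d)) {e : ℂ} (he : ‖e‖ ≤ 1 / 8)
    (x : Fin 3 → ℂ) : nr (ap1 (rM Z0) x + e • ap1 (rM Z1) x) ≤ (d : ℝ) ^ 2 * nr x := by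
  have h1 := nr_e (a := ap1 (rM Z0) x) (b := ap1 (rM Z1) x) he
  have h2 := nr_ap1 (rM Z0) x
  have h3 := nr_ap1 (rM Z1) x
  have h4 : 9 * (8 * GR.sqM (rM Z0) + GR.sqM (rM Z1)) ≤ 64 * ((d : ℝ) * d) := by
    rw [rM, rM, ← GR.mp_sqM, ← GR.mp_sqM]
    have : ((9 * (8 * GR.sqM Z0 + GR.sqM Z1) : ℤ) : ℝ) ≤ ((64 * ((d : ℤ) * d) : ℤ) : ℝ) := by
      exact_mod_cast h
    push_cast at this
    exact this
  have h5 := mul_le_mul_of_nonneg_right h4 (nr_nonneg x)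
  linarith

theorem sbM_rep {A B : M9 ℕ} {A' B' : M9 ℤ} (p : RM A A') (q : RM B B') :
    RM (KT.sbM A B) ⟨A'.a - B'.a, A'.b - B'.b, A'.c - B'.c, A'.d - B'.d, A'.e - B'.e, A'.f - B'.f,
      A'.g - B'.g, A'.h - B'.h, A'.i - B'.i⟩ :=
  ⟨rp_sb p.a q.a, rp_sb p.b q.b, rp_sb p.c q.c, rp_sb p.d q.d, rp_sb p.e q.e, rp_sb p.f q.f,
    rp_sb p.g q.g, rp_sb p.h q.h, rp_sb p.i q.i⟩

theorem f2_sound {A B : M9 ℕ} {A' B' : M9 ℤ} (p : RM A A') (q : RM B B') (bA : BM (2 ^ 54) A')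
    (bB : BM (2 ^ 54) B') {d : ℕ} (h : KU.f2 (KT.sbM A B) d = true) (x : Fin 3 → ℂ) :
    nr (ap1 (rM A') x - ap1 (rM B') x) ≤ (d : ℝ) ^ 2 * nr x := by
  have r := sbM_rep p q
  have b : BM (2 * 2 ^ 54) ⟨A'.a - B'.a, A'.b - B'.b, A'.c - B'.c, A'.d - B'.d, A'.e - B'.e,
      A'.f - B'.f, A'.g - B'.g, A'.h - B'.h, A'.i - B'.i⟩ :=
    ⟨ab2' bA.a bB.a, ab2' bA.b bB.b, ab2' bA.c bB.c, ab2' bA.d bB.d, ab2' bA.e bB.e,
      ab2' bA.f bB.f, ab2' bA.g bB.g, ab2' bA.h bB.h, ab2' bA.i bB.i⟩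
  have c := sqM_bd b
  have key := ble_gen h (sq9_rep r) (sqM_nonneg _) (c.trans_lt (by decide +kernel))
  have e1 : ap1 (rM A') x - ap1 (rM B') x = ap1 (rM ⟨A'.a - B'.a, A'.b - B'.b, A'.c - B'.c,
      A'.d - B'.d, A'.e - B'.e, A'.f - B'.f, A'.g - B'.g, A'.h - B'.h, A'.i - B'.i⟩) x := by
    funext j
    fin_cases j
    · change ap1 (rM A') x 0 - ap1 (rM B') x 0 = _
      rw [ap1_0, ap1_0]
      change _ = ap1 _ x 0
      rw [ap1_0]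
      simp only [rM, GR.mpM, cI_apply]; push_cast; ring
    · change ap1 (rM A') x 1 - ap1 (rM B') x 1 = _
      rw [ap1_1, ap1_1]
      change _ = ap1 _ x 1
      rw [ap1_1]
      simp only [rM, GR.mpM, cI_apply]; push_cast; ring
    · change ap1 (rM A') x 2 - ap1 (rM B') x 2 = _
      rw [ap1_2, ap1_2]
      change _ = ap1 _ x 2
      rw [ap1_2]
      simp only [rM, GR.mpM, cI_apply]; push_cast; ring
  rw [e1]
  refine (nr_ap1 _ x).trans (mul_le_mul_of_nonneg_right ?_ (nr_nonneg x))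
  rw [rM, ← GR.mp_sqM]
  have e : ((Nat.mul d d : ℕ) : ℤ) = (d : ℤ) * d := by
    change ((d * d : ℕ) : ℤ) = _
    push_cast
    rfl
  rw [e] at key
  have : ((GR.sqM (R := ℤ) ⟨A'.a - B'.a, A'.b - B'.b, A'.c - B'.c,
      A'.d - B'.d, A'.e - B'.e, A'.f - B'.f, A'.g - B'.g, A'.h - B'.h, A'.i - B'.i⟩ : ℤ) : ℝ) ≤
      (((d : ℤ) * d : ℤ) : ℝ) := by exact_mod_cast key
  push_cast at this
  rw [pow_two]
  exact this

end Pool.Agent.Helper94.CXT
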