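import Pool.Agent.Helper94.CXT.UT7

/-!
Far cells of tail classes, row UUT: the test `t2T` on one corner.
-/

set_option autoImplicit false
set_option exponentiation.threshold 4000
noncomputable section
namespace Pool.Agent.Helper94.CXT

open Pool.Agent.Helper86.CX renaming Hm → Hm, ev → hev
open Pool.Agent.Helper94.CXF (M9)
open Pool.Agent.Helper94.CXF
open Pool.Agent.Helper94.CXF.SD
open Pool.Agent.Helper94.CXF.SD.UUX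
open Pool.Agent.Helper48.CXT
open Complex ComplexConjugate

theorem rep_c138 : Rp KT.c138 (-2 ^ 138) := by
  unfold Rp Pool.Agent.Helper17.PAK.Rep Int.ModEq
  decide +kernel

theorem srcN_rep (K : ℕ) : RH (KT.srcN K) (GR.smH (-2 ^ 138) (decz K)) :=
  smH_rep rep_c138 (dec_rep K)

/-- `V + mu K + d` -/
def vKz (mu : ℕ) (d : ℤ) (V K : Hm ℤ) : Hm ℤ := GR.adH (GR.adH V (GR.smH (mu : ℤ) K)) (GR.idH d)

theorem vK_rep {mu d : ℕ} {dz : ℤ} {V K : Hm ℕ} {V' K' : Hm ℤ} (hd : Rp d dz) (hV : RH V V')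
    (hK : RH K K') : RH (KU.vK mu d V K) (vKz mu dz V' K') := by
  have hl := rp_nat mu
  exact ⟨(hV.a.add (hl.mul hK.a)).add hd, (hV.b.add (hl.mul hK.b)).add hd,
    (hV.c.add (hl.mul hK.c)).add hd, rp0 (hV.d.add (hl.mul hK.d)), rp0 (hV.e.add (hl.mul hK.e)),
    rp0 (hV.f.add (hl.mul hK.f)), rp0 (hV.g.add (hl.mul hK.g)), rp0 (hV.h.add (hl.mul hK.h)),
    rp0 (hV.i.add (hl.mul hK.i))⟩

theorem vKz_hev (mu : ℕ) (d : ℤ) (V K : Hm ℤ) (x : Fin 3 → ℂ) :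
    hev (rH (vKz mu d V K)) x = hev (rH V) x + mu * hev (rH K) x + d * nr x := by
  rw [vKz]
  simp only [hev_ad, hev_sm', hev_id']
  push_cast
  ring

theorem vKz_bd {mu : ℕ} {d : ℤ} {V K : Hm ℤ} (hm : mu ≤ 2 ^ 32) (hd : |d| ≤ 2 ^ 250)
    (hV : BH (2 ^ 208) V) (hK : BH (2 ^ 27) K) :
    BH (2 ^ 256) (vKz mu d V (GR.smH (-2 ^ 138) K)) := by
  have hl' : |(mu : ℤ)| ≤ 2 ^ 32 := by
    rw [abs_of_nonneg (by positivity)]; exact_mod_cast hm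
  refine (adH_bd (adH_bd hV (smH_bd hl' (smH_bd (r := 2 ^ 138)
    (by rw [abs_neg, abs_of_nonneg (by positivity)]) hK))) (idH_bd hd)).mono ?_
  norm_num

theorem ml_le (M i : ℕ) : KT.ml M i ≤ 2 ^ 32 := by
  have : KT.ml M i = (M >>> (32 * i)) % 4294967296 := rfl
  rw [this]
  exact (Nat.mod_lt _ (by norm_num)).le

theorem o62_eq : KN.o62 = 2 ^ 62 := by decide +kernel
theorem o49_eq : KU.o49 = 2 ^ 49 := by decide +kernel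

theorem pT_eq (la ka d i : ℕ) (t : KU.L2T) : KU.pT la ka d i t =
    (2 ^ 49 * ((la * i) * (t.d1 * t.d1 + (t.d2 * t.d2 + t.d3 * t.d3))) +
      2 ^ 62 * (ka * (d * (t.y + t.y + d)))) + 2 ^ 158 := by
  rw [← o49_eq, ← o62_eq, ← p158_eq]; rfl

theorem s7_eq (X : KT.Cx) (la ka d : ℕ) (t : KU.L2T) (k0 k1 : KN.Nd) :
    KU.s7 X la ka d t k0 k1 = ((KN.dU X.x (k1.i - k0.i) + KU.dXU X.xr k1.i) * t.nu +
      (KN.dE X.x (k1.i - k0.i) + KT.dX X.xr k1.i) * t.ne) +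
        (KN.dS (k1.i - k0.i) * t.m + KU.pT la ka d k1.i t) := rfl

/-- bounds of the norms -/
structure TB (t : KU.L2T) : Prop where
  nu : t.nu ≤ 2 ^ 145
  ne : t.ne ≤ 2 ^ 145
  m : t.m ≤ 2 ^ 145
  y : t.y ≤ 2 ^ 60
  d1 : t.d1 ≤ 2 ^ 60
  d2 : t.d2 ≤ 2 ^ 60
  d3 : t.d3 ≤ 2 ^ 60

theorem bn7_sound {t : KU.L2T} (h : KU.bn7 t = true) : TB t := by
  unfold KU.bn7 at h
  simp only [andB_iff] at h
  obtain ⟨⟨a, b, c, d⟩, e, f, g⟩ := h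
  have o : KT.o60 = 2 ^ 60 := by decide +kernel
  rw [o] at d e f g
  exact ⟨Nat.le_of_ble_eq_true a, Nat.le_of_ble_eq_true b, Nat.le_of_ble_eq_true c,
    Nat.le_of_ble_eq_true d, Nat.le_of_ble_eq_true e, Nat.le_of_ble_eq_true f,
    Nat.le_of_ble_eq_true g⟩

theorem pT_le {la ka d i : ℕ} {t : KU.L2T} (ht : TB t) (hla : la ≤ 2 ^ 28) (hka : ka ≤ 2 ^ 28)
    (hd : d ≤ 2 ^ 54) (hi : i ≤ 256) : KU.pT la ka d i t ≤ 2 ^ 210 := by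
  rw [pT_eq]
  have a1 := Nat.mul_le_mul ht.d1 ht.d1
  have a2 := Nat.mul_le_mul ht.d2 ht.d2
  have a3 := Nat.mul_le_mul ht.d3 ht.d3
  have a4 := Nat.mul_le_mul_left (2 ^ 49) (Nat.mul_le_mul (Nat.mul_le_mul hla hi)
    (Nat.add_le_add a1 (Nat.add_le_add a2 a3)))
  have a5 := Nat.mul_le_mul_left (2 ^ 62) (Nat.mul_le_mul hka (Nat.mul_le_mul hd
    (Nat.add_le_add (Nat.add_le_add ht.y ht.y) hd)))
  exact (Nat.add_le_add_right (Nat.add_le_add a4 a5) _).trans (by norm_num)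

theorem s7_le {X : KT.Cx} {la ka d : ℕ} {t : KU.L2T} {k0 k1 : KN.Nd} (ht : TB t)
    (hla : la ≤ 2 ^ 28) (hka : ka ≤ 2 ^ 28) (hd : d ≤ 2 ^ 54) (hx : X.x ≤ 2 ^ 17)
    (hr : X.xr ≤ 2 ^ 17) (hi : k1.i ≤ 256) : KU.s7 X la ka d t k0 k1 ≤ 2 ^ 250 := by
  rw [s7_eq]
  have bi : k1.i - k0.i ≤ 256 := (Nat.sub_le _ _).trans hi
  have a1 := Nat.mul_le_mul (Nat.add_le_add (dU_le hx bi) (dXU_le hr hi)) ht.nu
  have a2 := Nat.mul_le_mul (Nat.add_le_add (dE_le hx bi) (dX_le hr hi)) ht.ne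
  have a3 := Nat.mul_le_mul (dS_le bi) ht.m
  have a4 := pT_le ht hla hka hd hi
  exact (Nat.add_le_add (Nat.add_le_add a1 a2) (Nat.add_le_add a3 a4)).trans (by norm_num)

section
variable {xc x0 : ℝ} {X : KT.Cx} {k0 k1 : KN.Nd} {u0 u1 u : ℂ} {s : ℝ}
  {KA KB KNn : Hm ℕ} {KAz KBz Kz : Hm ℤ} {N0 N1 : M9 ℕ} {Z0 Z1 : M9 ℤ}

/-- the value -/
def VZ (KAz KBz : Hm ℤ) (Z0 Z1 : M9 ℤ) (s : ℝ) (u : ℂ) (v : Fin 3 → ℂ) : ℝ :=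
  Vv s u
      (sq2 (GR.qr (rH KBz) (rM Z0) (rM Z0)) (GR.qi (rH KBz) (rM Z0) (rM Z0)) v v).re
      (sq2 (GR.qr (rH KAz) (rM Z1) (rM Z1)) (GR.qi (rH KAz) (rM Z1) (rM Z1)) v v).re
      (sq2 (GR.qr (rH KBz) (rM Z1) (rM Z1)) (GR.qi (rH KBz) (rM Z1) (rM Z1)) v v).re 0
      (sq2 (GR.qr (rH KAz) (rM Z0) (rM Z1)) (GR.qi (rH KAz) (rM Z0) (rM Z1)) v v)
      (sq2 (GR.qr (rH KBz) (rM Z0) (rM Z1)) (GR.qi (rH KBz) (rM Z0) (rM Z1)) v v) 0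

/-- what is proved at a corner, times `2 ^ 62` -/
def PTr (la ka d : ℕ) (t : KU.L2T) (s : ℝ) : ℝ :=
  2 ^ 60 * (s * la * ((t.d1 : ℝ) ^ 2 + (t.d2 : ℝ) ^ 2 + (t.d3 : ℝ) ^ 2)) +
    2 ^ 62 * (ka * d * (2 * t.y + d)) + 2 ^ 158

/-- ONE CHORD -/
theorem c7T_sound (hA : RH KA KAz) (bA : BH (2 ^ 27) KAz) (hB : RH KB KBz) (bB : BH (2 ^ 27) KBz)
    (hK : RH KNn (GR.smH (-2 ^ 138) Kz)) (bK : BH (2 ^ 27) Kz) (r0 : RM N0 Z0) (r1 : RM N1 Z1)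
    (c0 : BM (2 ^ 54) Z0) (c1 : BM (2 ^ 54) Z1) (hx : |xc| ≤ (X.x : ℝ) / 2 ^ 16)
    (hx2 : X.x ≤ 2 ^ 17) (hr2 : X.xr ≤ 2 ^ 17) {t : KU.L2T} (ht : TB t) {la ka d : ℕ}
    (hla : la ≤ 2 ^ 28) (hka : ka ≤ 2 ^ 28) (hd : d ≤ 2 ^ 54)
    (qu : KN.nq (KN.qr KA N0 N1) (KN.qi KA N0 N1) t.nu = true)
    (qe : KN.nq (KN.qr KB N0 N1) (KN.qi KB N0 N1) t.ne = true)
    (qm : KN.np (KN.qr KB N1 N1) (KN.qi KB N1 N1) t.m = true)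
    (h0 : NdR xc k0 u0) (h1 : NdR xc k1 u1) (hi : k0.i + 1 ≤ k1.i) {m0 m1 : ℕ}
    (l0 : m0 ≤ 2 ^ 32) (l1 : m1 ≤ 2 ^ 32)
    (p0 : KN.psd (KU.vK m0 (KN.ng (KU.s7 X la ka d t k0 k1)) (KN.vr k0
      (KN.hm (KN.qr KB N0 N0) (KN.qi KB N0 N0)) (KN.hm (KN.qr KA N1 N1) (KN.qi KA N1 N1))
      (KN.hm (KN.qr KB N1 N1) (KN.qi KB N1 N1)) (KN.cA (KN.qr KA N0 N1) (KN.qi KA N0 N1))
      (KN.cB (KN.qr KA N0 N1) (KN.qi KA N0 N1)) (KN.cA (KN.qr KB N0 N1) (KN.qi KB N0 N1))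
      (KN.cB (KN.qr KB N0 N1) (KN.qi KB N0 N1))) KNn) = true)
    (p1 : KN.psd (KU.vK m1 (KN.ng (KU.s7 X la ka d t k0 k1)) (KN.vr k1
      (KN.hm (KN.qr KB N0 N0) (KN.qi KB N0 N0)) (KN.hm (KN.qr KA N1 N1) (KN.qi KA N1 N1))
      (KN.hm (KN.qr KB N1 N1) (KN.qi KB N1 N1)) (KN.cA (KN.qr KA N0 N1) (KN.qi KA N0 N1))
      (KN.cB (KN.qr KA N0 N1) (KN.qi KA N0 N1)) (KN.cA (KN.qr KB N0 N1) (KN.qi KB N0 N1))
      (KN.cB (KN.qr KB N0 N1) (KN.qi KB N0 N1))) KNn) = true)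
    (hu : Cv x0 s u) (hx0 : |x0| ≤ 2) (hd0 : |x0 - xc| ≤ (X.xr : ℝ) / 2 ^ 16)
    (s0 : (k0.i : ℝ) / 2048 ≤ s) (s1 : s ≤ (k1.i : ℝ) / 2048) {v : Fin 3 → ℂ}
    (hKv : 0 ≤ hev (rH Kz) v) :
    PTr la ka d t s * nr v ≤ 2 ^ 62 * VZ KAz KBz Z0 Z1 s u v := by
  have RA01 := qr_rep hA r0 r1
  have JA01 := qi_rep hA r0 r1
  have RB01 := qr_rep hB r0 r1
  have JB01 := qi_rep hB r0 r1
  have RA11 := qr_rep hA r1 r1
  have JA11 := qi_rep hA r1 r1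
  have RB11 := qr_rep hB r1 r1
  have JB11 := qi_rep hB r1 r1
  have RB00 := qr_rep hB r0 r0
  have JB00 := qi_rep hB r0 r0
  have bd := fun {K : Hm ℤ} (b : BH (2 ^ 27) K) {Z W : M9 ℤ} (z : BM (2 ^ 54) Z)
    (w : BM (2 ^ 54) W) => And.intro ((qr_bd b z w).mono (b := 2 ^ 140) (by norm_num))
      ((qi_bd b z w).mono (b := 2 ^ 140) (by norm_num))
  have mm1 : (2 : ℤ) ^ 140 ≤ 2 ^ 200 := by norm_num
  have Nu := nq_sound RA01 JA01 ((bd bA c0 c1).1.mono mm1) ((bd bA c0 c1).2.mono mm1) qu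
  have Ne := nq_sound RB01 JB01 ((bd bB c0 c1).1.mono mm1) ((bd bB c0 c1).2.mono mm1) qe
  have Nm := np_sound RB11 JB11 ((bd bB c1 c1).1.mono mm1) ((bd bB c1 c1).2.mono mm1) qm
  have B1 := sq2_bd4 Nu v
  have B2 := sq2_bd4 Ne v
  have B3 := sq2_bd Nm v
  rw [rM_qr, rM_qi] at B1 B2 B3
  have bi : k1.i ≤ 256 := by
    have := h1.cv.s1
    have : (k1.i : ℝ) ≤ 256 := by linarith
    exact_mod_cast this
  have sle := s7_le (X := X) (t := t) (k0 := k0) (k1 := k1) ht hla hka hd hx2 hr2 bi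
  have eD := s7_eq X la ka d t k0 k1
  generalize KU.s7 X la ka d t k0 k1 = D at p0 p1 eD sle
  have hdR : Rp (KN.ng D) (-(D : ℤ)) := rp_ng (rp_nat D)
  have hdB : |-(D : ℤ)| ≤ 2 ^ 250 := by
    rw [abs_neg, abs_of_nonneg (by positivity)]
    exact_mod_cast sle
  have e41 : (2 : ℤ) ^ 140 ≤ 2 ^ 141 := by norm_num
  have node : ∀ (k : KN.Nd) (w : ℂ) (m : ℕ), m ≤ 2 ^ 32 → NdR xc k w →
      KN.psd (KU.vK m (KN.ng D) (KN.vr k (KN.hm (KN.qr KB N0 N0) (KN.qi KB N0 N0))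
      (KN.hm (KN.qr KA N1 N1) (KN.qi KA N1 N1)) (KN.hm (KN.qr KB N1 N1) (KN.qi KB N1 N1))
      (KN.cA (KN.qr KA N0 N1) (KN.qi KA N0 N1)) (KN.cB (KN.qr KA N0 N1) (KN.qi KA N0 N1))
      (KN.cA (KN.qr KB N0 N1) (KN.qi KB N0 N1)) (KN.cB (KN.qr KB N0 N1) (KN.qi KB N0 N1)))
      KNn) = true →
      (D : ℝ) * nr v ≤ Vn k
        (sq2 (GR.qr (rH KBz) (rM Z0) (rM Z0)) (GR.qi (rH KBz) (rM Z0) (rM Z0)) v v).re
        (sq2 (GR.qr (rH KAz) (rM Z1) (rM Z1)) (GR.qi (rH KAz) (rM Z1) (rM Z1)) v v).re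
        (sq2 (GR.qr (rH KBz) (rM Z1) (rM Z1)) (GR.qi (rH KBz) (rM Z1) (rM Z1)) v v).re 0
        (sq2 (GR.qr (rH KAz) (rM Z0) (rM Z1)) (GR.qi (rH KAz) (rM Z0) (rM Z1)) v v)
        (sq2 (GR.qr (rH KBz) (rM Z0) (rM Z1)) (GR.qi (rH KBz) (rM Z0) (rM Z1)) v v) 0 := by
    intro k w m hm hk hp
    have hR := vK_rep (mu := m) hdR (vr_rep (k := k) (hm_rep RB00 JB00) (hm_rep RA11 JA11)
      (hm_rep RB11 JB11) (cA_rep RA01 JA01) (cB_rep RA01 JA01) (cA_rep RB01 JB01)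
      (cB_rep RB01 JB01)) hK
    have hB := vKz_bd hm hdB (V7_bd hk
      ((hm_bd (bd bB c0 c0).1 (bd bB c0 c0).2).mono e41)
      ((hm_bd (bd bA c1 c1).1 (bd bA c1 c1).2).mono e41)
      ((hm_bd (bd bB c1 c1).1 (bd bB c1 c1).2).mono e41)
      ((cA_bd (bd bA c0 c1).1 (bd bA c0 c1).2).mono (by norm_num))
      ((cB_bd (bd bA c0 c1).1 (bd bA c0 c1).2).mono (by norm_num))
      ((cA_bd (bd bB c0 c1).1 (bd bB c0 c1).2).mono (by norm_num))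
      ((cB_bd (bd bB c0 c1).1 (bd bB c0 c1).2).mono (by norm_num))) bK
    have hz := PDz_hev (psd_sound hR hB hp) v
    rw [vKz_hev, V7_hev, hev_PZ, hev_PZ, hev_PZ, hev_AZ, hev_BZ, hev_AZ, hev_BZ, hev_sm'] at hz
    rw [Vn_seven]
    have hq : 0 ≤ (m : ℝ) * (2 ^ 138 * hev (rH Kz) v) :=
      mul_nonneg (Nat.cast_nonneg _) (mul_nonneg (by positivity) hKv)
    push_cast at hz
    linarith
  have V0 := node k0 u0 m0 l0 h0 p0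
  have V1 := node k1 u1 m1 l1 h1 p1
  have hi' : (k0.i : ℝ) / 2048 < (k1.i : ℝ) / 2048 := by
    have : (k0.i : ℝ) + 1 ≤ k1.i := by exact_mod_cast hi
    linarith
  have hxc : |xc| ≤ 2 := by
    refine hx.trans ?_
    rw [div_le_iff₀ (by positivity)]
    have : (X.x : ℝ) ≤ 2 ^ 17 := by exact_mod_cast hx2
    linarith
  obtain ⟨w, hw, huw⟩ := cv_near hu hx0 hxc
  have sn := hu.s0
  obtain ⟨ρ1, ρ2, _⟩ := rho_le (w := k1.i) sn s1 hd0 (abs_nonneg _)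
  obtain ⟨τ, t0, t1, hs⟩ := exists_t s0 s1 hi'
  have n0 := nr_nonneg v
  unfold VZ PTr
  generalize (sq2 (GR.qr (rH KBz) (rM Z0) (rM Z0)) (GR.qi (rH KBz) (rM Z0) (rM Z0)) v v).re = c1
    at *
  generalize (sq2 (GR.qr (rH KAz) (rM Z1) (rM Z1)) (GR.qi (rH KAz) (rM Z1) (rM Z1)) v v).re = cs
    at *
  generalize sq2 (GR.qr (rH KBz) (rM Z1) (rM Z1)) (GR.qi (rH KBz) (rM Z1) (rM Z1)) v v = c2 at *
  generalize sq2 (GR.qr (rH KAz) (rM Z0) (rM Z1)) (GR.qi (rH KAz) (rM Z0) (rM Z1)) v v = q1 at *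
  generalize sq2 (GR.qr (rH KBz) (rM Z0) (rM Z1)) (GR.qi (rH KBz) (rM Z0) (rM Z1)) v v = q2 at *
  have CV := chordV (cs := cs) (c3 := 0) (qg := 0) (ng := 0) (m3 := 0)
    (c1 := c1) (c2 := c2.re) (qu := q1) (qe := q2)
    h0 h1 hw hx hx2 t0 t1 hs (by omega) B1 B2 (by simp)
    ((abs_re_le_norm _).trans B3) (by simp)
  have SV := Vv_shift hu huw (c3 := 0) (qg := 0) (ng := 0) (c1 := c1) (cs := cs) (c2 := c2.re)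
    (qu := q1) (qe := q2) B1 B2 (by simp)
  have Dr : (D : ℝ) = (((KN.dU X.x (k1.i - k0.i) : ℝ) + (KU.dXU X.xr k1.i : ℝ)) * t.nu +
      ((KN.dE X.x (k1.i - k0.i) : ℝ) + (KT.dX X.xr k1.i : ℝ)) * t.ne) +
      ((KN.dS (k1.i - k0.i) : ℝ) * t.m + ((2 ^ 49 * ((la * k1.i) * ((t.d1 : ℝ) * t.d1 +
        ((t.d2 : ℝ) * t.d2 + (t.d3 : ℝ) * t.d3))) + 2 ^ 62 * ((ka : ℝ) * ((d : ℝ) * ((t.y : ℝ) +
          t.y + d)))) + 2 ^ 158)) := by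
    rw [eD, pT_eq]; push_cast; ring
  have A0 := mul_le_mul_of_nonneg_left V0 (sub_nonneg.2 t1)
  have A1 := mul_le_mul_of_nonneg_left V1 t0
  generalize Vn k0 c1 cs c2.re 0 q1 q2 0 = W0 at *
  generalize Vn k1 c1 cs c2.re 0 q1 q2 0 = W1 at *
  generalize Vv s w c1 cs c2.re 0 q1 q2 0 = Vw at *
  generalize Vv s u c1 cs c2.re 0 q1 q2 0 = Vu at *
  have key2 : (D : ℝ) * nr v ≤ (1 - τ) * W0 + τ * W1 := by linarith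
  rw [Dr] at key2
  have rr1 := mul_le_mul_of_nonneg_right ρ1 (mul_nonneg (Nat.cast_nonneg t.nu) n0)
  have rr2 := mul_le_mul_of_nonneg_right ρ2 (mul_nonneg (Nat.cast_nonneg t.ne) n0)
  have S0 : 0 ≤ (la : ℝ) * (((t.d1 : ℝ) * t.d1 + ((t.d2 : ℝ) * t.d2 + (t.d3 : ℝ) * t.d3))) *
      nr v := by positivity
  have S1 : 2 ^ 60 * s * ((la : ℝ) * (((t.d1 : ℝ) * t.d1 + ((t.d2 : ℝ) * t.d2 +
      (t.d3 : ℝ) * t.d3))) * nr v) ≤ 2 ^ 49 * k1.i * ((la : ℝ) * (((t.d1 : ℝ) * t.d1 +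
        ((t.d2 : ℝ) * t.d2 + (t.d3 : ℝ) * t.d3))) * nr v) := by
    refine mul_le_mul_of_nonneg_right ?_ S0
    have := mul_le_mul_of_nonneg_left s1 (show (0 : ℝ) ≤ 2 ^ 60 by positivity)
    refine this.trans (le_of_eq ?_)
    ring
  clear V0 V1 Dr eD hdR hdB p0 p1 qu qe qm RA01 JA01 RB01 JB01 RA11 JA11 RB11 JB11 RB00 JB00 hA hB
    hK node
  generalize ((KN.dU X.x (k1.i - k0.i) : ℕ) : ℝ) = dU at *
  generalize ((KN.dE X.x (k1.i - k0.i) : ℕ) : ℝ) = dE at *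
  generalize ((KN.dS (k1.i - k0.i) : ℕ) : ℝ) = dS at *
  generalize ((KU.dXU X.xr k1.i : ℕ) : ℝ) = xU at *
  generalize ((KT.dX X.xr k1.i : ℕ) : ℝ) = xE at *
  generalize 104 / 100 * s * |x0 - xc| = ρ at *
  have e5 : (2 ^ 60 * (s * la * ((t.d1 : ℝ) ^ 2 + (t.d2 : ℝ) ^ 2 + (t.d3 : ℝ) ^ 2)) +
    2 ^ 62 * (ka * d * (2 * t.y + d)) + 2 ^ 158) * nr v = 2 ^ 60 * s * ((la : ℝ) * (((t.d1 : ℝ) *
      t.d1 + ((t.d2 : ℝ) * t.d2 + (t.d3 : ℝ) * t.d3))) * nr v) +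
        (2 ^ 62 * ((ka : ℝ) * ((d : ℝ) * ((t.y : ℝ) + t.y + d))) + 2 ^ 158) * nr v := by ring
  rw [e5]
  linarith

end

end Pool.Agent.Helper94.CXT
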