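import Pool.Agent.Helper94.CXT.UT8

/-!
Far cells of tail classes, row UUT: SOUNDNESS OF `t2T`.
-/

set_option autoImplicit false
set_option exponentiation.threshold 4000
noncomputable section
namespace Pool.Agent.Helper94.CXT

open Pool.Agent.Helper86.CX renaming Hm → Hm, ev → hev
open Pool.Agent.Helper94.CXF (M9)
open Pool.Agent.Helper94.CXF
open Pool.Agent.Helper94.CXF.SD
open Pool.Agent.Helper94.CXF.SD.UUX
open Pool.Agent.Helper48.CXT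
open Complex ComplexConjugate

/-! ### corners -/

/-- the form of the target and `VZ` -/
theorem VZ_eq {A B : ℕ} {Z0 Z1 : M9 ℤ} {x0 s : ℝ} {u : ℂ} (hu : Cv x0 s u) (v : Fin 3 → ℂ)
    (h0 : hev (rH (decz A)) (ap1 (rM Z0) v) = 0) :
    hev (lpf A B s) (ap1 (rM Z0) v + ((s : ℂ) * u) • ap1 (rM Z1) v) =
      s * VZ (decz A) (decz B) Z0 Z1 s u v := by
  have HA := hev_ap (rH (decz A)) (rM Z0, rM Z1) (s * u) v
  have HB := hev_ap (rH (decz B)) (rM Z0, rM Z1) (s * u) v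
  have nse : normSq ((s : ℂ) * u) = s ^ 2 := by
    rw [normSq_mul, normSq_ofReal, hu.nm]; ring
  rw [hev_P, hev_hmQ] at h0
  simp only at HA HB
  rw [h0] at HA
  rw [nse] at HA HB
  rw [← ap_eq (rM Z0, rM Z1), hev_lpf, HA, HB, VZ, Vv]
  have e2 : ∀ q : ℂ, ((s : ℂ) * u * q).re = s * (u * q).re := by
    intro q
    rw [mul_assoc, re_ofReal_mul]
  simp only [e2, mul_zero, zero_re]
  ring

/-- what a corner gives -/
structure CorT (A B : ℕ) (Kz : Hm ℤ) (la ka d : ℕ) (t : KU.L2T) (Z0 Z1 : M9 ℤ) (s : ℝ) (u : ℂ) :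
    Prop where
  y : 9 * (8 * GR.sqM Z0 + GR.sqM Z1) ≤ 64 * ((t.y : ℤ) * t.y)
  v : ∀ v, 0 ≤ hev (rH Kz) v → PTr la ka d t s * nr v ≤
    2 ^ 62 * VZ (decz A) (decz B) Z0 Z1 s u v

theorem corner_t {xc x0 s : ℝ} {u : ℂ} {X : KT.Cx} (hX : CxOk xc X) (hI : InX xc X x0 s u)
    {A B : ℕ} {KNn : Hm ℕ} {Kz : Hm ℤ} (hK : RH KNn (GR.smH (-2 ^ 138) Kz))
    (bK : BH (2 ^ 27) Kz) {T : KT.MP} {Z0 Z1 : M9 ℤ} (r0 : RM T.1 Z0) (r1 : RM T.2 Z1)
    (c0 : BM (2 ^ 54) Z0) (c1 : BM (2 ^ 54) Z1) {t : KU.L2T} (ht : TB t) {la ka d : ℕ}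
    (hla : la ≤ 2 ^ 28) (hka : ka ≤ 2 ^ 28) (hd : d ≤ 2 ^ 54) {i : ℕ}
    (h : KU.c71 X la ka d t (KN.dec A) (KN.dec B) KNn T i = true) :
    CorT A B Kz la ka d t Z0 Z1 s u := by
  unfold KU.c71 KU.c72 at h
  simp only [andB_iff] at h
  obtain ⟨hy, qu, qe, qm, hc⟩ := h
  refine ⟨f9_sound r0 r1 c0 c1 hy, fun v hv => ?_⟩
  unfold KU.cn7 at hc
  refine chs_sound (x0 := xc) (Q := fun s => ∀ u, Cv x0 s u → PTr la ka d t s * nr v ≤
    2 ^ 62 * VZ (decz A) (decz B) Z0 Z1 s u v) hX.ns ?_ ?_ t.c X.k hX.st hc hX.lt s hI.s0 hI.s1 u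
    hI.cv
  · intro k0 k1 l hc
    simp only [andB_iff] at hc
    exact Nat.le_of_ble_eq_true hc.1
  · rintro k0 k1 l ⟨u0, h0⟩ ⟨u1, h1⟩ hc s s0 s1 u hu
    simp only [andB_iff] at hc
    obtain ⟨hi, p0, p1⟩ := hc
    exact c7T_sound (dec_rep A) (dec_bd A) (dec_rep B) (dec_bd B) hK bK r0 r1 c0 c1 hX.hx hX.hx2
      hX.hr2 ht hla hka hd qu qe qm h0 h1 (Nat.le_of_ble_eq_true hi) (ml_le _ _) (ml_le _ _) p0 p1
      hu hI.x2 hI.x1 s0 s1 hv

/-! ### the family -/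

def e00z : M9 ℤ := ⟨2 ^ 48, 0, 0, 0, 0, 0, 0, 0, 0⟩

/-- second matrix of `TTm k h g / (k h)`; `ι = 1 / k`, `κ = k² - 1`, `η = 1 / h` -/
def T3 (k ι κ η g : ℝ) : M9 ℝ :=
  ⟨k * g * η, κ * η, -(k * η), η * g * ι, η, -(η * ι), -(k * g * η), -(κ * η), k * η⟩

theorem e00_rep (k e g : ℕ) : RM (KU.FT k e g).1 e00z := by
  have h : Rp KN.u1N (2 ^ 48) := by
    unfold Rp Pool.Agent.Helper17.PAK.Rep Int.ModEq
    decide +kernel
  exact ⟨h, rp_zero, rp_zero, rp_zero, rp_zero, rp_zero, rp_zero, rp_zero, rp_zero⟩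

theorem e00_bd : BM (2 ^ 54) e00z := by
  constructor <;> norm_num [e00z]

/-- rounded quotients -/
theorem ap_div {P kN : ℕ} {p k R : ℝ} (hP : |(P : ℝ) - 2 ^ 96 * p| ≤ R * 2 ^ 48) (p0 : 0 ≤ p)
    (k1 : 1 ≤ k) (hk : |(kN : ℝ) - 2 ^ 48 * k| ≤ 1) (kN1 : 2 ^ 48 ≤ kN) {C : ℝ} (hp : p ≤ C) :
    Ap (R + C + 1) C (p * k⁻¹) (P / kN) := by
  have kpos : 0 < k := by linarith
  have kinv : 0 ≤ k⁻¹ := (inv_pos.2 kpos).le
  have kinv1 : k⁻¹ ≤ 1 := inv_le_one_of_one_le₀ k1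
  have R0 : 0 ≤ R * 2 ^ 48 := (abs_nonneg _).trans hP
  have R0' : 0 ≤ R := by
    by_contra hlt
    have := not_le.1 hlt
    have : R * 2 ^ 48 < 0 := mul_neg_of_neg_of_pos this (by positivity)
    linarith
  have pk : p * k⁻¹ ≤ p := mul_le_of_le_one_right p0 kinv1
  refine ⟨mul_nonneg p0 kinv, pk.trans hp, ?_⟩
  have kNpos : 0 < kN := lt_of_lt_of_le (by positivity) kN1
  have kNr : (2 : ℝ) ^ 48 ≤ kN := by exact_mod_cast kN1
  have d1 := div_le_real P kN kNpos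
  have d2 := le_div_real P kN kNpos
  have hP1 := (abs_le.1 hP).1
  have hP2 := (abs_le.1 hP).2
  have hk1 := (abs_le.1 hk).1
  have hk2 := (abs_le.1 hk).2
  generalize ((P / kN : ℕ) : ℝ) = q at *
  generalize (P : ℝ) = P at *
  generalize (kN : ℝ) = N at *
  have Npos : 0 < N := lt_of_lt_of_le (by positivity) kNr
  have M : 0 < N := Npos
  have eq1 : p * k⁻¹ * k = p := by field_simp
  have w0 : 0 ≤ p * k⁻¹ := mul_nonneg p0 kinv
  have wC' : p * k⁻¹ ≤ C := pk.trans hp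
  clear pk hP hk kinv kinv1 kNpos kN1 R0
  generalize p * k⁻¹ = w at *
  -- `2 ^ 96 p = 2 ^ 48 w * (2 ^ 48 k)`
  have e2 : 2 ^ 96 * p = 2 ^ 48 * w * (2 ^ 48 * k) := by rw [← eq1]; ring
  have wN1 : 2 ^ 48 * w * (2 ^ 48 * k) ≤ 2 ^ 48 * w * N + 2 ^ 48 * w := by
    have := mul_le_mul_of_nonneg_left (show 2 ^ 48 * k ≤ N + 1 by linarith)
      (mul_nonneg (by norm_num) w0 : 0 ≤ 2 ^ 48 * w)
    linarith
  have wN2 : 2 ^ 48 * w * N ≤ 2 ^ 48 * w * (2 ^ 48 * k) + 2 ^ 48 * w := by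
    have := mul_le_mul_of_nonneg_left (show N ≤ 2 ^ 48 * k + 1 by linarith)
      (mul_nonneg (by norm_num) w0 : 0 ≤ 2 ^ 48 * w)
    linarith
  have wC : 2 ^ 48 * w ≤ C * N := by
    have h2 : 0 ≤ C := w0.trans wC'
    have := mul_le_mul wC' kNr (by norm_num) h2
    linarith
  have RN : R * 2 ^ 48 ≤ R * N := mul_le_mul_of_nonneg_left kNr R0'
  generalize 2 ^ 48 * w * (2 ^ 48 * k) = A at *
  generalize 2 ^ 96 * p = B at *
  subst e2
  generalize (2 : ℝ) ^ 48 * w = w' at *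
  generalize R * 2 ^ 48 = R' at *
  rw [abs_le]
  constructor
  · refine le_of_mul_le_mul_right ?_ Npos
    linarith
  · refine le_of_mul_le_mul_right ?_ Npos
    linarith

theorem FT_eq (k e g : ℕ) : (KU.FT k e g).2 =
    ⟨KN.mu (KN.mu k g) e, KN.mu (KT.su (KN.mu k k)) e, KN.nm (KN.mu k e), e * g / k, e,
      KN.nm (e * KN.u1N / k), KN.nm (KN.mu (KN.mu k g) e), KN.nm (KN.mu (KT.su (KN.mu k k)) e),
      KN.mu k e⟩ := by
  unfold KU.FT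
  rfl

theorem ok_T3 {k η g : ℝ} {kN eN gN : ℕ} (hk : Ap 1 2 k kN) (he : Ap 2 2 η eN)
    (hg : Ap 1 2 g gN) (k1 : 1 ≤ k) (kN1 : 2 ^ 48 ≤ kN) :
    ∃ Z, OkT (T3 k k⁻¹ (k ^ 2 - 1) η g) (KU.FT kN eN gN).2 Z := by
  have kk := hk.mul hk (by norm_num)
  have kk1 : 1 ≤ k * k := by nlinarith
  have kkN : 2 ^ 48 ≤ KN.mu kN kN := mu_ge kN1
  have sk := ap_su kk kk1 kkN
  have ske : En ((k ^ 2 - 1) * η) (KN.mu (KT.su (KN.mu kN kN)) eN) := by
    rw [pow_two]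
    exact (sk.mul he (by norm_num)).en (by norm_num) (by norm_num)
  have kg := hk.mul hg (by norm_num)
  have kge : En (k * g * η) (KN.mu (KN.mu kN gN) eN) :=
    (kg.mul he (by norm_num)).en (by norm_num) (by norm_num)
  have ke : En (k * η) (KN.mu kN eN) := (hk.mul he (by norm_num)).en (by norm_num) (by norm_num)
  have e0 : (0 : ℝ) ≤ eN := Nat.cast_nonneg _
  have g0 : (0 : ℝ) ≤ gN := Nat.cast_nonneg _
  have e1 := abs_le.1 he.er
  have g1 := abs_le.1 hg.er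
  have egP : |((eN * gN : ℕ) : ℝ) - 2 ^ 96 * (η * g)| ≤ 7 * 2 ^ 48 := by
    have e : ((eN * gN : ℕ) : ℝ) - 2 ^ 96 * (η * g) =
        ((eN : ℝ) - 2 ^ 48 * η) * gN + 2 ^ 48 * η * ((gN : ℝ) - 2 ^ 48 * g) := by
      push_cast; ring
    rw [e]
    have gN2 : (gN : ℝ) ≤ 2 ^ 49 + 1 := by
      have := hg.hi
      linarith
    have a1 : |((eN : ℝ) - 2 ^ 48 * η) * gN| ≤ 2 * (2 ^ 49 + 1) := by
      rw [abs_mul, abs_of_nonneg g0]
      exact mul_le_mul he.er gN2 g0 (by norm_num)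
    have a2 : |2 ^ 48 * η * ((gN : ℝ) - 2 ^ 48 * g)| ≤ 2 ^ 48 * 2 * 1 := by
      rw [abs_mul, abs_mul, abs_of_pos (show (0 : ℝ) < 2 ^ 48 by positivity),
        abs_of_nonneg he.lo]
      exact mul_le_mul (mul_le_mul_of_nonneg_left he.hi (by positivity)) hg.er (abs_nonneg _)
        (by positivity)
    refine (abs_add_le _ _).trans ((add_le_add a1 a2).trans ?_)
    norm_num
  have eP : |((eN * KN.u1N : ℕ) : ℝ) - 2 ^ 96 * η| ≤ 2 * 2 ^ 48 := by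
    have u : ((KN.u1N : ℕ) : ℝ) = 2 ^ 48 := by
      change ((281474976710656 : ℕ) : ℝ) = _
      norm_num
    have e : ((eN * KN.u1N : ℕ) : ℝ) - 2 ^ 96 * η = ((eN : ℝ) - 2 ^ 48 * η) * 2 ^ 48 := by
      rw [Nat.cast_mul, u]; ring
    rw [e, abs_mul, abs_of_pos (show (0 : ℝ) < 2 ^ 48 by positivity)]
    exact mul_le_mul_of_nonneg_right he.er (by positivity)
  have eg0 : 0 ≤ η * g := mul_nonneg he.lo hg.lo
  have eg1 : η * g ≤ 4 := by
    have := mul_le_mul he.hi hg.hi hg.lo (by norm_num)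
    linarith
  have d1 : En (η * g * k⁻¹) (eN * gN / kN) :=
    (ap_div egP eg0 k1 hk.er kN1 eg1).en (by norm_num) (by norm_num)
  have d2 : En (η * k⁻¹) (eN * KN.u1N / kN) :=
    (ap_div eP he.lo k1 hk.er kN1 he.hi).en (by norm_num) (by norm_num)
  rw [FT_eq]
  unfold T3
  generalize KT.su (KN.mu kN kN) = sN at ske ⊢
  exact ok_of kge ske ke.neg d1 (he.en (by norm_num) (by norm_num)) d2.neg kge.neg ske.neg ke

/-! ### interpolation of the family -/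

theorem T3_ln3 {k0 k1 i0 i1 c0 c1 η0 η1 g0 g1 : ℝ} (t1 t2 t3 : ℝ) (x : Fin 3 → ℂ) :
    ap1 (smM (2 ^ 48) (T3 ((1 - t1) * k0 + t1 * k1) ((1 - t1) * i0 + t1 * i1)
      ((1 - t1) * c0 + t1 * c1) ((1 - t2) * η0 + t2 * η1) ((1 - t3) * g0 + t3 * g1))) x =
      ln3 t1 t2 t3 fun a b c => ap1 (smM (2 ^ 48) (T3 (if a then k1 else k0)
        (if a then i1 else i0) (if a then c1 else c0) (if b then η1 else η0)
        (if c then g1 else g0))) x := by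
  funext j
  fin_cases j
  · change ap1 _ x 0 = _
    simp only [ln3, ln, Pi.add_apply, Pi.smul_apply, smul_eq_mul, Bool.false_eq_true, if_false,
      if_true]
    simp only [Fin.zero_eta, ap1_0, smM, T3]
    push_cast
    ring
  · change ap1 _ x 1 = _
    simp only [ln3, ln, Pi.add_apply, Pi.smul_apply, smul_eq_mul, Bool.false_eq_true, if_false,
      if_true]
    simp only [Fin.mk_one, ap1_1, smM, T3]
    push_cast
    ring
  · change ap1 _ x 2 = _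
    simp only [ln3, ln, Pi.add_apply, Pi.smul_apply, smul_eq_mul, Bool.false_eq_true, if_false,
      if_true]
    simp only [Fin.reduceFinMk, ap1_2, smM, T3]
    push_cast
    ring

/-- the error -/
def E3 (δ ρ η g : ℝ) : M9 ℝ := ⟨0, -(δ * η), 0, -(ρ * η * g), 0, ρ * η, 0, δ * η, 0⟩

theorem T3_err (k i i' c c' η g : ℝ) (x : Fin 3 → ℂ) :
    ap1 (smM (2 ^ 48) (T3 k i c η g)) x = ap1 (smM (2 ^ 48) (T3 k i' c' η g)) x +
      ap1 (smM (2 ^ 48) (E3 (c' - c) (i' - i) η g)) x := by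
  funext j
  fin_cases j
  · change ap1 _ x 0 = ap1 _ x 0 + ap1 _ x 0
    simp only [ap1_0, smM, T3, E3]
    push_cast
    ring
  · change ap1 _ x 1 = ap1 _ x 1 + ap1 _ x 1
    simp only [ap1_1, smM, T3, E3]
    push_cast
    ring
  · change ap1 _ x 2 = ap1 _ x 2 + ap1 _ x 2
    simp only [ap1_2, smM, T3, E3]
    push_cast
    ring

theorem inv_lin {k k0 k1 t : ℝ} (h : k = (1 - t) * k0 + t * k1) (p : 0 < k) (p0 : 0 < k0)
    (p1 : 0 < k1) : ((1 - t) * k0⁻¹ + t * k1⁻¹) - k⁻¹ =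
      t * (1 - t) * (k1 - k0) ^ 2 * (k * k0 * k1)⁻¹ := by
  have := p.ne'
  have := p0.ne'
  have := p1.ne'
  field_simp
  rw [h]
  ring

theorem sq_lin {k k0 k1 t : ℝ} (h : k = (1 - t) * k0 + t * k1) :
    ((1 - t) * (k0 ^ 2 - 1) + t * (k1 ^ 2 - 1)) - (k ^ 2 - 1) = t * (1 - t) * (k1 - k0) ^ 2 := by
  rw [h]; ring

theorem E3_nr {k k0 k1 t η g : ℝ} (ht : I01 t) (h : k = (1 - t) * k0 + t * k1)
    (a0 : 19 / 10 ≤ k0) (a1 : 19 / 10 ≤ k1) (g0 : 0 ≤ g) (g2 : g ≤ 2) (x : Fin 3 → ℂ) :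
    nr (ap1 (smM (2 ^ 48) (E3 (((1 - t) * (k0 ^ 2 - 1) + t * (k1 ^ 2 - 1)) - (k ^ 2 - 1))
      (((1 - t) * k0⁻¹ + t * k1⁻¹) - k⁻¹) η g)) x) ≤
      (2 ^ 48 * (3 / 8 * (k1 - k0) ^ 2 * η)) ^ 2 * nr x := by
  have hk : 19 / 10 ≤ k := by
    rw [h]
    have := mul_le_mul_of_nonneg_left a0 (sub_nonneg.2 ht.2)
    have := mul_le_mul_of_nonneg_left a1 ht.1
    linarith
  have p : 0 < k := by linarith
  have p0 : 0 < k0 := by linarith
  have p1 : 0 < k1 := by linarith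
  rw [inv_lin h p p0 p1, sq_lin h]
  refine (nr_ap1 _ x).trans (mul_le_mul_of_nonneg_right ?_ (nr_nonneg x))
  have hP : (19 / 10 : ℝ) * (19 / 10) * (19 / 10) ≤ k * k0 * k1 :=
    mul_le_mul (mul_le_mul hk a0 (by norm_num) p.le) a1 (by norm_num) (by positivity)
  set w := (k * k0 * k1)⁻¹ with hw
  have w0 : 0 ≤ w := by positivity
  have w1 : w ≤ 3 / 20 := by
    have h1 : w ≤ ((19 / 10 : ℝ) * (19 / 10) * (19 / 10))⁻¹ :=
      inv_anti₀ (by norm_num) hP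
    refine h1.trans ?_
    norm_num
  have tt : t * (1 - t) ≤ 1 / 4 := by nlinarith [sq_nonneg (t - 1 / 2)]
  have tt0 : 0 ≤ t * (1 - t) := mul_nonneg ht.1 (sub_nonneg.2 ht.2)
  have w2 : w * w ≤ 9 / 400 := by
    have := mul_le_mul w1 w1 w0 (by norm_num)
    linarith
  have gg : g * g ≤ 4 := by
    have := mul_le_mul g2 g2 g0 (by norm_num)
    linarith
  have wg : w * w * (g * g) ≤ 9 / 400 * 4 := mul_le_mul w2 gg (mul_self_nonneg g) (by norm_num)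
  have t4 : t * (1 - t) * (t * (1 - t)) ≤ 1 / 4 * (1 / 4) := mul_le_mul tt tt tt0 (by norm_num)
  set τ := t * (1 - t) with hτ
  have D0 : 0 ≤ (k1 - k0) ^ 2 := sq_nonneg _
  set D := (k1 - k0) ^ 2 with hD
  have e : GR.sqM (smM (2 ^ 48) (E3 (τ * D) (τ * D * w) η g)) =
      2 ^ 96 * ((D * η) * (D * η)) * (τ * τ * (2 + w * w * (g * g) + w * w)) := by
    simp only [GR.sqM, smM, E3]
    ring
  have e2 : (2 ^ 48 * (3 / 8 * D * η)) ^ 2 = 2 ^ 96 * ((D * η) * (D * η)) * (9 / 64) := by ring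
  rw [e, e2]
  refine mul_le_mul_of_nonneg_left ?_ (mul_nonneg (by positivity) (mul_self_nonneg _))
  have f1 : 2 + w * w * (g * g) + w * w ≤ 9 / 4 := by linarith
  have f2 : τ * τ * (2 + w * w * (g * g) + w * w) ≤ 1 / 4 * (1 / 4) * (9 / 4) :=
    mul_le_mul t4 f1 (by positivity) (by norm_num)
  linarith

end Pool.Agent.Helper94.CXT
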